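import Pool.Agent.H918.C.Finv

/-! The contraction principle for discs. (After the file `N154/TT/CP.lean` of an earlier team.) -/

set_option autoImplicit false

open Filter Topology Metric Set

namespace Pool.Agent.H918.SD

open Pool.Agent.Y190.OP Pool.Agent.N155
open Pool.Agent.N155.BB (GW RG BCw)
open Pool.Agent.N154.TT (cv cv_nonneg ball_sub_l)
open Pool.Agent.N154.GG (UU uu_ge qk qk_ge doubling)

variable {N : ℕ} {T Z : Set (Mat N)} {κ : Type}
  {ω : κ → (Fin N → ℂ) → (Fin N → ℂ) → (Fin N → ℂ) → ℂ} {k m' : ℕ}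
  {S : (ℂ → Mat N) → ℂ → Fin m' → ℂ} {C C1 s0 c0 r c1 : ℝ}

/-- the constants -/
structure Kst (T Z : Set (Mat N)) (ω : κ → (Fin N → ℂ) → (Fin N → ℂ) → (Fin N → ℂ) → ℂ) (k : ℕ)
    (S : (ℂ → Mat N) → ℂ → Fin m' → ℂ) (C C1 s0 c0 r c1 : ℝ) : Prop where
  gw : GW T Z ω
  z : ∀ φ, BCw T c0 φ → ∃ z, φ z ∉ Z
  cd : CD T c0 (BCw T c0) r c1
  sdl : SDl T k S
  C0 : 0 < C
  ge : GEl T k S C
  h0 : 0 < s0
  h1 : s0 ≤ 1
  C2 : C * s0 ≤ 2
  C10 : 0 ≤ C1
  b1 : ∀ P, HolP univ P → (∀ z, P z ∈ T) → ∀ z, ‖S P z‖ ≤ C1 * ‖fderiv ℝ P z‖ ^ k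
  cc : C1 * c0 ^ k < s0 ^ k / 2
  c00 : 0 < c0

/-- existence of the constants -/
theorem exists_Kst (hG : GW T Z ω)
    (hZ : ∀ c0, 0 < c0 → ∀ φ, BCw T c0 φ → ∃ z, φ z ∉ Z) (hS : SDl T k S) (hNT : NT T S) :
    ∃ C C1 s0 c0 r c1 : ℝ, Kst T Z ω k S C C1 s0 c0 r c1 := by
  have hk := hS.kpos
  obtain ⟨C, hC0, hC⟩ := hS.gradient hNT
  obtain ⟨C1, hC1, hb⟩ := hS.dat.bd
  set s0 : ℝ := min 1 (2 / C) with hs0
  have h0 : 0 < s0 := by positivity
  have h1 : s0 ≤ 1 := min_le_left _ _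
  have hC2 : C * s0 ≤ 2 := by
    have : s0 ≤ 2 / C := min_le_right _ _
    rw [le_div_iff₀ hC0] at this
    linarith
  set c0 : ℝ := s0 / (2 * (C1 + 1)) with hc0
  have hc00 : 0 < c0 := by positivity
  have hcc : C1 * c0 ^ k < s0 ^ k / 2 := by
    have e1 : c0 ^ k ≤ s0 ^ k / (2 * (C1 + 1)) := by
      rw [hc0, div_pow]
      apply div_le_div_of_nonneg_left (by positivity) (by positivity)
      exact le_self_pow₀ (by linarith) hk.ne'
    have e2 : C1 * c0 ^ k ≤ C1 * (s0 ^ k / (2 * (C1 + 1))) := mul_le_mul_of_nonneg_left e1 hC1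
    refine e2.trans_lt ?_
    rw [← mul_div_assoc, div_lt_div_iff₀ (by positivity) (by norm_num)]
    have e3 : 0 < s0 ^ k := pow_pos h0 k
    nlinarith
  have hcls := BCw.cls hS.comp hS.sub hc00
  obtain ⟨r, c1, hcd⟩ := CD.of hG (hZ c0 hc00) hcls
  exact ⟨C, C1, s0, c0, r, c1, ⟨hG, hZ c0 hc00, hcd, hS, hC0, hC, h0, h1, hC2, hC1, hb, hcc, hc00⟩⟩

/-- the distance function -/
noncomputable def Dd (T : Set (Mat N)) (c0 r c1 : ℝ) (x : Mat N) : ℝ :=
  DD r (BCw T c0) (ee r c0 c1) x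

theorem Kst.Dd_nn (K : Kst T Z ω k S C C1 s0 c0 r c1) (x : Mat N) : 0 ≤ Dd T c0 r c1 x :=
  DD_nonneg K.cd.ee_pos x

theorem Kst.Dd_le (K : Kst T Z ω k S C C1 s0 c0 r c1) (x : Mat N) : Dd T c0 r c1 x ≤ 1 :=
  DD_le_one K.cd.ee_pos x

/-- **Contraction principle** -/
theorem Kst.contraction (K : Kst T Z ω k S C C1 s0 c0 r c1) :
    ∃ k0 : ℕ, ∀ n : ℕ, k0 ≤ n → ∀ (P : ℂ → Mat N) (z0 : ℂ) (ρ : ℝ) (b : ℂ),
      Ds T z0 ρ P → s0 * ((n : ℝ) + 1) ≤ ρ * sk k (S P) z0 →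
      ∃ w, ‖w - z0‖ * sk k (S P) z0 ≤ n ∧ 2 * (sk k (S P) z0 ^ qk n * Dd T c0 r c1 (P z0)) ≤
        sk k (S P) w ^ qk n * Dd T c0 r c1 (P w) * ‖Complex.exp (b * (w - z0))‖ := by
  by_contra hcon
  push Not at hcon
  choose nn hnn P z0 ρ b hD hρ hw using hcon
  have hk := K.sdl.kpos
  have h0 := K.h0
  have h1 := K.h1
  have hspos : ∀ i, 0 < sk k (S (P i)) (z0 i) := by
    intro i
    rcases (sk_nn k (S (P i)) (z0 i)).eq_or_lt with e0 | e0
    · have e1 := hρ i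
      rw [← e0, mul_zero] at e1
      have e2 : (0 : ℝ) ≤ nn i := Nat.cast_nonneg _
      have : 0 < s0 * ((nn i : ℝ) + 1) := by positivity
      linarith
    · exact e0
  have hPpos : ∀ i, 0 < Dd T c0 r c1 (P i (z0 i)) := by
    intro i
    have e1 := hw i (z0 i) (by rw [sub_self, norm_zero, zero_mul]; exact Nat.cast_nonneg _)
    rw [sub_self, mul_zero, Complex.exp_zero, norm_one, mul_one] at e1
    have e2 : 0 < sk k (S (P i)) (z0 i) ^ qk (nn i) * Dd T c0 r c1 (P i (z0 i)) := by linarith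
    exact pos_of_mul_pos_right e2 (pow_pos (hspos i) _).le
  set c : ℕ → ℝ := fun i => s0 * (sk k (S (P i)) (z0 i))⁻¹ with hc
  have hc0 : ∀ i, 0 < c i := fun i => mul_pos h0 (inv_pos.2 (hspos i))
  have hcn : ∀ i, ‖((c i : ℝ) : ℂ)‖ = c i := fun i => by
    rw [Complex.norm_real, Real.norm_of_nonneg (hc0 i).le]
  have hcs : ∀ i, c i * sk k (S (P i)) (z0 i) = s0 := fun i => by
    rw [hc]
    simp only
    rw [mul_assoc, inv_mul_cancel₀ (hspos i).ne', mul_one]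
  set h' : ℕ → ℂ → Mat N := fun i t => P i (z0 i + (c i : ℂ) * t) with hh'
  have hcρ : ∀ i : ℕ, c i * ((i : ℝ) + 1) ≤ ρ i := by
    intro i
    have e1 : s0 * ((i : ℝ) + 1) ≤ ρ i * sk k (S (P i)) (z0 i) := by
      have e2 : (i : ℝ) ≤ nn i := by exact_mod_cast hnn i
      have e3 : s0 * ((i : ℝ) + 1) ≤ s0 * ((nn i : ℝ) + 1) :=
        mul_le_mul_of_nonneg_left (by linarith) h0.le
      exact e3.trans (hρ i)
    rw [hc]
    simp only
    rw [mul_right_comm, ← div_eq_mul_inv, div_le_iff₀ (hspos i)]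
    exact e1
  have hin : ∀ (i : ℕ) (t : ℂ), ‖t‖ ≤ i → z0 i + (c i : ℂ) * t ∈ ball (z0 i) (ρ i) := by
    intro i t ht
    refine maps_aff (ρ := (i : ℝ) + 1) (hc0 i) ?_ (mem_ball_zero_iff.2 (by linarith))
    rw [sub_self, norm_zero, zero_add]
    exact hcρ i
  have hsg : ∀ (i : ℕ) (t : ℂ), ‖t‖ ≤ i →
      sk k (S (h' i)) t = c i * sk k (S (P i)) (z0 i + (c i : ℂ) * t) := fun i t ht =>
    K.sdl.sk_aff (hD i) (z0 i) (hc0 i) (hin i t ht)
  have hSQ : SQd T k S (DD r (BCw T c0) (ee r c0 c1)) s0 nn (fun i => b i * (c i : ℂ)) h' := by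
    refine ⟨hnn, fun i => ?_, fun i => ?_, fun i => ?_, fun i t ht => ?_⟩
    · refine (hD i).affine (z0 i) (hc0 i) ?_
      rw [sub_self, norm_zero, zero_add]
      exact hcρ i
    · rw [hsg i 0 (by rw [norm_zero]; exact Nat.cast_nonneg _), mul_zero, add_zero, hcs]
    · rw [hh']
      simp only [mul_zero, add_zero]
      exact hPpos i
    · rw [hsg i t ht]
      have e4 : h' i 0 = P i (z0 i) := by
        rw [hh']
        simp only [mul_zero, add_zero]
      rw [e4]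
      change (c i * sk k (S (P i)) (z0 i + (c i : ℂ) * t) / s0) ^ qk (nn i) *
        (DD r (BCw T c0) (ee r c0 c1) (P i (z0 i + (c i : ℂ) * t)) * _) ≤ _
      set w := z0 i + (c i : ℂ) * t with hwdef
      have h2 : (i : ℝ) ≤ nn i := by exact_mod_cast hnn i
      have e1 := hw i w (by
        rw [hwdef, add_sub_cancel_left, norm_mul, hcn]
        calc c i * ‖t‖ * sk k (S (P i)) (z0 i) = ‖t‖ * (c i * sk k (S (P i)) (z0 i)) := by ring
          _ = ‖t‖ * s0 := by rw [hcs]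
          _ ≤ ‖t‖ * 1 := mul_le_mul_of_nonneg_left h1 (norm_nonneg _)
          _ ≤ nn i := by rw [mul_one]; exact ht.trans h2)
      have e2 : b i * (w - z0 i) = b i * (c i : ℂ) * t := by
        rw [hwdef]
        ring
      rw [e2] at e1
      unfold Dd at e1
      have e3 := mul_le_mul_of_nonneg_left e1.le
        (pow_nonneg (div_nonneg (hc0 i).le h0.le) (qk (nn i)))
      calc _ = (c i / s0) ^ qk (nn i) * (sk k (S (P i)) w ^ qk (nn i) *
            DD r (BCw T c0) (ee r c0 c1) (P i w) * ‖Complex.exp (b i * (c i : ℂ) * t)‖) := by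
            rw [mul_div_right_comm, mul_pow]
            ring
        _ ≤ _ := e3
        _ = 2 * ((c i / s0 * sk k (S (P i)) (z0 i)) ^ qk (nn i) *
            DD r (BCw T c0) (ee r c0 c1) (P i (z0 i))) := by
            rw [mul_pow]
            ring
        _ = _ := by rw [div_mul_eq_mul_div, hcs, div_self h0.ne', one_pow, one_mul]
  exact hSQ.false K.gw K.z K.cd K.sdl K.C0 K.ge K.h0 K.h1 K.C2 K.C10 K.b1 K.cc

/-- **The main estimate**: in discs of radius `R` -/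
theorem Kst.main_estimate (K : Kst T Z ω k S C C1 s0 c0 r c1) :
    ∃ k0 : ℕ, ∀ n : ℕ, k0 ≤ n → ∃ B : ℝ, 0 < B ∧ ∀ (P : ℂ → Mat N) (z0 : ℂ)
      (R : ℝ), 0 < R → Ds T z0 R P →
      sk k (S P) z0 * (Dd T c0 r c1 (P z0)) ^ (((qk n : ℕ) : ℝ)⁻¹) ≤ B / R := by
  classical
  obtain ⟨k0, hk0⟩ := K.contraction
  refine ⟨k0, fun n hn => ?_⟩
  have hk := K.sdl.kpos
  have h0 := K.h0
  have h1 := K.h1
  have hqpos : qk n ≠ 0 := qk_ne n
  have hq0 : 0 < ((qk n : ℕ) : ℝ)⁻¹ := by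
    have := Nat.pos_of_ne_zero hqpos
    positivity
  set κ1 : ℝ := (3 / 2 : ℝ) ^ (((qk n : ℕ) : ℝ)⁻¹) with hκ1
  have hκ11 : 1 < κ1 := Real.one_lt_rpow (by norm_num) hq0
  have hκ1p : κ1 ^ qk n = 3 / 2 := Real.rpow_inv_natCast_pow (by norm_num) hqpos
  set B : ℝ := 4 * (n * (κ1 / (κ1 - 1)) + n + 1) with hB
  have hκf : 0 ≤ κ1 / (κ1 - 1) := div_nonneg (by linarith) (by linarith)
  have hkn : (0 : ℝ) ≤ n := Nat.cast_nonneg n
  have hB0 : 0 < B := by positivity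
  refine ⟨B, hB0, fun P z0 R hR hD => ?_⟩
  by_contra hcon
  push Not at hcon
  set f0 : ℂ → ℝ := fun z => sk k (S P) z * (Dd T c0 r c1 (P z)) ^ (((qk n : ℕ) : ℝ)⁻¹) with hf0
  have hx0 : ∀ z, 0 ≤ Dd T c0 r c1 (P z) := fun z => K.Dd_nn _
  have hfpow : ∀ z, f0 z ^ qk n = sk k (S P) z ^ qk n * (Dd T c0 r c1 (P z)) := by
    intro z
    rw [hf0]
    simp only
    rw [mul_pow, Real.rpow_inv_natCast_pow (hx0 z) hqpos]
  have hf0n : ∀ z, 0 ≤ f0 z := fun z => mul_nonneg (sk_nn _ _ z) (Real.rpow_nonneg (hx0 z) _)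
  have hfs : ∀ z, f0 z ≤ sk k (S P) z := fun z =>
    mul_le_of_le_one_right (sk_nn _ _ z) (Real.rpow_le_one (hx0 z) (K.Dd_le _) hq0.le)
  set f : ℂ → ℝ := fun z => if z ∈ closedBall z0 (R / 2) then f0 z else 0 with hfdef
  have hfin : ∀ z, z ∈ closedBall z0 (R / 2) → f z = f0 z := by
    intro z hz
    rw [hfdef]
    simp only
    rw [if_pos hz]
  have hsub : closedBall z0 (R / 2) ⊆ ball z0 R := closedBall_subset_ball (by linarith)
  have hdif := K.sdl.dif hD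
  -- local bounds
  have hlocb : ∃ M : ℝ, ∀ z ∈ closedBall z0 (R / 2), sk k (S P) z ≤ M := by
    obtain ⟨A, hA⟩ := (isCompact_closedBall z0 (3 * R / 4)).bddAbove_image
      (hdif.continuousOn.mono (closedBall_subset_ball (by linarith))).norm
    have hA0 : 0 ≤ A := (norm_nonneg _).trans (hA ⟨z0, mem_closedBall_self (by positivity), rfl⟩)
    set s : ℝ := max (max 1 A) (4 / R) with hs
    have hs1 : 1 ≤ s := (le_max_left 1 A).trans (le_max_left _ _)
    have hsA : A ≤ s := (le_max_right 1 A).trans (le_max_left _ _)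
    have hsR : 4 / R ≤ s := le_max_right _ _
    have hs0 : 0 < s := by linarith
    have hs4 : 1 / s ≤ R / 4 := by
      rw [div_le_div_iff₀ hs0 (by norm_num)]
      rw [div_le_iff₀ hR] at hsR
      linarith
    refine ⟨s, fun z hz => ?_⟩
    have hsb : ball z (R / 2) ⊆ ball z0 R := by
      apply ball_subset_ball'
      rw [mem_closedBall] at hz
      linarith
    refine sk_le_of_bound_l hk (hdif.mono hsb) hs0 (by linarith) fun w hw => ?_
    have hw1 : w ∈ closedBall z0 (3 * R / 4) := by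
      rw [mem_closedBall] at hz ⊢
      rw [mem_sphere] at hw
      have := dist_triangle w z z0
      linarith
    have e1 := hA ⟨w, hw1, rfl⟩
    simp only at e1
    exact (e1.trans hsA).trans (le_self_pow₀ hs1 hk.ne')
  obtain ⟨M, hM⟩ := hlocb
  have hz0c : z0 ∈ closedBall z0 (R / 2) := mem_closedBall_self (by positivity)
  have hf0pos : 0 < f z0 := by
    rw [hfin z0 hz0c]
    exact lt_of_le_of_lt (by positivity) hcon
  set s : ℂ → ℝ := fun z => if z ∈ closedBall z0 (R / 2) then sk k (S P) z else 0 with hsdef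
  obtain ⟨z1, e1, e2, e3⟩ := doubling (f := f) (s := s) (by
      intro z
      by_cases hz : z ∈ closedBall z0 (R / 2)
      · rw [hfin z hz, hsdef]
        simp only
        rw [if_pos hz]
        exact hfs z
      · rw [hfdef, hsdef]
        simp only
        rw [if_neg hz, if_neg hz]) (by
      intro z
      refine ⟨univ, univ_mem, max M 0, ?_⟩
      rintro _ ⟨w, -, rfl⟩
      by_cases hw : w ∈ closedBall z0 (R / 2)
      · rw [hfin w hw]
        exact ((hfs w).trans (hM w hw)).trans (le_max_left _ _)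
      · rw [hfdef]
        simp only
        rw [if_neg hw]
        exact le_max_right _ _)
    (κ := κ1) (A := (n : ℝ)) hκ11 hkn (z0 := z0) hf0pos
  have hf1pos : 0 < f z1 := hf0pos.trans_le e1
  have hz1c : z1 ∈ closedBall z0 (R / 2) := by
    by_contra hc
    rw [hfdef] at hf1pos
    simp only at hf1pos
    rw [if_neg hc] at hf1pos
    exact lt_irrefl _ hf1pos
  have hs1 : s z1 = sk k (S P) z1 := by
    rw [hsdef]
    simp only
    rw [if_pos hz1c]
  have hfz0 : B < R * f z0 := by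
    rw [hfin z0 hz0c]
    rw [div_lt_iff₀ hR] at hcon
    linarith
  have hdz : ‖z1 - z0‖ ≤ R / 4 := by
    by_contra hc
    push Not at hc
    have h1 : R / 4 * f z0 < ‖z1 - z0‖ * f z0 := mul_lt_mul_of_pos_right hc hf0pos
    have h2 : B / 4 < n * (κ1 / (κ1 - 1)) := by linarith
    rw [hB] at h2
    linarith
  have hsgz1 : B ≤ R * sk k (S P) z1 := by
    have h1 : f z0 ≤ sk k (S P) z1 := e1.trans (by
      rw [hfin z1 hz1c]
      exact hfs z1)
    have h2 := mul_le_mul_of_nonneg_left h1 hR.le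
    linarith
  have hD1 : Ds T z1 (R / 4) P := hD.mono (by
    apply ball_subset_ball'
    rw [dist_eq_norm]
    linarith)
  have hkR : s0 * ((n : ℝ) + 1) ≤ R / 4 * sk k (S P) z1 := by
    have e4 : s0 * ((n : ℝ) + 1) ≤ 1 * ((n : ℝ) + 1) :=
      mul_le_mul_of_nonneg_right h1 (by positivity)
    have e5 : (n : ℝ) + 1 ≤ B / 4 := by
      rw [hB]
      have : 0 ≤ (n : ℝ) * (κ1 / (κ1 - 1)) := mul_nonneg hkn hκf
      linarith
    linarith
  obtain ⟨w, hw1, hw2⟩ := hk0 n hn P z1 (R / 4) 0 hD1 hkR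
  rw [zero_mul, Complex.exp_zero, norm_one, mul_one] at hw2
  have hsg1 : 0 < sk k (S P) z1 := by
    by_contra hc
    push Not at hc
    have : R * sk k (S P) z1 ≤ 0 := mul_nonpos_of_nonneg_of_nonpos hR.le hc
    linarith
  have hwz1 : ‖w - z1‖ ≤ R / 4 := by
    by_contra hc
    push Not at hc
    have h1 : R / 4 * sk k (S P) z1 < ‖w - z1‖ * sk k (S P) z1 :=
      mul_lt_mul_of_pos_right hc hsg1
    have h2 : B / 4 = n * (κ1 / (κ1 - 1)) + n + 1 := by
      rw [hB]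
      ring
    have h3 : 0 ≤ (n : ℝ) * (κ1 / (κ1 - 1)) := mul_nonneg hkn hκf
    linarith
  have hwc : w ∈ closedBall z0 (R / 2) := by
    rw [mem_closedBall, dist_eq_norm]
    have h1 := norm_add_le (w - z1) (z1 - z0)
    rw [sub_add_sub_cancel] at h1
    linarith
  have h4 := e3 w (by rw [hs1]; exact hw1)
  rw [hfin w hwc, hfin z1 hz1c] at h4
  have h5 := pow_le_pow_left₀ (hf0n w) h4 (qk n)
  rw [mul_pow κ1, hκ1p, hfpow, hfpow] at h5
  have h6 : 0 < f0 z1 ^ qk n := pow_pos (by rw [← hfin z1 hz1c]; exact hf1pos) _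
  rw [hfpow] at h6
  linarith

end Pool.Agent.H918.SD
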