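import Pool.Agent.H918.C.Skl
import Pool.Agent.H918.A.Dat
import Pool.Graph.R_pool_sql_team_seeded_63374d34.N154.TT.Lim
import Pool.Graph.R_pool_sql_team_seeded_63374d34.N154.TT.Grad

/-! Abstract symmetric differentials on compact sets of projection matrices, along discs, and the
gradient estimate. (After the file `N154/TT/Grad.lean` of an earlier team.) -/

set_option autoImplicit false

open Filter Topology Metric Set

namespace Pool.Agent.H918.SD

open Pool.Agent.Y190.OP Pool.Agent.N155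
open Pool.Agent.N154.GG (holP_comp_l exists_limit_loc_l hp_cont aff_eq doubling fderiv_cont)

variable {N m k : ℕ}

/-- a holomorphic curve in `T`, on a disc -/
structure Ds (T : Set (Mat N)) (z : ℂ) (R : ℝ) (P : ℂ → Mat N) : Prop where
  hol : HolP (ball z R) P
  mem : ∀ w ∈ ball z R, P w ∈ T

variable {T : Set (Mat N)} {S : (ℂ → Mat N) → ℂ → Fin m → ℂ}

theorem Ds.mono {z w : ℂ} {R ρ : ℝ} {P : ℂ → Mat N} (h : Ds T z R P)
    (hs : ball w ρ ⊆ ball z R) : Ds T w ρ P :=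
  ⟨h.hol.mono hs, fun x hx => h.mem x (hs hx)⟩

theorem maps_aff {z z1 : ℂ} {R c ρ : ℝ} (hc : 0 < c) (hρ : ‖z1 - z‖ + c * ρ ≤ R) :
    MapsTo (fun t : ℂ => z1 + (c : ℂ) * t) (ball 0 ρ) (ball z R) := by
  intro t ht
  rw [mem_ball_zero_iff] at ht
  rw [mem_ball, dist_eq_norm]
  have h1 : ‖z1 + (c : ℂ) * t - z‖ ≤ ‖z1 - z‖ + c * ‖t‖ := by
    have := norm_add_le (z1 - z) ((c : ℂ) * t)
    rw [norm_mul, Complex.norm_real, Real.norm_of_nonneg hc.le] at this
    refine le_trans (le_of_eq ?_) this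
    congr 1
    ring
  have h2 : c * ‖t‖ < c * ρ := mul_lt_mul_of_pos_left ht hc
  linarith

/-- affine changes of variables -/
theorem Ds.affine {z : ℂ} {R : ℝ} {P : ℂ → Mat N} (h : Ds T z R P) (z1 : ℂ) {c : ℝ} (hc : 0 < c)
    {ρ : ℝ} (hρ : ‖z1 - z‖ + c * ρ ≤ R) : Ds T 0 ρ (fun t => P (z1 + (c : ℂ) * t)) := by
  have hmaps := maps_aff hc hρ
  have hd : Differentiable ℂ (fun t : ℂ => z1 + (c : ℂ) * t) := by fun_prop
  exact ⟨holP_comp_l h.hol hd.differentiableOn isOpen_ball hmaps, fun w hw => h.mem _ (hmaps hw)⟩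

/-- the values of symmetric differentials of degree `k` along holomorphic curves in `T` -/
structure SDl (T : Set (Mat N)) (k : ℕ) (S : (ℂ → Mat N) → ℂ → Fin m → ℂ) : Prop where
  comp : IsCompact T
  sub : T ⊆ PM
  kpos : 0 < k
  hol : ∀ (U : Set ℂ) (P : ℂ → Mat N), IsOpen U → HolP U P → (∀ z ∈ U, P z ∈ T) →
    DifferentiableOn ℂ (S P) U
  aff : ∀ (U : Set ℂ) (P : ℂ → Mat N), IsOpen U → HolP U P → (∀ z ∈ U, P z ∈ T) →
    ∀ z0 c t : ℂ, z0 + c * t ∈ U →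
    S (fun t => P (z0 + c * t)) t = c ^ k • S P (z0 + c * t)
  bd : ∃ C : ℝ, 0 ≤ C ∧ ∀ (U : Set ℂ) (P : ℂ → Mat N), IsOpen U → HolP U P →
    (∀ z ∈ U, P z ∈ T) → ∀ z ∈ U, ‖S P z‖ ≤ C * ‖fderiv ℝ P z‖ ^ k
  lim : ∀ (𝓤 : Ultrafilter ℕ) (U : Set ℂ) (P : ℕ → ℂ → Mat N) (H : ℂ → Mat N), IsOpen U →
    (∀ᶠ n in (𝓤 : Filter ℕ), HolP U (P n) ∧ ∀ z ∈ U, P n z ∈ T) → HolP U H →
    (∀ z ∈ U, H z ∈ T) → CConv (𝓤 : Filter ℕ) U P H →
    ∀ z ∈ U, Tendsto (fun n => S (P n) z) 𝓤 (𝓝 (S H z))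

theorem SDl.dat (h : SDl T k S) : SDat T k S where
  comp := h.comp
  sub := h.sub
  kpos := h.kpos
  hol := fun P hP hPT => differentiableOn_univ.1
    (h.hol univ P isOpen_univ hP fun z _ => hPT z)
  aff := fun P hP hPT z0 c t => h.aff univ P isOpen_univ hP (fun z _ => hPT z) z0 c t
    (mem_univ _)
  bd := by
    obtain ⟨C, hC, hb⟩ := h.bd
    exact ⟨C, hC, fun P hP hPT z => hb univ P isOpen_univ hP (fun z _ => hPT z) z (mem_univ z)⟩
  lim := fun 𝓤 P H hP hPT hH hHT hc z => h.lim 𝓤 univ P H isOpen_univ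
    (Eventually.of_forall fun n => ⟨hP n, fun z _ => hPT n z⟩) hH (fun z _ => hHT z) hc z
    (mem_univ z)

theorem SDl.dif (h : SDl T k S) {z : ℂ} {R : ℝ} {P : ℂ → Mat N} (hd : Ds T z R P) :
    DifferentiableOn ℂ (S P) (ball z R) := h.hol _ P isOpen_ball hd.hol hd.mem

/-- the values after an affine change of variables -/
theorem SDl.aff' (h : SDl T k S) {z : ℂ} {R : ℝ} {P : ℂ → Mat N} (hd : Ds T z R P) (z1 c t : ℂ)
    (ht : z1 + c * t ∈ ball z R) :
    S (fun t => P (z1 + c * t)) t = c ^ k • S P (z1 + c * t) :=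
  h.aff _ P isOpen_ball hd.hol hd.mem z1 c t ht

theorem SDl.sk_aff (h : SDl T k S) {z : ℂ} {R : ℝ} {P : ℂ → Mat N} (hd : Ds T z R P) (z1 : ℂ)
    {c : ℝ} (hc : 0 < c) {t : ℂ} (ht : z1 + c * t ∈ ball z R) :
    sk k (S (fun t => P (z1 + (c : ℂ) * t))) t = c * sk k (S P) (z1 + c * t) := by
  have h1 : (S (fun t => P (z1 + (c : ℂ) * t))) =ᶠ[𝓝 t]
      fun t => (c : ℂ) ^ k • S P (z1 + c * t) := by
    have h2 : ContinuousAt (fun t : ℂ => z1 + (c : ℂ) * t) t := by fun_prop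
    filter_upwards [h2.eventually (isOpen_ball.mem_nhds ht)] with s hs
    exact h.aff' hd z1 c s hs
  rw [sk_congr h1, sk_comp h.kpos, Complex.norm_real, Real.norm_of_nonneg hc.le]

/-- the gradient estimate -/
def GEl (T : Set (Mat N)) (k : ℕ) (S : (ℂ → Mat N) → ℂ → Fin m → ℂ) (C : ℝ) : Prop :=
  ∀ (P : ℂ → Mat N) (z : ℂ) (R : ℝ), 0 < R → Ds T z R P →
    ‖fderiv ℝ P z‖ ≤ C * max (sk k (S P) z) (1 / R)

/-- **Gradient estimate** -/
theorem SDl.gradient (h : SDl T k S) (hf : NT T S) : ∃ C : ℝ, 0 < C ∧ GEl T k S C := by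
  classical
  have hk := h.kpos
  by_contra hcon
  push Not at hcon
  have hcon' : ∀ n : ℕ, ∃ (P : ℂ → Mat N) (z : ℂ) (R : ℝ), 0 < R ∧
      Ds T z R P ∧ ((n : ℝ) + 1) * max (sk k (S P) z) (1 / R) < ‖fderiv ℝ P z‖ := by
    intro n
    have h0 := hcon ((n : ℝ) + 1) (by positivity)
    unfold GEl at h0
    push Not at h0
    exact h0
  choose P z0 R hR hD hz0 using hcon'
  set σ : ℕ → ℝ := fun n => max (sk k (S (P n)) (z0 n)) (1 / R n) with hσ
  have hσpos : ∀ n, 0 < σ n := fun n => lt_of_lt_of_le (by have := hR n; positivity)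
    (le_max_right _ _)
  have hσR : ∀ n, 1 ≤ R n * σ n := by
    intro n
    have h1 : 1 / R n ≤ σ n := le_max_right _ _
    have h2 := mul_le_mul_of_nonneg_left h1 (hR n).le
    rwa [mul_one_div, div_self (hR n).ne'] at h2
  set mm : ℕ → ℝ := fun n => ‖fderiv ℝ (P n) (z0 n)‖ with hm
  have hmσ : ∀ n : ℕ, ((n : ℝ) + 1) * σ n < mm n := hz0
  have hpos : ∀ n, 0 < mm n := fun n => (mul_pos (by positivity) (hσpos n)).trans (hmσ n)
  have hmR : ∀ n : ℕ, ((n : ℝ) + 1) < mm n * R n := by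
    intro n
    have h1 := mul_lt_mul_of_pos_right (hmσ n) (hR n)
    have h2 : ((n : ℝ) + 1) * 1 ≤ ((n : ℝ) + 1) * (R n * σ n) :=
      mul_le_mul_of_nonneg_left (hσR n) (by positivity)
    linarith
  set f : ℕ → ℂ → ℝ := fun n z => if z ∈ closedBall (z0 n) (R n / 2) then ‖fderiv ℝ (P n) z‖ else 0
    with hfdef
  have hfin : ∀ n z, z ∈ closedBall (z0 n) (R n / 2) → f n z = ‖fderiv ℝ (P n) z‖ := by
    intro n z hz
    rw [hfdef]
    simp only
    rw [if_pos hz]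
  have hf0 : ∀ n, f n (z0 n) = mm n := fun n =>
    hfin n _ (mem_closedBall_self (by have := hR n; positivity))
  have hdb : ∀ n : ℕ, ∃ z, mm n ≤ f n z ∧
      ‖z - z0 n‖ * mm n ≤ ((n : ℝ) + 1) / 12 * 2 ∧
      ∀ w, ‖w - z‖ * f n z ≤ ((n : ℝ) + 1) / 12 → f n w ≤ 2 * f n z := by
    intro n
    have hcont : ContinuousOn (fun z => ‖fderiv ℝ (P n) z‖) (closedBall (z0 n) (R n / 2)) := by
      intro z hz
      refine ContinuousAt.continuousWithinAt ?_
      exact ((hD n).hol.continuousAt_fderiv (closedBall_subset_ball (by linarith [hR n]) hz)).norm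
    obtain ⟨M, hM⟩ := (isCompact_closedBall (z0 n) (R n / 2)).bddAbove_image hcont
    obtain ⟨z, e1, e2, e3⟩ := doubling (f := f n) (s := f n) (fun _ => le_rfl) (by
        intro z
        refine ⟨univ, univ_mem, max M 0, ?_⟩
        rintro _ ⟨w, -, rfl⟩
        by_cases hw : w ∈ closedBall (z0 n) (R n / 2)
        · rw [hfin n w hw]
          exact (hM ⟨w, hw, rfl⟩).trans (le_max_left _ _)
        · rw [hfdef]
          simp only
          rw [if_neg hw]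
          exact le_max_right _ _)
      (κ := 2) (A := ((n : ℝ) + 1) / 12) (z0 := z0 n) (by norm_num) (by positivity)
      (by rw [hf0]; exact hpos n)
    rw [hf0] at e1 e2
    refine ⟨z, e1, ?_, e3⟩
    norm_num at e2 ⊢
    exact e2
  choose z1 h1 h2 h3 using hdb
  set μ : ℕ → ℝ := fun n => f n (z1 n) with hμ
  have hμpos : ∀ n, 0 < μ n := fun n => (hpos n).trans_le (h1 n)
  have hz1in : ∀ n, z1 n ∈ closedBall (z0 n) (R n / 2) := by
    intro n
    by_contra hcon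
    have h4 := hμpos n
    rw [hμ] at h4
    simp only at h4
    rw [hfdef] at h4
    simp only at h4
    rw [if_neg hcon] at h4
    exact lt_irrefl _ h4
  have hμeq : ∀ n, μ n = ‖fderiv ℝ (P n) (z1 n)‖ := fun n => hfin n _ (hz1in n)
  set H : ℕ → ℂ → Mat N := fun n t => P n (z1 n + (((μ n)⁻¹ : ℝ) : ℂ) * t) with hH
  have hz10 : ∀ n : ℕ, ‖z1 n - z0 n‖ * mm n ≤ ((n : ℝ) + 1) / 6 := by
    intro n
    have := h2 n
    linarith
  have hbig : ∀ n : ℕ, ∀ w, ‖w - z1 n‖ * μ n ≤ ((n : ℝ) + 1) / 12 →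
      ‖w - z0 n‖ * mm n ≤ ((n : ℝ) + 1) / 4 := by
    intro n w hw
    have e2 : ‖w - z0 n‖ ≤ ‖w - z1 n‖ + ‖z1 n - z0 n‖ := by
      have := norm_add_le (w - z1 n) (z1 n - z0 n)
      rwa [sub_add_sub_cancel] at this
    have e3 : ‖w - z1 n‖ * mm n ≤ ((n : ℝ) + 1) / 12 :=
      (mul_le_mul_of_nonneg_left (h1 n) (norm_nonneg _)).trans hw
    have e4 := mul_le_mul_of_nonneg_right e2 (hpos n).le
    have e5 := hz10 n
    rw [add_mul] at e4
    linarith
  have hin : ∀ n : ℕ, ∀ w, ‖w - z1 n‖ * μ n ≤ ((n : ℝ) + 1) / 12 → ‖w - z0 n‖ ≤ R n / 4 := by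
    intro n w hw
    have e1 := hbig n w hw
    have e2 := hmR n
    by_contra hcon
    push Not at hcon
    have e3 : R n / 4 * mm n < ‖w - z0 n‖ * mm n := mul_lt_mul_of_pos_right hcon (hpos n)
    linarith
  have hDH : ∀ n : ℕ, Ds T 0 (((n : ℝ) + 1) / 12) (H n) := by
    intro n
    have hc := inv_pos.2 (hμpos n)
    refine (hD n).affine (z1 n) hc ?_
    have e1 := hin n (z1 n + (((μ n)⁻¹ * (((n : ℝ) + 1) / 12) : ℝ) : ℂ)) (by
      rw [add_sub_cancel_left, Complex.norm_real, Real.norm_of_nonneg (by positivity)]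
      have := (hμpos n).ne'
      field_simp
      exact le_rfl)
    have e2 := hin n (z1 n) (by
      rw [sub_self, norm_zero, zero_mul]
      positivity)
    have e3 : (μ n)⁻¹ * (((n : ℝ) + 1) / 12) ≤ R n / 2 := by
      have e4 : ‖(((μ n)⁻¹ * (((n : ℝ) + 1) / 12) : ℝ) : ℂ)‖ = (μ n)⁻¹ * (((n : ℝ) + 1) / 12) := by
        rw [Complex.norm_real, Real.norm_of_nonneg (by positivity)]
      have e5 := norm_sub_le (z1 n + (((μ n)⁻¹ * (((n : ℝ) + 1) / 12) : ℝ) : ℂ) - z0 n)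
        (z1 n - z0 n)
      have e6 : z1 n + (((μ n)⁻¹ * (((n : ℝ) + 1) / 12) : ℝ) : ℂ) - z0 n - (z1 n - z0 n) =
          (((μ n)⁻¹ * (((n : ℝ) + 1) / 12) : ℝ) : ℂ) := by ring
      rw [e6, e4] at e5
      linarith
    linarith [hR n]
  have haff : ∀ n t, Pool.Agent.Y190.OP.aff (z1 n) (μ n)⁻¹ t = z1 n + (((μ n)⁻¹ : ℝ) : ℂ) * t := fun n t => aff_eq _ _ _
  have hdist : ∀ n t, ‖z1 n + (((μ n)⁻¹ : ℝ) : ℂ) * t - z1 n‖ * μ n = ‖t‖ := by
    intro n t
    rw [add_sub_cancel_left, norm_mul, Complex.norm_real,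
      Real.norm_of_nonneg (inv_nonneg.2 (hμpos n).le)]
    have := (hμpos n).ne'
    field_simp
  have hball : ∀ (n : ℕ) (t : ℂ), ‖t‖ ≤ ((n : ℝ) + 1) / 12 → ‖fderiv ℝ (H n) t‖ ≤ 2 ∧
      ‖S (H n) t‖ ≤ (4 / ((n : ℝ) + 1)) ^ k := by
    intro n t ht
    have hn : (0 : ℝ) < (n : ℝ) + 1 := by positivity
    have hd := hdist n t
    set ζ := z1 n + (((μ n)⁻¹ : ℝ) : ℂ) * t with hζ
    have hζ1 : ‖ζ - z1 n‖ * μ n ≤ ((n : ℝ) + 1) / 12 := by rw [hd]; exact ht
    have hζ0 := hin n ζ hζ1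
    have hζR : ζ ∈ ball (z0 n) (R n) := by
      rw [mem_ball, dist_eq_norm]
      linarith [hR n]
    constructor
    · have e0 : ‖fderiv ℝ (H n) t‖ = (μ n)⁻¹ * ‖fderiv ℝ (P n) ζ‖ := by
        have := norm_fderiv_aff (Ψ := P n) (a := z1 n) (ρ := (μ n)⁻¹) (z := t)
          (inv_nonneg.2 (hμpos n).le) (by rw [haff]; exact (hD n).hol.differentiableAt hζR)
        rw [haff] at this
        exact this
      rw [e0]
      have e1 := h3 n ζ hζ1
      rw [hfin n ζ (by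
        rw [mem_closedBall, dist_eq_norm]
        linarith [hR n])] at e1
      calc (μ n)⁻¹ * ‖fderiv ℝ (P n) ζ‖ ≤ (μ n)⁻¹ * (2 * μ n) :=
            mul_le_mul_of_nonneg_left e1 (inv_nonneg.2 (hμpos n).le)
        _ = 2 := by
            have := (hμpos n).ne'
            field_simp
    · have e0 : S (H n) t = (((μ n)⁻¹ : ℝ) : ℂ) ^ k • S (P n) ζ := h.aff' (hD n) _ _ _ hζR
      rw [e0, norm_smul, norm_pow, Complex.norm_real,
        Real.norm_of_nonneg (inv_nonneg.2 (hμpos n).le)]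
      have e1 := hbig n ζ hζ1
      have e2 : 4 * ‖ζ - z0 n‖ * σ n ≤ 1 := by
        have e3 : ‖ζ - z0 n‖ * (((n : ℝ) + 1) * σ n) ≤ ((n : ℝ) + 1) / 4 :=
          (mul_le_mul_of_nonneg_left (hmσ n).le (norm_nonneg _)).trans e1
        have e4 : ((n : ℝ) + 1) * (4 * ‖ζ - z0 n‖ * σ n) ≤ ((n : ℝ) + 1) * 1 := by
          linarith
        exact le_of_mul_le_mul_left e4 hn
      have e3 : ‖S (P n) ζ‖ ≤ (4 * σ n) ^ k := by
        refine (val_le_sk_l (R := R n / 2) hk ((h.dif (hD n)).mono ?_)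
          (by linarith [hR n])).trans (pow_le_pow_left₀ (sk_nn _ _ _)
          (sk_harnack_l hk (h.dif (hD n)) (hσpos n) (le_max_left _ _) (hσR n) e2) k)
        apply ball_subset_ball'
        rw [dist_eq_norm]
        linarith [hR n]
      have e4 : ((n : ℝ) + 1) * σ n ≤ μ n := (hmσ n).le.trans (h1 n)
      calc ((μ n)⁻¹) ^ k * ‖S (P n) ζ‖ ≤ ((μ n)⁻¹) ^ k * (4 * σ n) ^ k :=
            mul_le_mul_of_nonneg_left e3 (pow_nonneg (inv_nonneg.2 (hμpos n).le) _)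
        _ = ((μ n)⁻¹ * (4 * σ n)) ^ k := by rw [mul_pow ((μ n)⁻¹)]
        _ ≤ (4 / ((n : ℝ) + 1)) ^ k := by
            apply pow_le_pow_left₀ (mul_nonneg (inv_nonneg.2 (hμpos n).le)
              (by have := hσpos n; positivity))
            rw [inv_mul_le_iff₀ (hμpos n), mul_div_assoc', le_div_iff₀ hn]
            nlinarith
  set 𝓤 : Ultrafilter ℕ := hyperfilter ℕ with h𝓤
  have hge : ∀ L : ℝ, ∀ᶠ n : ℕ in (𝓤 : Filter ℕ), L ≤ ((n : ℝ) + 1) / 12 := by
    intro L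
    filter_upwards [Pool.Agent.N154.GG.hyper_ge (12 * L)] with n hn
    linarith
  have hDL : ∀ L : ℝ, ∀ᶠ n : ℕ in (𝓤 : Filter ℕ), Ds T 0 L (H n) := by
    intro L
    filter_upwards [hge L] with n hn
    exact (hDH n).mono (ball_subset_ball hn)
  obtain ⟨G, hG, hGT, hGc, hGd⟩ := exists_limit_loc_l h.comp h.sub (𝓤 := 𝓤) (h := H)
    (fun L => (hDL L).mono fun _ h => h.hol) (fun L => (hDL L).mono fun _ h => h.mem) (by
      intro L
      refine ⟨2, ?_⟩
      filter_upwards [hge L] with n hn z hz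
      exact (hball n z ((mem_ball_zero_iff.1 hz).le.trans hn)).1)
  have hzero : ∀ z, S G z = 0 := by
    intro z
    have hz : z ∈ ball (0 : ℂ) (‖z‖ + 1) := mem_ball_zero_iff.2 (by linarith)
    have e0 := h.lim 𝓤 (ball 0 (‖z‖ + 1)) H G isOpen_ball
      ((hDL (‖z‖ + 1)).mono fun _ h => ⟨h.hol, h.mem⟩) (hG.mono (subset_univ _))
      (fun w _ => hGT w) (fun w _ => hGc w (mem_univ w)) z hz
    have e1 : Tendsto (fun n : ℕ => ‖S (H n) z‖) 𝓤 (𝓝 0) := by
      have e2 : Tendsto (fun n : ℕ => (4 / ((n : ℝ) + 1)) ^ k) 𝓤 (𝓝 0) := by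
        have e3 : Tendsto (fun n : ℕ => 4 / ((n : ℝ) + 1)) atTop (𝓝 0) := by
          have := (tendsto_one_div_add_atTop_nhds_zero_nat (𝕜 := ℝ)).const_mul 4
          rw [mul_zero] at this
          refine this.congr fun n => ?_
          rw [mul_one_div]
        have e4 := e3.pow k
        rw [zero_pow hk.ne'] at e4
        refine e4.mono_left ?_
        rw [← Nat.cofinite_eq_atTop]
        exact hyperfilter_le_cofinite
      refine squeeze_zero' (Eventually.of_forall fun _ => norm_nonneg _) ?_ e2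
      filter_upwards [hge ‖z‖] with n hn
      exact (hball n z hn).2
    exact norm_eq_zero.1 (tendsto_nhds_unique e0.norm e1)
  have hG2 : ∀ z, ‖fderiv ℝ G z‖ ≤ 2 := by
    intro z
    refine le_of_tendsto (hGd z).norm ?_
    filter_upwards [hge ‖z‖] with n hn
    exact (hball n z hn).1
  have hconst := hf G hG hGT hG2 hzero
  have e1 : fderiv ℝ G 0 = 0 := by
    have : G = fun _ => G 0 := funext hconst
    rw [this]
    simp
  have e2 := (hGd 0).norm
  rw [e1, norm_zero] at e2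
  have e3 : ∀ n, ‖fderiv ℝ (H n) 0‖ = 1 := by
    intro n
    have hz1R : z1 n ∈ ball (z0 n) (R n) := closedBall_subset_ball (by linarith [hR n]) (hz1in n)
    have h0 : z1 n + (((μ n)⁻¹ : ℝ) : ℂ) * 0 = z1 n := by simp
    have := norm_fderiv_aff (Ψ := P n) (a := z1 n) (ρ := (μ n)⁻¹) (z := 0)
      (inv_nonneg.2 (hμpos n).le) (by rw [haff, h0]; exact (hD n).hol.differentiableAt hz1R)
    rw [haff, h0, ← hμeq] at this
    refine this.trans ?_
    exact inv_mul_cancel₀ (hμpos n).ne'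
  simp only [e3] at e2
  exact zero_ne_one (tendsto_nhds_unique e2 tendsto_const_nhds)

/-- the estimate for entire curves -/
theorem GEl.ge {C : ℝ} (hC0 : 0 < C) (h : GEl T k S C) : GEs T k S C := by
  intro P hP hPT z
  have h1 : ∀ R : ℝ, 0 < R → ‖fderiv ℝ P z‖ ≤ C * max (sk k (S P) z) (1 / R) := fun R hR =>
    h P z R hR ⟨hP.mono (subset_univ _), fun w _ => hPT w⟩
  apply le_of_forall_pos_le_add
  intro ε hε
  refine (h1 (C / ε) (by positivity)).trans ?_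
  have h2 : max (sk k (S P) z) (1 / (C / ε)) ≤ sk k (S P) z + ε / C := by
    have := sk_nn k (S P) z
    apply max_le
    · have : 0 < ε / C := by positivity
      linarith
    · rw [one_div_div]
      linarith
  calc C * max (sk k (S P) z) (1 / (C / ε)) ≤ C * (sk k (S P) z + ε / C) :=
        mul_le_mul_of_nonneg_left h2 hC0.le
    _ = _ := by
        field_simp

/-- the gradient estimate in the middle of a large disc -/
theorem GEl.mid {C s0 : ℝ} (hC : GEl T k S C) (hS : SDl T k S) {P : ℂ → Mat N}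
    {ρ R : ℝ} (hd : Ds T 0 ρ P) (h00 : 0 < s0) (h01 : s0 ≤ 1) (h0 : sk k (S P) 0 = s0)
    (hR : 0 ≤ R) (hρ : R + 4 * (R + 1) / s0 < ρ) {z : ℂ} (hz : ‖z‖ ≤ R) :
    ‖fderiv ℝ P z‖ ≤ C * sk k (S P) z := by
  have h1 := hC P z (ρ - ‖z‖) (by
    have : 0 < 4 * (R + 1) / s0 := by positivity
    linarith) (hd.mono Pool.Agent.N154.TT.ball_sub_l)
  have h2 := sk_low hS.kpos (hS.dif hd) h00 h01 h0 hR hρ hz
  have h3 : 1 / (ρ - ‖z‖) ≤ sk k (S P) z := by
    refine le_trans ?_ h2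
    have h4 : 4 * (R + 1) / s0 ≤ ρ - ‖z‖ := by linarith
    have h5 := one_div_le_one_div_of_le (by positivity) h4
    rwa [one_div_div] at h5
  rwa [max_eq_left h3] at h1

/-- the Harnack inequality in the middle of a large disc -/
theorem harnack_midk {ψ : ℂ → Fin m → ℂ} {ρ R s0 : ℝ} (hk : 0 < k)
    (hd : DifferentiableOn ℂ ψ (ball 0 ρ)) (h00 : 0 < s0) (h01 : s0 ≤ 1)
    (h0 : sk k ψ 0 = s0) (hR : 0 ≤ R) (hρ : R + 4 * (R + 1) / s0 < ρ)
    {z w : ℂ} (hz : ‖z‖ ≤ R) (h : 4 * ‖w - z‖ * sk k ψ z ≤ 1) : sk k ψ w ≤ 4 * sk k ψ z := by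
  have h2 := sk_low hk hd h00 h01 h0 hR hρ hz
  have h3 : 0 < sk k ψ z := lt_of_lt_of_le (by positivity) h2
  refine sk_harnack_l hk (hd.mono (Pool.Agent.N154.TT.ball_sub_l (w := z))) h3 le_rfl ?_ h
  have h4 : 4 * (R + 1) / s0 ≤ ρ - ‖z‖ := by linarith
  calc (1 : ℝ) = 4 * (R + 1) / s0 * (s0 / (4 * (R + 1))) := by field_simp
    _ ≤ (ρ - ‖z‖) * sk k ψ z := mul_le_mul h4 h2 (by positivity) (by
        have : 0 < 4 * (R + 1) / s0 := by positivity
        linarith)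

end Pool.Agent.H918.SD
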