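import Pool.Agent.H918.C.Lfv
import Pool.Agent.H918.A.Dom
import Pool.Graph.R_pool_sql_team_seeded_63374d34.N154.DD.Main

/-! The product of the distances dominates the distance to one curve, along discs. -/

set_option autoImplicit false

open Filter Topology Metric Set

namespace Pool.Agent.H918.SD

open Pool.Agent.Y190.OP Pool.Agent.N155

variable {N : ℕ} {T : Set (Mat N)} {c0 : ℝ} {𝒞 : (ℂ → Mat N) → Prop} {r c1 : ℝ}
variable {φ ψ χ : ℂ → Mat N} {ρ ρ' ε : ℝ}

/-- **Local domination** -/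
theorem CD.local_dom_v (h : CD T c0 𝒞 r c1) {H : ℂ → Mat N} (hH : 𝒞 H) (t0 : ℂ) :
    ∃ ρ0 δ C : ℝ, 0 < ρ0 ∧ ρ0 ≤ 1 ∧ 0 < δ ∧ 0 ≤ C ∧ ∀ (U : Set ℂ) (P : ℂ → Mat N), IsOpen U →
      closedBall t0 1 ⊆ U → HolP U P →
      (∀ z ∈ U, P z ∈ T) → ∀ (G : ℂ → ℂ) (B : ℝ), DifferentiableOn ℂ G U →
      (∀ z ∈ closedBall t0 1, ‖P z - H z‖ < δ) →
      (∀ z ∈ closedBall t0 1, DD r 𝒞 (ee r c0 c1) (P z) * ‖G z‖ ≤ B) →
      ∀ z ∈ ball t0 ρ0, ∃ w : ℂ, ‖w‖ ≤ r ∧ ‖P z - H (z + w)‖ ≤ ‖P z - H z‖ ∧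
        ‖P z - H (z + w)‖ * ‖G z‖ ≤ C * B := by
  have hε := h.ee_pos
  have hrp := h.rpos
  have hc1 := h.cpos
  set ψ : ℂ → Mat N := fun w => H (t0 + w) with hψd
  have hψ : 𝒞 ψ := h.cls.shift H hH t0
  have hψ0 : ψ 0 = H t0 := by rw [hψd]; simp only [add_zero]
  obtain ⟨O, q, f, c, C, hO, hMO, hc, hC, hf, hb⟩ := h.pdv_leaf hψ hrp le_rfl (x0 := H t0) (by
    intro β hβ hx
    have h2 := h.inj ψ hψ 0 β (by linarith)
    rw [zero_add, ← hx, hψ0, sub_self, norm_zero] at h2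
    have h4 : ‖β‖ ≤ 0 := by
      by_contra hcon
      push Not at hcon
      have : 0 < c1 * ‖β‖ := by positivity
      linarith
    linarith)
  obtain ⟨e, he, heO⟩ := Metric.isOpen_iff.1 hO _ hMO
  have hdisc := h.bad_disc hH t0
  rw [eventually_nhdsWithin_iff] at hdisc
  obtain ⟨R1, hR1, hR1s⟩ := Metric.eventually_nhds_iff_ball.1 hdisc
  set ρ0 : ℝ := min (min (R1 / 2) (r / 2)) (min 1 (e / 8)) with hρ0
  have hρ00 : 0 < ρ0 := by positivity
  have g1 : ρ0 ≤ R1 / 2 := (min_le_left _ _).trans (min_le_left _ _)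
  have g2 : ρ0 ≤ r / 2 := (min_le_left _ _).trans (min_le_right _ _)
  have g3 : ρ0 ≤ 1 := (min_le_right _ _).trans (min_le_left _ _)
  have g4 : ρ0 ≤ e / 8 := (min_le_right _ _).trans (min_le_right _ _)
  -- the circle
  have hcirc : ∃ c' δ' : ℝ, 0 < c' ∧ 0 < δ' ∧ ∀ t ∈ sphere t0 ρ0, ∀ x, ‖x - H t‖ < δ' →
      c' * dl ψ r x ≤ DD r 𝒞 (ee r c0 c1) x := by
    have key : ∃ c' δ' : ℝ, 0 < c' ∧ 0 < δ' ∧ ∀ t ∈ sphere t0 ρ0, t ∈ sphere t0 ρ0 →
        ∀ x, ‖x - H t‖ < δ' → c' * dl ψ r x ≤ DD r 𝒞 (ee r c0 c1) x := by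
      refine (isCompact_sphere t0 ρ0).induction_on (p := fun A => ∃ c' δ' : ℝ, 0 < c' ∧ 0 < δ' ∧
        ∀ t ∈ A, t ∈ sphere t0 ρ0 → ∀ x, ‖x - H t‖ < δ' →
          c' * dl ψ r x ≤ DD r 𝒞 (ee r c0 c1) x) ?_ ?_ ?_ ?_
      · exact ⟨1, 1, one_pos, one_pos, fun t ht => absurd ht (notMem_empty _)⟩
      · rintro A A' hAA ⟨c', δ', h1, h2, h3⟩
        exact ⟨c', δ', h1, h2, fun t ht => h3 t (hAA ht)⟩
      · rintro A A' ⟨c', δ', h1, h2, h3⟩ ⟨c'', δ'', h4, h5, h6⟩
        refine ⟨min c' c'', min δ' δ'', lt_min h1 h4, lt_min h2 h5, fun t ht hts x hx => ?_⟩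
        have hnn := dl_nonneg ψ r x
        rcases ht with ht | ht
        · exact (mul_le_mul_of_nonneg_right (min_le_left _ _) hnn).trans
            (h3 t ht hts x (hx.trans_le (min_le_left _ _)))
        · exact (mul_le_mul_of_nonneg_right (min_le_right _ _) hnn).trans
            (h6 t ht hts x (hx.trans_le (min_le_right _ _)))
      · intro t ht
        have htn : ‖t - t0‖ = ρ0 := by rwa [mem_sphere, dist_eq_norm] at ht
        have htg : ¬ Bad r 𝒞 H t := by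
          apply hR1s t
          · rw [mem_ball, dist_eq_norm, htn]
            linarith
          · rw [mem_compl_iff, mem_singleton_iff]
            intro h0
            rw [h0, sub_self, norm_zero] at htn
            linarith
        obtain ⟨c', δ', hc', hδ', hgl⟩ := h.good_lower hH htg
        set δ2 : ℝ := min (δ' / 4) (c1 * r / 16) with hδ2
        have hδ20 : 0 < δ2 := by positivity
        have k1 : δ2 ≤ δ' / 4 := min_le_left _ _
        have k2 : δ2 ≤ c1 * r / 16 := min_le_right _ _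
        refine ⟨ball t δ2, mem_nhdsWithin_of_mem_nhds (ball_mem_nhds _ hδ20), c', δ2, hc', hδ20,
          fun t' ht' ht's x hx => ?_⟩
        have hlt := h.cls.lip hH t t'
        rw [mem_ball, dist_eq_norm] at ht'
        have hxt : ‖x - H t‖ < 3 * δ2 := by
          have := norm_add_le (x - H t') (H t' - H t)
          rw [sub_add_sub_cancel] at this
          linarith
        refine le_trans ?_ (hgl x (by linarith))
        apply mul_le_mul_of_nonneg_left _ hc'.le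
        obtain ⟨w, hw, hwx⟩ := dl_spec (h.cls.cont (h.cls.shift H hH t)) hrp.le x
        have k3 : dl (fun w => H (t + w)) r x ≤ ‖x - H (t + 0)‖ :=
          dl_le (by rw [norm_zero]; exact hrp.le) x
        rw [add_zero, hwx] at k3
        have k4 : ‖H (t + w) - H t‖ ≤ 2 * ‖x - H t‖ := by
          have := norm_sub_le (x - H t) (x - H (t + w))
          rw [sub_sub_sub_cancel_left] at this
          linarith
        have k5 := h.inj H hH t w (by linarith)
        have k6 : ‖w‖ ≤ r / 2 := by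
          have k7 : c1 * ‖w‖ ≤ c1 * (r / 2) := by linarith
          exact le_of_mul_le_mul_left k7 hc1
        rw [hwx]
        have k9 : x - H (t + w) = x - ψ (t - t0 + w) := by
          rw [hψd]
          simp only
          congr 2
          ring
        rw [k9]
        refine dl_le ?_ x
        have := norm_add_le (t - t0) w
        linarith
    obtain ⟨c', δ', h1, h2, h3⟩ := key
    exact ⟨c', δ', h1, h2, fun t ht => h3 t ht ht⟩
  obtain ⟨c', δ', hc', hδ', hcc⟩ := hcirc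
  set δ : ℝ := min (min δ' (e / 2)) (c1 * r / 4) with hδ
  have hδ0 : 0 < δ := by positivity
  have d1 : δ ≤ δ' := (min_le_left _ _).trans (min_le_left _ _)
  have d2 : δ ≤ e / 2 := (min_le_left _ _).trans (min_le_right _ _)
  have d3 : δ ≤ c1 * r / 4 := min_le_right _ _
  refine ⟨ρ0, δ, C * (q * (1 / (c * c'))), hρ00, g3, hδ0, by positivity,
    fun U P hU hcb hP hPT G B hG hclose hbd z hz => ?_⟩
  have hin : ∀ t ∈ closedBall t0 ρ0, P t ∈ O := by
    intro t ht
    apply heO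
    have k1 := hclose t (closedBall_subset_closedBall g3 ht)
    have k2 := h.cls.lip hH t0 t
    rw [mem_closedBall, dist_eq_norm] at ht
    rw [mem_ball, dist_eq_norm]
    have := norm_add_le (P t - H t) (H t - H t0)
    rw [sub_add_sub_cancel] at this
    linarith
  have hzc := ball_subset_closedBall hz
  have hzn : ‖z - t0‖ < ρ0 := by rwa [mem_ball, dist_eq_norm] at hz
  have hterm : ∀ p, ‖f p (P z) * G z‖ ≤ 1 / (c * c') * B := by
    intro p
    have hd : ∀ t ∈ closedBall t0 ρ0, DifferentiableAt ℂ (fun t => f p (P t) * G t) t :=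
      fun t ht => (hf p U P t hU hP (hcb (closedBall_subset_closedBall g3 ht)) (hin t ht)).mul
        (hG.differentiableAt (hU.mem_nhds (hcb (closedBall_subset_closedBall g3 ht))))
    have hdc : DiffContOnCl ℂ (fun t => f p (P t) * G t) (ball t0 ρ0) := by
      have h1 : DifferentiableOn ℂ (fun t => f p (P t) * G t) (closedBall t0 ρ0) :=
        fun t ht => (hd t ht).differentiableWithinAt
      exact h1.diffContOnCl_ball (subset_refl _)
    refine Complex.norm_le_of_forall_mem_frontier_norm_le isBounded_ball hdc ?_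
      (subset_closure hz)
    intro t ht
    rw [frontier_ball t0 hρ00.ne'] at ht
    have htc := sphere_subset_closedBall ht
    have h7 := (hb _ (hin t htc) (h.cls.sub (hPT t (hcb (closedBall_subset_closedBall g3 htc))))).1
    have h8 := hbd t (closedBall_subset_closedBall g3 htc)
    have h9 := Finset.single_le_sum (f := fun p => ‖f p (P t)‖)
      (fun _ _ => norm_nonneg _) (Finset.mem_univ p)
    have h10 := hcc t ht (P t) ((hclose t (closedBall_subset_closedBall g3 htc)).trans_le d1)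
    rw [norm_mul, one_div, inv_mul_eq_div, le_div_iff₀ (by positivity)]
    calc ‖f p (P t)‖ * ‖G t‖ * (c * c') = c' * (c * ‖f p (P t)‖) * ‖G t‖ := by ring
      _ ≤ c' * dl ψ r (P t) * ‖G t‖ := by
          apply mul_le_mul_of_nonneg_right _ (norm_nonneg _)
          exact mul_le_mul_of_nonneg_left ((mul_le_mul_of_nonneg_left h9 hc.le).trans h7) hc'.le
      _ ≤ DD r 𝒞 (ee r c0 c1) (P t) * ‖G t‖ := mul_le_mul_of_nonneg_right h10 (norm_nonneg _)
      _ ≤ B := h8
  have hmain : dl ψ r (P z) * ‖G z‖ ≤ C * (q * (1 / (c * c'))) * B := by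
    have h7 := (hb _ (hin z hzc) (h.cls.sub (hPT z (hcb (closedBall_subset_closedBall g3 hzc))))).2
    calc dl ψ r (P z) * ‖G z‖ ≤ C * (∑ p, ‖f p (P z)‖) * ‖G z‖ :=
          mul_le_mul_of_nonneg_right h7 (norm_nonneg _)
      _ = C * ∑ p, ‖f p (P z) * G z‖ := by
          rw [mul_assoc, Finset.sum_mul]
          simp only [norm_mul]
      _ ≤ C * ∑ _p : Fin q, 1 / (c * c') * B := by
          apply mul_le_mul_of_nonneg_left _ hC.le
          exact Finset.sum_le_sum fun p _ => hterm p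
      _ = _ := by
          rw [Finset.sum_const, Finset.card_univ, Fintype.card_fin, nsmul_eq_mul]
          ring
  obtain ⟨w', hw', hwd⟩ := dl_spec (h.cls.cont hψ) hrp.le (P z)
  rw [hwd] at hmain
  have k1 : ‖P z - ψ w'‖ ≤ ‖P z - H z‖ := by
    rw [← hwd]
    have : H z = ψ (z - t0) := by
      rw [hψd]
      simp only [add_sub_cancel]
    rw [this]
    exact dl_le (by linarith) _
  have k2 := hclose z (closedBall_subset_closedBall g3 hzc)
  have e1 : z + (t0 + w' - z) = t0 + w' := by ring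
  have k3 : ‖ψ w' - H z‖ ≤ 2 * δ := by
    have := norm_sub_le (P z - H z) (P z - ψ w')
    rw [sub_sub_sub_cancel_left] at this
    linarith
  have k4 := h.inj H hH z (t0 + w' - z) (by
    have e2 : t0 + w' - z = w' - (z - t0) := by ring
    rw [e2]
    have := norm_sub_le w' (z - t0)
    linarith)
  rw [e1] at k4
  refine ⟨t0 + w' - z, ?_, by rw [e1]; exact k1, ?_⟩
  · have k5 : c1 * ‖t0 + w' - z‖ ≤ c1 * r := by
      have : ‖H (t0 + w') - H z‖ ≤ 2 * δ := k3
      linarith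
    exact le_of_mul_le_mul_left k5 hc1
  · rw [e1]
    exact hmain

/-- **Uniform domination** -/
theorem CD.unif_v (h : CD T c0 𝒞 r c1) {H : ℂ → Mat N} (hH : 𝒞 H) {p q : ℂ}
    (hind : LinearIndependent ℝ ![p, q]) (hp : ∀ z, H (z + p) = H z) (hq : ∀ z, H (z + q) = H z) :
    ∃ δ C : ℝ, 0 < δ ∧ 0 ≤ C ∧ ∀ (U : Set ℂ) (P : ℂ → Mat N), IsOpen U → HolP U P →
      (∀ z ∈ U, P z ∈ T) → ∀ (G : ℂ → ℂ) (B : ℝ), DifferentiableOn ℂ G U → ∀ t : ℂ,
      closedBall t 2 ⊆ U → (∀ z ∈ closedBall t 2, ‖P z - H z‖ < δ) →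
      (∀ z ∈ closedBall t 2, DD r 𝒞 (ee r c0 c1) (P z) * ‖G z‖ ≤ B) →
      ∃ w : ℂ, ‖w‖ ≤ r ∧ ‖P t - H (t + w)‖ ≤ ‖P t - H t‖ ∧
        ‖P t - H (t + w)‖ * ‖G t‖ ≤ C * B := by
  have hε := h.ee_pos
  have key : ∃ δ C : ℝ, 0 < δ ∧ 0 ≤ C ∧ ∀ t ∈ closedBall (0 : ℂ) (‖p‖ + ‖q‖),
      ∀ (U : Set ℂ) (P : ℂ → Mat N), IsOpen U → HolP U P →
      (∀ z ∈ U, P z ∈ T) → ∀ (G : ℂ → ℂ) (B : ℝ), DifferentiableOn ℂ G U →
      closedBall t 2 ⊆ U → (∀ z ∈ closedBall t 2, ‖P z - H z‖ < δ) →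
      (∀ z ∈ closedBall t 2, DD r 𝒞 (ee r c0 c1) (P z) * ‖G z‖ ≤ B) →
      ∃ w : ℂ, ‖w‖ ≤ r ∧ ‖P t - H (t + w)‖ ≤ ‖P t - H t‖ ∧
        ‖P t - H (t + w)‖ * ‖G t‖ ≤ C * B := by
    refine (isCompact_closedBall (0 : ℂ) (‖p‖ + ‖q‖)).induction_on (p := fun A =>
      ∃ δ C : ℝ, 0 < δ ∧ 0 ≤ C ∧ ∀ t ∈ A,
      ∀ (U : Set ℂ) (P : ℂ → Mat N), IsOpen U → HolP U P →
      (∀ z ∈ U, P z ∈ T) → ∀ (G : ℂ → ℂ) (B : ℝ), DifferentiableOn ℂ G U →
      closedBall t 2 ⊆ U → (∀ z ∈ closedBall t 2, ‖P z - H z‖ < δ) →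
      (∀ z ∈ closedBall t 2, DD r 𝒞 (ee r c0 c1) (P z) * ‖G z‖ ≤ B) →
      ∃ w : ℂ, ‖w‖ ≤ r ∧ ‖P t - H (t + w)‖ ≤ ‖P t - H t‖ ∧
        ‖P t - H (t + w)‖ * ‖G t‖ ≤ C * B) ?_ ?_ ?_ ?_
    · exact ⟨1, 0, one_pos, le_rfl, fun t ht => absurd ht (notMem_empty _)⟩
    · rintro A A' hAA ⟨δ, C, h1, h2, h3⟩
      exact ⟨δ, C, h1, h2, fun t ht => h3 t (hAA ht)⟩
    · rintro A A' ⟨δ, C, h1, h2, h3⟩ ⟨δ', C', h4, h5, h6⟩
      refine ⟨min δ δ', max C C', lt_min h1 h4, le_max_of_le_left h2,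
        fun t ht U P hU hP hPT G B hG hcb hcl hbd => ?_⟩
      have hB : 0 ≤ B := by
        refine le_trans ?_ (hbd t (mem_closedBall_self (by norm_num)))
        exact mul_nonneg (DD_nonneg hε _) (norm_nonneg _)
      rcases ht with ht | ht
      · obtain ⟨w, k1, k0, k2⟩ := h3 t ht U P hU hP hPT G B hG hcb
          (fun z hz => (hcl z hz).trans_le (min_le_left _ _)) hbd
        exact ⟨w, k1, k0, k2.trans (mul_le_mul_of_nonneg_right (le_max_left _ _) hB)⟩
      · obtain ⟨w, k1, k0, k2⟩ := h6 t ht U P hU hP hPT G B hG hcb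
          (fun z hz => (hcl z hz).trans_le (min_le_right _ _)) hbd
        exact ⟨w, k1, k0, k2.trans (mul_le_mul_of_nonneg_right (le_max_right _ _) hB)⟩
    · intro t0 _
      obtain ⟨ρ0, δ, C, hρ0, hρ1, hδ, hC, hloc⟩ := h.local_dom_v hH t0
      refine ⟨ball t0 ρ0, mem_nhdsWithin_of_mem_nhds (ball_mem_nhds _ hρ0), δ, C, hδ, hC,
        fun t ht U P hU hP hPT G B hG hcb hcl hbd => ?_⟩
      have hsub : closedBall t0 1 ⊆ closedBall t 2 := by
        intro z hz
        rw [mem_closedBall, dist_eq_norm] at hz ⊢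
        rw [mem_ball, dist_eq_norm] at ht
        have := norm_sub_le (z - t0) (t - t0)
        rw [sub_sub_sub_cancel_right] at this
        linarith
      exact hloc U P hU (hsub.trans hcb) hP hPT G B hG (fun z hz => hcl z (hsub hz)) (fun z hz => hbd z (hsub hz)) t ht
  obtain ⟨δ, C, h1, h2, h3⟩ := key
  refine ⟨δ, C, h1, h2, fun U P hU hP hPT G B hG t hcb hcl hbd => ?_⟩
  obtain ⟨m, n, hmn⟩ := exists_shift hind t
  set l : ℂ := m * p + n * q with hl
  have hper : ∀ z, H (z + l) = H z := per_int hp hq m n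
  have hsub : ∀ z ∈ closedBall (t + l) 2, z - l ∈ closedBall t 2 := by
    intro z hz
    rw [mem_closedBall, dist_eq_norm] at hz ⊢
    have : z - l - t = z - (t + l) := by ring
    rwa [this]
  have hperm : ∀ z, H (z - l) = H z := by
    intro z
    rw [← hper (z - l), sub_add_cancel]
  have hcont : Continuous fun z : ℂ => z - l := by fun_prop
  obtain ⟨w, hw, k', k⟩ := h3 (t + l) (mem_closedBall_zero_iff.2 hmn)
    ((fun z : ℂ => z - l) ⁻¹' U) (fun z => P (z - l)) (hU.preimage hcont)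
    (Pool.Agent.N154.GG.holP_comp_l hP (f := fun z : ℂ => z - l) (by fun_prop)
      (hU.preimage hcont) fun z hz => hz)
    (fun z hz => hPT _ hz) (fun z => G (z - l)) B
    (hG.comp (f := fun z : ℂ => z - l) (by fun_prop) fun z hz => hz)
    (fun z hz => hcb (hsub z hz)) (fun z hz => by
      have := hcl (z - l) (hsub z hz)
      rwa [hperm] at this) (fun z hz => hbd (z - l) (hsub z hz))
  simp only [add_sub_cancel_right] at k k'
  have e1 : t + l + w = t + w + l := by ring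
  rw [e1, hper] at k k'
  rw [hper] at k'
  exact ⟨w, hw, k', k⟩

end Pool.Agent.H918.SD
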