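import Pool.Agent.H918.C.Rgv

/-! The normal component of a deformation by discs vanishes if the 2-forms are positive. (After the
file `N155/B/Gw.lean` of an earlier team.) -/

set_option autoImplicit false

open Filter Topology Metric Set MvPolynomial

namespace Pool.Agent.H918.SD

open Pool.Agent.Y190.OP Pool.Agent.N155 Pool.Agent.N155.BB

variable {N : ℕ}

variable {T Z : Set (Mat N)} {𝓤 : Ultrafilter ℕ} {χ : ℂ → Mat N}
  {P Q : ℕ → ℂ → Mat N} {s wt : ℕ → ℂ → ℂ} {B C0 : ℝ} {κ : Type}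
  {η : κ → (Fin N → ℂ) → (Fin N → ℂ) → (Fin N → ℂ) → ℂ}

theorem RGd.ev_diag (h : RGd T 𝓤 χ P Q s wt B C0) (i : Fin N) {t : ℂ}
    (hi : χ t i i ≠ 0) : (∀ᶠ m in (𝓤 : Filter ℕ), P m t i i ≠ 0 ∧ Q m (t + s m t) i i ≠ 0) ∧
      ∀ᶠ s in 𝓝 t, χ s i i ≠ 0 := by
  have hc := (continuous_apply_apply (ρ := fun (_ : Fin N) (_ : Fin N) => ℂ) i i).continuousAt
    (x := χ t)
  exact ⟨((hc.tendsto.comp (h.tP t)).eventually_ne hi).and
    ((hc.tendsto.comp (h.tQ t)).eventually_ne hi),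
    (hc.comp (h.hχ.continuousAt (mem_univ t))).eventually_ne hi⟩

theorem RGd.change (h : RGd T 𝓤 χ P Q s wt B C0) (hTP : T ⊆ PM)
    {i i' : Fin N} {t : ℂ} (hi : χ t i i ≠ 0) (hi' : χ t i' i' ≠ 0)
    {f' : (Fin N → ℂ) →L[ℂ] Fin N → ℂ} (hf' : HasStrictFDerivAt (tr i') f' (chart i (χ t))) :
    Vv 𝓤 P Q s wt i' t = f' (Vv 𝓤 P Q s wt i t) ∧
      deriv (fun s => chart i' (χ s)) t = f' (deriv (fun s => chart i (χ s)) t) := by
  have hM := hTP (h.mχ t)
  have hx := chart_i'_ne hM hi hi'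
  -- the limit vector
  have e1 : Vv 𝓤 P Q s wt i' t = f' (Vv 𝓤 P Q s wt i t) := by
    apply tendsto_nhds_unique (h.Vten i' hi')
    have hp : Tendsto (fun m => chart i (P m t)) 𝓤 (𝓝 (chart i (χ t))) :=
      (continuousAt_chart hi).tendsto.comp (h.tP t)
    have hq : Tendsto (fun m => chart i (Q m (t + s m t))) 𝓤 (𝓝 (chart i (χ t))) :=
      (continuousAt_chart hi).tendsto.comp (h.tQ t)
    refine (strict_lim hf' hp hq (h.Vten i hi)).congr' ?_
    filter_upwards [(h.ev_diag i hi).1, (h.ev_diag i' hi').1, h.mPt t] with m hm hm' hmT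
    rw [chart_tr (hTP hmT) hm.1 hm'.1, chart_tr (hTP (h.mQ m _)) hm.2 hm'.2]
  have e2 : deriv (fun s => chart i' (χ s)) t = f' (deriv (fun s => chart i (χ s)) t) := by
    have h1 := (an_chart h.hχ i hi).differentiableAt.hasDerivAt
    have h2 := hf'.hasFDerivAt.comp_hasDerivAt t h1
    have h3 : (fun s => chart i' (χ s)) =ᶠ[𝓝 t] tr i' ∘ fun s => chart i (χ s) := by
      filter_upwards [(h.ev_diag i hi).2, (h.ev_diag i' hi').2] with s hs hs'
      exact chart_tr (hTP (h.mχ s)) hs hs'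
    rw [h3.deriv_eq, h2.deriv]
  exact ⟨e1, e2⟩

theorem RGd.Tf_indep (hG : GW T Z η) (h : RGd T 𝓤 χ P Q s wt B C0) (hTP : T ⊆ PM)
    (q : κ) {i i' : Fin N} (l : Fin N) {t : ℂ} (hi : χ t i i ≠ 0) (hi' : χ t i' i' ≠ 0) :
    Tf η 𝓤 χ P Q s wt q i' l t = Tf η 𝓤 χ P Q s wt q i l t := by
  have hM := hTP (h.mχ t)
  have hx := chart_i'_ne hM hi hi'
  obtain ⟨f', hf', hfv⟩ := tr_strict hx
  obtain ⟨e1, e2⟩ := h.change hTP hi hi' hf'
  unfold Tf
  rw [e1, e2, hfv, hfv, chart_tr hM hi hi']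
  unfold tr
  have h4 := hG.homog _ (h.mχ _) i hi q (deriv (fun s => chart i (χ s)) t) (Vv 𝓤 P Q s wt i t)
    (chart i (χ t) i')⁻¹ (-(deriv (fun s => chart i (χ s)) t i' / chart i (χ t) i'))
    (-(Vv 𝓤 P Q s wt i t i' / chart i (χ t) i')) 0 (inv_ne_zero hx)
  rw [zero_smul, add_zero] at h4
  rw [h4, Pi.smul_apply, smul_eq_mul]
  field_simp

/-- the local form of the basic functions -/
theorem RGd.loc (hG : GW T Z η) (h : RGd T 𝓤 χ P Q s wt B C0) (hTP : T ⊆ PM) {M0 : Mat N}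
    (hM0 : M0 ∈ T) :
    ∃ (O : Set (Mat N)) (i : Fin N), IsOpen O ∧ M0 ∈ O ∧ (∀ M ∈ O, M i i ≠ 0) ∧
      (∀ q, ∃ C : ℝ, ∀ l t, χ t ∈ O → AnalyticAt ℂ (Tf η 𝓤 χ P Q s wt q i l) t ∧
        ‖Tf η 𝓤 χ P Q s wt q i l t‖ ≤ C) ∧
      ∀ t, χ t ∈ O → χ t ∉ Z → (∀ q, Tf η 𝓤 χ P Q s wt q i i t = 0) →
        ∃ γ : ℂ, Vv 𝓤 P Q s wt i t = γ • deriv (fun s => chart i (χ s)) t := by
  obtain ⟨i, d, J, O, U, Ψ, hO, hMO, hU, hΨ, hF, hF0, hloc⟩ := hG.loc M0 hM0
  obtain ⟨hi0, hU0, -⟩ := hloc M0 hMO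
  obtain ⟨L, O1, hL, hO1, hMO1, -, hlip, hfd⟩ := lip_chart hi0
  set F : κ → (Fin d → ℂ) × (Fin d → ℂ) × (Fin d → ℂ) → ℂ := fun q p =>
    η q (Ψ p.1) (fderiv ℂ Ψ p.1 p.2.1) (fderiv ℂ Ψ p.1 p.2.2) with hFdef
  set ξ : Mat N → Fin d → ℂ := fun M k => chart i M (J k) with hξ
  have hcξ : ContinuousAt ξ M0 := by
    rw [continuousAt_pi]
    intro k
    exact (continuous_apply (J k)).continuousAt.comp (continuousAt_chart hi0)
  obtain ⟨ε, hε, hεU⟩ := Metric.isOpen_iff.1 hU _ hU0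
  have hev1 : ∀ᶠ M in 𝓝 M0, ξ M ∈ closedBall (ξ M0) (ε / 2) :=
    hcξ.eventually (closedBall_mem_nhds _ (by positivity))
  have hev2 : ∀ᶠ M in 𝓝 M0, ‖chart i M‖ < ‖chart i M0‖ + 1 :=
    (continuousAt_chart hi0).norm.eventually_lt_const (lt_add_one _)
  obtain ⟨O2, hO2s, hO2, hMO2⟩ := _root_.mem_nhds_iff.1 ((hev1.and hev2).and
    (inter_mem (hO.mem_nhds hMO) (hO1.mem_nhds hMO1)))
  have hOi : ∀ M ∈ O2, M i i ≠ 0 := fun M hM => (hloc M (hO2s hM).2.1).1
  -- the facts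
  have facts : ∀ t, χ t ∈ O2 →
      deriv (fun s => chart i (χ s)) t = fderiv ℂ Ψ (ξ (χ t))
        (fun k => deriv (fun s => chart i (χ s)) t (J k)) ∧
      Vv 𝓤 P Q s wt i t = fderiv ℂ Ψ (ξ (χ t)) (fun k => Vv 𝓤 P Q s wt i t (J k)) ∧
      chart i (χ t) = Ψ (ξ (χ t)) := by
    intro t ht
    have hit := hOi _ ht
    have hOt := (hO2s ht).2.1
    obtain ⟨-, hUt, ht3⟩ := hloc _ hOt
    have hΨt := ht3 (h.mχ _)
    have hev : ∀ᶠ s in 𝓝 t, χ s ∈ O :=
      (h.hχ.continuousAt (mem_univ t)).eventually (hO.mem_nhds hOt)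
    have hd := (an_chart h.hχ i hit).differentiableAt.hasDerivAt
    have hdl : ∀ l, HasDerivAt (fun s => chart i (χ s) l)
        (deriv (fun s => chart i (χ s)) t l) t := fun l => (hasDerivAt_pi.1 hd) l
    have hdξ : HasDerivAt (fun s => ξ (χ s))
        (fun k => deriv (fun s => chart i (χ s)) t (J k)) t :=
      hasDerivAt_pi.2 fun k => hdl (J k)
    have f1 : deriv (fun s => chart i (χ s)) t = fderiv ℂ Ψ (ξ (χ t))
        (fun k => deriv (fun s => chart i (χ s)) t (J k)) := by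
      have h1 := (hΨ _ hUt).differentiableAt.hasFDerivAt.comp_hasDerivAt t hdξ
      have h2 : (fun s => chart i (χ s)) =ᶠ[𝓝 t] Ψ ∘ fun s => ξ (χ s) := by
        filter_upwards [hev] with s hs
        exact (hloc _ hs).2.2 (h.mχ s)
      rw [← h1.deriv, ← h2.deriv_eq]
    have hξc : ContinuousAt ξ (χ t) := by
      rw [continuousAt_pi]
      intro k
      exact (continuous_apply (J k)).continuousAt.comp (continuousAt_chart hit)
    have hp := hξc.tendsto.comp (h.tP t)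
    have hq := hξc.tendsto.comp (h.tQ t)
    have hv : Tendsto (fun m => wt m t • (ξ (Q m (t + s m t)) - ξ (P m t))) 𝓤
        (𝓝 (fun k => Vv 𝓤 P Q s wt i t (J k))) := by
      have h1 := tendsto_pi_nhds.1 (h.Vten i hit)
      exact tendsto_pi_nhds.2 fun k => h1 (J k)
    have hPO := (h.tP t).eventually (hO.mem_nhds hOt)
    have hQO := (h.tQ t).eventually (hO.mem_nhds hOt)
    have f2 : Vv 𝓤 P Q s wt i t =
        fderiv ℂ Ψ (ξ (χ t)) (fun k => Vv 𝓤 P Q s wt i t (J k)) := by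
      apply tendsto_nhds_unique (h.Vten i hit)
      refine (strict_lim (hΨ _ hUt).hasStrictFDerivAt hp hq hv).congr' ?_
      filter_upwards [hPO, hQO, h.mPt t] with m e1 e2 hmT
      change wt m t • (Ψ (ξ (Q m (t + s m t))) - Ψ (ξ (P m t))) = _
      rw [← (hloc _ e1).2.2 hmT, ← (hloc _ e2).2.2 (h.mQ m _)]
    exact ⟨f1, f2, hΨt⟩
  have hFq : ∀ t, χ t ∈ O2 → ∀ q, Tf η 𝓤 χ P Q s wt q i i t = F q (ξ (χ t),
        (fun k => deriv (fun s => chart i (χ s)) t (J k)), fun k => Vv 𝓤 P Q s wt i t (J k)) := by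
    intro t ht q
    obtain ⟨f1, f2, f3⟩ := facts t ht
    unfold Tf
    rw [PM.chart_self (hOi _ ht), mul_one, hFdef]
    simp only
    rw [← f3, ← f1, ← f2]
  have hTl : ∀ q l t, Tf η 𝓤 χ P Q s wt q i l t =
      Tf η 𝓤 χ P Q s wt q i i t * chart i (χ t) l ∨ χ t i i = 0 := by
    intro q l t
    by_cases hit : χ t i i = 0
    · exact Or.inr hit
    · left
      unfold Tf
      rw [PM.chart_self hit, mul_one]
  refine ⟨O2, i, hO2, hMO2, hOi, fun q => ?_, fun t ht htZ h0 => ?_⟩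
  · have hcomp : IsCompact (closedBall (ξ M0) (ε / 2) ×ˢ (closedBall (0 : Fin d → ℂ) (L * B) ×ˢ
        closedBall (0 : Fin d → ℂ) (L * C0))) :=
      (isCompact_closedBall _ _).prod ((isCompact_closedBall _ _).prod (isCompact_closedBall _ _))
    have hsubU : closedBall (ξ M0) (ε / 2) ⊆ U :=
      (closedBall_subset_ball (by linarith)).trans hεU
    obtain ⟨CF, hCF⟩ := hcomp.exists_bound_of_continuousOn (f := F q) (fun p hp =>
      ((hF q) p ⟨hsubU hp.1, mem_univ _⟩).continuousAt.continuousWithinAt)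
    refine ⟨CF * (‖chart i M0‖ + 1), fun l t ht => ?_⟩
    have hit := hOi _ ht
    obtain ⟨-, hUt, -⟩ := hloc _ (hO2s ht).2.1
    have hgΦ : ContinuousAt χ t := h.hχ.continuousAt (mem_univ t)
    have hev : ∀ᶠ t' in 𝓝 t, χ t' ∈ O2 := hgΦ.eventually (hO2.mem_nhds ht)
    have hxa : AnalyticAt ℂ (fun t => chart i (χ t)) t := an_chart h.hχ i hit
    have hxl : ∀ l, AnalyticAt ℂ (fun t => chart i (χ t) l) t := fun l =>
      (analyticAt_pi_iff.1 hxa) l
    have hτ : AnalyticAt ℂ (fun t => deriv (fun s => chart i (χ s)) t) t := hxa.deriv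
    have hτl : AnalyticAt ℂ (fun t k => deriv (fun s => chart i (χ s)) t (J k)) t :=
      analyticAt_pi_iff.2 fun k => (analyticAt_pi_iff.1 hτ) (J k)
    have hξa : AnalyticAt ℂ (fun t => ξ (χ t)) t := analyticAt_pi_iff.2 fun k => hxl (J k)
    constructor
    · obtain ⟨V, a, g, Nn, β, hV, htV, hrep⟩ := h.rep hit
      have hNl : AnalyticAt ℂ (fun t k => Nn t (J k)) t :=
        analyticAt_pi_iff.2 fun k => (analyticAt_pi_iff.1 (hrep t htV).2.1) (J k)
      have h1 : AnalyticAt ℂ (fun t => F q (ξ (χ t),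
          (fun k => deriv (fun s => chart i (χ s)) t (J k)), fun k => Nn t (J k))) t :=
        AnalyticAt.fun_comp (g := F q) (hF q _ ⟨hUt, mem_univ _⟩)
          (hξa.prod (hτl.prod hNl))
      refine (h1.fun_mul (hxl l)).congr ?_
      filter_upwards [hev, hV.mem_nhds htV] with t' ht' htV'
      obtain ⟨f1, f2, f3⟩ := facts t' ht'
      have e1 := (hrep t' htV').2.2.2.2.2.2
      have e2 : Nn t' = fderiv ℂ Ψ (ξ (χ t')) (fun k => Nn t' (J k)) := by
        have e3 : Nn t' = Vv 𝓤 P Q s wt i t' - β t' • deriv (fun w => chart i (χ w)) t' := by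
          rw [e1, add_sub_cancel_right]
        have e4 : (fun k => Nn t' (J k)) = (fun k => Vv 𝓤 P Q s wt i t' (J k)) -
            β t' • (fun k => deriv (fun w => chart i (χ w)) t' (J k)) := by
          rw [e3]
          rfl
        rw [e4, map_sub, map_smul, ← f2, ← f1]
        exact e3
      have e5 := hG.homog _ (h.mχ t') i (hOi _ ht') q (deriv (fun s => chart i (χ s)) t') (Nn t')
        1 0 0 (β t') one_ne_zero
      rw [inv_one, one_mul, one_smul, one_smul, one_smul, zero_smul, add_zero,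
        add_zero, ← e1] at e5
      rw [(hTl q l t').resolve_right (hOi _ ht')]
      congr 1
      unfold Tf
      rw [PM.chart_self (hOi _ ht'), mul_one, e5, hFdef]
      simp only
      rw [← f3, ← f1, ← e2]
    · rw [(hTl q l t).resolve_right hit, hFq t ht q, norm_mul]
      have e1 := deriv_chart_le h.hχ i hit (hfd _ (hO2s ht).2.2) (h.bχ t)
      have e2 := (h.Vt i hL hO1 (hO2s ht).2.2 hlip).2
      have e5 : ‖chart i (χ t) l‖ ≤ ‖chart i M0‖ + 1 :=
        (norm_le_pi_norm _ l).trans (hO2s ht).1.2.le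
      have hpi : ∀ {v : Fin N → ℂ} {c : ℝ}, ‖v‖ ≤ c →
          (fun k => v (J k)) ∈ closedBall (0 : Fin d → ℂ) c := by
        intro v c hv
        rw [mem_closedBall_zero_iff, pi_norm_le_iff_of_nonneg ((norm_nonneg _).trans hv)]
        intro k
        exact (norm_le_pi_norm v (J k)).trans hv
      have e6 := hCF (ξ (χ t), (fun k => deriv (fun s => chart i (χ s)) t (J k)),
        fun k => Vv 𝓤 P Q s wt i t (J k)) ⟨(hO2s ht).1.1, hpi e1, hpi e2⟩
      exact mul_le_mul e6 e5 (norm_nonneg _) ((norm_nonneg _).trans e6)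
  · obtain ⟨f1, f2, f3⟩ := facts t ht
    obtain ⟨-, hUt, -⟩ := hloc _ (hO2s ht).2.1
    by_cases hli : LinearIndependent ℂ ![(fun k => deriv (fun s => chart i (χ s)) t (J k)),
      fun k => Vv 𝓤 P Q s wt i t (J k)]
    · obtain ⟨q, hq⟩ := hF0 _ hUt (by
        rw [← f3, PM.Phi_chart (hTP (h.mχ t)) (hOi _ ht)]
        exact htZ) _ _ hli
      have h1 := h0 q
      rw [hFq t ht q] at h1
      exact absurd h1 hq
    · rw [LinearIndependent.pair_iff] at hli
      push Not at hli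
      obtain ⟨a, b, hab, hab2⟩ := hli
      have hx0 : deriv (fun s => chart i (χ s)) t ≠ 0 :=
        deriv_chart_ne h.hχ i (hOi _ ht) (h.im t)
      have hb : b ≠ 0 := by
        rintro rfl
        rw [zero_smul, add_zero] at hab
        by_cases ha : a = 0
        · exact hab2 ha rfl
        · have h3 := (smul_eq_zero.1 hab).resolve_left ha
          apply hx0
          rw [f1, h3, map_zero]
      refine ⟨-(a / b), ?_⟩
      have h3 : (fun k => Vv 𝓤 P Q s wt i t (J k)) =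
          (-(a / b)) • (fun k => deriv (fun s => chart i (χ s)) t (J k)) := by
        funext k
        have h4 := congrFun hab k
        simp only [Pi.add_apply, Pi.smul_apply, smul_eq_mul, Pi.zero_apply] at h4 ⊢
        field_simp
        linear_combination h4
      rw [f2, h3, map_smul, ← f1]

theorem RGd.par_iff (h : RGd T 𝓤 χ P Q s wt B C0) (hTP : T ⊆ PM) {i : Fin N} {t : ℂ}
    (hi : χ t i i ≠ 0) : Par 𝓤 χ P Q s wt t ↔
      ∃ γ : ℂ, Vv 𝓤 P Q s wt i t = γ • deriv (fun s => chart i (χ s)) t := by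
  refine ⟨fun h1 => ?_, fun h1 => ⟨i, hi, h1⟩⟩
  obtain ⟨j, hj, γ, hγ⟩ := h1
  obtain ⟨f', hf', -⟩ := tr_strict (chart_i'_ne (hTP (h.mχ t)) hj hi)
  obtain ⟨e1, e2⟩ := h.change hTP hj hi hf'
  exact ⟨γ, by rw [e1, e2, hγ, map_smul]⟩

/-- the set of the points at which the deformation is tangent is open and closed, up to isolated
points -/
theorem RGd.par_dich (h : RGd T 𝓤 χ P Q s wt B C0) (hTP : T ⊆ PM) (t0 : ℂ) :
    (∀ᶠ t in 𝓝 t0, Par 𝓤 χ P Q s wt t) ∨ ∀ᶠ t in 𝓝[≠] t0, ¬ Par 𝓤 χ P Q s wt t := by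
  obtain ⟨i, hi⟩ := PM.exists_diag (hTP (h.mχ t0))
  obtain ⟨V, a, g, Nn, β, hV, htV, hrep⟩ := h.rep hi
  have hd0 := (hrep t0 htV).2.2.2.1 rfl
  have hda : ContinuousAt (fun t => deriv (fun w => chart i (χ w)) t a) t0 :=
    ((analyticAt_pi_iff.1 (an_chart h.hχ i hi).deriv) a).continuousAt
  have hiff : ∀ᶠ t in 𝓝 t0, (Par 𝓤 χ P Q s wt t ↔ Nn t = 0) := by
    filter_upwards [hV.mem_nhds htV, hda.eventually_ne hd0] with t ht hta
    obtain ⟨r0, -, r1, -, -, -, r5⟩ := hrep t ht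
    rw [h.par_iff hTP r0]
    constructor
    · rintro ⟨γ, hγ⟩
      have e1 : Nn t = (γ - β t) • deriv (fun w => chart i (χ w)) t := by
        rw [sub_smul, ← hγ, r5, add_sub_cancel_right]
      have e2 := congrFun e1 a
      rw [r1, Pi.smul_apply, smul_eq_mul] at e2
      have e3 : γ - β t = 0 := by
        rcases mul_eq_zero.1 e2.symm with h | h
        · exact h
        · exact absurd h hta
      rw [e1, e3, zero_smul]
    · intro h0
      exact ⟨β t, by rw [r5, h0, zero_add]⟩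
  rcases (hrep t0 htV).2.1.eventually_eq_zero_or_eventually_ne_zero with h1 | h1
  · left
    filter_upwards [hiff, h1] with t e1 e2
    exact e1.2 e2
  · right
    filter_upwards [hiff.filter_mono nhdsWithin_le_nhds, h1] with t e1 e2 e3
    exact e2 (e1.1 e3)

/-- **The normal component vanishes.** -/
theorem RGd.final (hTc : IsCompact T) (hTP : T ⊆ PM) (hG : GW T Z η)
    (h : RGd T 𝓤 χ P Q s wt B C0) (hZ : ∃ z, χ z ∉ Z) : ∃ t : ℕ → ℂ, Tendsto t 𝓤 (𝓝 0) ∧
      Tendsto (fun m => ‖Q m (t m) - P m 0‖ * ‖wt m 0‖) 𝓤 (𝓝 0) := by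
  choose idx hidx using fun t => PM.exists_diag (hTP (h.mχ t))
  set TT : κ → Fin N → ℂ → ℂ := fun q l t => Tf η 𝓤 χ P Q s wt q (idx t) l t with hTT
  have hTTi : ∀ q i l t, χ t i i ≠ 0 → TT q l t = Tf η 𝓤 χ P Q s wt q i l t :=
    fun q i l t hi => h.Tf_indep hG hTP q l hi (hidx t)
  have hgΦ : Continuous (fun t => χ t) := h.cont
  have hana : ∀ q l, Differentiable ℂ (TT q l) := by
    intro q l t
    obtain ⟨O, i, hO, hMO, hOi, h1, -⟩ := h.loc hG hTP (h.mχ t)
    obtain ⟨C, h1⟩ := h1 q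
    refine ((h1 l t hMO).1.congr ?_).differentiableAt
    filter_upwards [hgΦ.continuousAt.eventually (hO.mem_nhds hMO)] with t' ht'
    exact (hTTi q i l t' (hOi _ ht')).symm
  have hbd : ∀ q, ∃ C : ℝ, ∀ t l, χ t ∈ T → ‖TT q l t‖ ≤ C := by
    intro q
    refine hTc.induction_on (p := fun s => ∃ C : ℝ, ∀ t l, χ t ∈ s → ‖TT q l t‖ ≤ C)
      ?_ ?_ ?_ ?_
    · exact ⟨0, fun t l ht => absurd ht (notMem_empty _)⟩
    · rintro s s' hss ⟨C, hC⟩
      exact ⟨C, fun t l ht => hC t l (hss ht)⟩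
    · rintro s s' ⟨C, hC⟩ ⟨C', hC'⟩
      refine ⟨max C C', fun t l ht => ?_⟩
      rcases ht with ht | ht
      · exact (hC t l ht).trans (le_max_left _ _)
      · exact (hC' t l ht).trans (le_max_right _ _)
    · intro M hM
      obtain ⟨O, i, hO, hMO, hOi, h1, -⟩ := h.loc hG hTP hM
      obtain ⟨C, h1⟩ := h1 q
      refine ⟨O, mem_nhdsWithin_of_mem_nhds (hO.mem_nhds hMO), C, fun t l ht => ?_⟩
      rw [hTTi q i l t (hOi _ ht)]
      exact (h1 l t ht).2
  have hconst : ∀ q l t t', TT q l t = TT q l t' := by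
    intro q l t t'
    obtain ⟨C, hC⟩ := hbd q
    apply (hana q l).apply_eq_apply_of_bounded
    rw [isBounded_iff_forall_norm_le]
    refine ⟨C, ?_⟩
    rintro _ ⟨z, rfl⟩
    exact hC z l (h.mχ _)
  have hall : ∀ q t0 i, χ t0 i i ≠ 0 → TT q i t0 = 0 := by
    intro q t0 i hi0
    by_contra hne
    -- the chart of the curve is locally constant
    have hev : ∀ᶠ t in 𝓝 t0, χ t i i ≠ 0 := (h.ev_diag i hi0).2
    have hx : ∀ᶠ t in 𝓝 t0, chart i (χ t) = fun l => TT q l t0 / TT q i t0 := by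
      filter_upwards [hev] with t hit
      funext l
      rw [eq_div_iff hne, hconst q l t0 t, hconst q i t0 t, hTTi q i l t hit, hTTi q i i t hit]
      unfold Tf
      rw [PM.chart_self hit]
      ring
    have h4 : HasDerivAt (fun t => chart i (χ t)) 0 t0 :=
      (hasDerivAt_const t0 (fun l => TT q l t0 / TT q i t0)).congr_of_eventuallyEq hx
    exact deriv_chart_ne h.hχ i hi0 (h.im t0) h4.deriv
  -- the deformation is tangent everywhere
  have hpar : ∀ t, Par 𝓤 χ P Q s wt t := by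
    set A : Set ℂ := {t | ∀ᶠ u in 𝓝 t, Par 𝓤 χ P Q s wt u} with hA
    have hAo : IsOpen A := by
      rw [isOpen_iff_mem_nhds]
      intro t ht
      exact ht.eventually_nhds
    have hAc : IsClosed A := by
      rw [← isOpen_compl_iff, isOpen_iff_mem_nhds]
      intro t ht
      rcases h.par_dich hTP t with h1 | h1
      · exact absurd h1 ht
      · rw [eventually_nhdsWithin_iff] at h1
        filter_upwards [h1] with u hu huA
        by_cases hut : u = t
        · rw [hut] at huA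
          exact ht huA
        · exact hu hut huA.self_of_nhds
    obtain ⟨z, hz⟩ := hZ
    have hzA : z ∈ A := by
      obtain ⟨O, i, hO, hMO, hOi, -, h2⟩ := h.loc hG hTP (h.mχ z)
      filter_upwards [hgΦ.continuousAt.eventually (hO.mem_nhds hMO),
        hgΦ.continuousAt.eventually (hG.closed.isOpen_compl.mem_nhds hz)] with u hu huZ
      refine ⟨i, hOi _ hu, h2 u hu huZ fun q => ?_⟩
      rw [← hTTi q i i u (hOi _ hu)]
      exact hall q u i (hOi _ hu)
    have hAu : A = univ := (isClopen_iff.1 ⟨hAc, hAo⟩).resolve_left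
      (Set.Nonempty.ne_empty ⟨z, hzA⟩)
    intro t
    have ht : t ∈ A := by
      rw [hAu]
      trivial
    exact ht.self_of_nhds
  obtain ⟨i, hi0⟩ := PM.exists_diag (hTP (h.mχ 0))
  obtain ⟨γ, hγ⟩ := (h.par_iff hTP hi0).1 (hpar 0)
  obtain ⟨V, a, g, Nn, β, hV, h0V, hrep⟩ := h.rep hi0
  obtain ⟨-, -, r1, r2, r3, r4, r5⟩ := hrep 0 h0V
  have hN0 : Nn 0 = 0 := by
    have e1 : Nn 0 = (γ - β 0) • deriv (fun w => chart i (χ w)) 0 := by
      rw [sub_smul, ← hγ, r5, add_sub_cancel_right]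
    have e2 := congrFun e1 a
    rw [r1, Pi.smul_apply, smul_eq_mul] at e2
    have e3 : γ - β 0 = 0 := by
      rcases mul_eq_zero.1 e2.symm with h | h
      · exact h
      · exact absurd h (r2 rfl)
    rw [e1, e3, zero_smul]
  refine ⟨fun m => g m 0, r3, ?_⟩
  rw [hN0] at r4
  obtain ⟨K, s', hs, hK⟩ := (contDiffAt_Phi (PM.chart_ne hi0)).exists_lipschitzOnWith
  have hPt : Tendsto (fun m => P m 0) 𝓤 (𝓝 (χ 0)) := h.tP 0
  have hQt : Tendsto (fun m => Q m (g m 0)) 𝓤 (𝓝 (χ 0)) := CConv.seq h.lQ (mem_univ 0) r3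
  have hp := (continuousAt_chart hi0).tendsto.comp hPt
  have hq := (continuousAt_chart hi0).tendsto.comp hQt
  have hdg : ∀ᶠ M in 𝓝 (χ 0), M i i ≠ 0 :=
    (continuous_apply_apply i i).continuousAt.eventually_ne hi0
  have h3 := (r4.norm).const_mul (K : ℝ)
  rw [norm_zero, mul_zero] at h3
  refine squeeze_zero' (Eventually.of_forall fun m => by positivity) ?_ h3
  filter_upwards [hp.eventually hs, hq.eventually hs, hPt.eventually hdg, hQt.eventually hdg,
    h.mPt 0] with m e3 e4 e5 e6 hmT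
  have e7 := hK.dist_le_mul _ e4 _ e3
  rw [dist_eq_norm, dist_eq_norm, Function.comp_apply, Function.comp_apply,
    PM.Phi_chart (hTP hmT) e5, PM.Phi_chart (hTP (h.mQ m _)) e6] at e7
  rw [norm_smul]
  calc ‖Q m (g m 0) - P m 0‖ * ‖wt m 0‖ ≤
        ((K : ℝ) * ‖chart i (Q m (g m 0)) - chart i (P m 0)‖) * ‖wt m 0‖ :=
        mul_le_mul_of_nonneg_right e7 (norm_nonneg _)
    _ = (K : ℝ) * (‖wt m 0‖ * ‖chart i (Q m (g m 0)) - chart i (P m 0)‖) := by ring

end Pool.Agent.H918.SD
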