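import Pool.Agent.H918.C.Lmv
import Pool.Agent.H918.C.Domv
import Pool.Agent.H918.C.Gwv
import Pool.Agent.H918.A.Fin

/-! There are no rescaled sequences of discs. -/

set_option autoImplicit false

open Filter Topology Metric Set

namespace Pool.Agent.H918.SD

open Pool.Agent.Y190.OP Pool.Agent.N155
open Pool.Agent.N155.BB (GW RG BCw)
open Pool.Agent.N154.TT (cv cv_nonneg ball_sub_l)
open Pool.Agent.N154.GG (UU uu_ge qk qk_ge CConv.unif)

variable {N : ℕ} {T : Set (Mat N)} {k m' : ℕ} {S : (ℂ → Mat N) → ℂ → Fin m' → ℂ}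
  {D : Mat N → ℝ} {C s0 : ℝ} {nn : ℕ → ℕ} {b : ℕ → ℂ} {h : ℕ → ℂ → Mat N} {c0 r c1 : ℝ}

theorem CD.dfv {𝒞 : (ℂ → Mat N) → Prop} (hcd : CD T c0 𝒞 r c1) :
    DFv T (DD r 𝒞 (ee r c0 c1)) where
  pd := fun M _ => hcd.pdv_DD M
  nn := fun M => DD_nonneg hcd.ee_pos M
  le := fun M => DD_le_one hcd.ee_pos M

/-- **There are no rescaled sequences.** -/
theorem SQd.false {Z : Set (Mat N)} {κ : Type}
    {ω : κ → (Fin N → ℂ) → (Fin N → ℂ) → (Fin N → ℂ) → ℂ} (hG : GW T Z ω)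
    (hZ : ∀ φ, BCw T c0 φ → ∃ z, φ z ∉ Z) (hcd : CD T c0 (BCw T c0) r c1)
    (hS : SDl T k S) (hs : SQd T k S (DD r (BCw T c0) (ee r c0 c1)) s0 nn b h) (hC0 : 0 < C)
    (hC : GEl T k S C) (h0 : 0 < s0) (h1 : s0 ≤ 1) (hC2 : C * s0 ≤ 2) {C1 : ℝ} (hC1 : 0 ≤ C1)
    (hb : ∀ P, HolP univ P → (∀ z, P z ∈ T) → ∀ z, ‖S P z‖ ≤ C1 * ‖fderiv ℝ P z‖ ^ k)
    (hc0 : C1 * c0 ^ k < s0 ^ k / 2) : False := by
  classical
  have hk := hS.kpos
  have hdf := hcd.dfv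
  have hε := hcd.ee_pos
  have hrp := hcd.rpos
  have hc1 := hcd.cpos
  have hdifL := hs.difL hS
  obtain ⟨H, v, j, hH, hHT, hHc, hHv, hv1, hv2, hcj⟩ := hs.cst hS hdf hC0 hC h0 h1
  have hHC : BCw T c0 H := limit_mem hS.dat hC0 (hC.ge hC0) h0 hC2 hC1 hb hc0 hH hHT hHv hv1 hv2
  obtain ⟨p, q, hind, hp, hq⟩ := BB.two_periods hG hZ hcd.cls hHC
  obtain ⟨δ, C', hδ, hC', huni⟩ := hcd.unif_v hHC hind hp hq
  have hHcont := hcd.cls.cont hHC
  set D := DD r (BCw T c0) (ee r c0 c1) with hDdef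
  have hnk : ∀ᶠ n : ℕ in (UU : Filter ℕ), k ≤ nn n + 1 := by
    filter_upwards [uu_ge (k : ℝ)] with n hn
    have : k ≤ n := by exact_mod_cast hn
    have := hs.nge n
    omega
  have hx0 : ∀ n, 0 < s0 ^ (qk (nn n)) * D (h n 0) := fun n => mul_pos (pow_pos h0 _) (hs.d0 n)
  set G : ℕ → ℂ → ℂ := fun n t => Wg (S (h n)) 0 j (qk (nn n) / k) t * Complex.exp (b n * t) /
    ((s0 ^ (qk (nn n)) * D (h n 0) : ℝ) : ℂ) with hGd
  have hGdiff : ∀ L : ℝ, ∀ᶠ n in (UU : Filter ℕ), DifferentiableOn ℂ (G n) (ball 0 L) := by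
    intro L
    filter_upwards [hdifL L] with n hn
    exact ((diff_Wg_l hn 0 j _).mul (by fun_prop)).div_const _
  have hGn : ∀ n t, ‖G n t‖ = cj (S (h n)) 0 j t ^ (qk (nn n) / k) * ‖Complex.exp (b n * t)‖ /
      (s0 ^ (qk (nn n)) * D (h n 0)) := by
    intro n t
    rw [hGd]
    simp only
    rw [norm_div, norm_mul, norm_Wg, Complex.norm_real, Real.norm_of_nonneg (hx0 n).le]
  have hE0 : ∀ n, ‖Complex.exp (b n * 0)‖ = 1 := fun n => by
    rw [mul_zero, Complex.exp_zero, norm_one]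
  have hbd : ∀ L : ℝ, ∀ᶠ n in (UU : Filter ℕ), ∀ z ∈ closedBall (0 : ℂ) L,
      D (h n z) * ‖G n z‖ ≤ 2 := by
    intro L
    filter_upwards [hnk, uu_ge L] with n hn hnL z hz
    have e1 := hs.bW hS hdf h0 (m := 0) j (p := qk (nn n) / k)
      (by rw [zero_add]; exact qk_dvd' hk hn) ((mem_closedBall_zero_iff.1 hz).trans hnL)
    rw [hGn, mul_div_assoc', div_le_iff₀ (hx0 n)]
    exact e1
  have hN0 : ∀ᶠ n in (UU : Filter ℕ), 1 / 2 ≤ D (h n 0) * ‖G n 0‖ := by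
    filter_upwards [hcj, hnk] with n e1 e2
    have e3 := e1 _ (qk_dvd' hk e2)
    have e4 := hs.d0 n
    have e5 : 0 < s0 ^ qk (nn n) := pow_pos h0 _
    rw [hGn, hE0, mul_one, mul_div_assoc', le_div_iff₀ (hx0 n)]
    nlinarith
  -- the shifts
  have hex : ∀ (n : ℕ) (t : ℂ), ∃ w : ℂ, (∃ w : ℂ, ‖w‖ ≤ r ∧
      ‖h n t - H (t + w)‖ ≤ ‖h n t - H t‖ ∧ ‖h n t - H (t + w)‖ * ‖G n t‖ ≤ C' * 2) →
      ‖w‖ ≤ r ∧ ‖h n t - H (t + w)‖ ≤ ‖h n t - H t‖ ∧
        ‖h n t - H (t + w)‖ * ‖G n t‖ ≤ C' * 2 := by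
    intro n t
    by_cases hw : ∃ w : ℂ, ‖w‖ ≤ r ∧
      ‖h n t - H (t + w)‖ ≤ ‖h n t - H t‖ ∧ ‖h n t - H (t + w)‖ * ‖G n t‖ ≤ C' * 2
    · obtain ⟨w, hw⟩ := hw
      exact ⟨w, fun _ => hw⟩
    · exact ⟨0, fun h => absurd h hw⟩
  choose s hsp using hex
  have hmain : ∀ L : ℝ, ∀ᶠ n in (UU : Filter ℕ), ∀ t ∈ closedBall (0 : ℂ) L, ‖s n t‖ ≤ r ∧
      ‖h n t - H (t + s n t)‖ ≤ ‖h n t - H t‖ ∧
        ‖h n t - H (t + s n t)‖ * ‖G n t‖ ≤ C' * 2 := by
    intro L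
    filter_upwards [hbd (L + 2), CConv.unif hHc (isCompact_closedBall (0 : ℂ) (L + 2)) hδ,
      hs.dscL (L + 3), hGdiff (L + 3)] with n e1 e2 e3 e4 t ht
    have hsub : ∀ z ∈ closedBall t 2, z ∈ closedBall (0 : ℂ) (L + 2) := by
      intro z hz
      rw [mem_closedBall, dist_eq_norm] at hz
      rw [mem_closedBall_zero_iff] at ht ⊢
      have := norm_add_le (z - t) t
      rw [sub_add_cancel] at this
      linarith
    have hsub3 : closedBall t 2 ⊆ ball (0 : ℂ) (L + 3) := fun z hz =>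
      closedBall_subset_ball (by linarith) (hsub z hz)
    exact hsp n t (huni _ (h n) isOpen_ball e3.hol e3.mem (G n) 2 e4 t hsub3
      (fun z hz => e2 z (hsub z hz)) (fun z hz => e1 z (hsub z hz)))
  have hls : CConv (UU : Filter ℕ) univ s (fun _ => 0) := by
    intro z _
    rw [tendsto_zero_iff_norm_tendsto_zero]
    have e1 : Tendsto (fun x : ℕ × ℂ => 2 / c1 * ‖h x.1 x.2 - H x.2‖) ((UU : Filter ℕ) ×ˢ 𝓝 z)
        (𝓝 0) := by
      have e2 := (((hHc z (mem_univ z)).sub ((hHcont.tendsto z).comp tendsto_snd)).norm).const_mul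
        (2 / c1)
      rw [sub_self, norm_zero, mul_zero] at e2
      exact e2
    refine squeeze_zero' (Eventually.of_forall fun _ => norm_nonneg _) ?_ e1
    have e3 : ∀ᶠ w in 𝓝 z, w ∈ closedBall (0 : ℂ) (‖z‖ + 1) := by
      filter_upwards [ball_mem_nhds z one_pos] with w hw
      rw [mem_ball, dist_eq_norm] at hw
      rw [mem_closedBall_zero_iff]
      have := norm_add_le (w - z) z
      rw [sub_add_cancel] at this
      linarith
    filter_upwards [(hmain (‖z‖ + 1)).prod_mk e3] with x hx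
    obtain ⟨k1, k2, -⟩ := hx.1 x.2 hx.2
    have k3 := hcd.inj H hHC x.2 (s x.1 x.2) (by linarith)
    have k4 := norm_sub_le (h x.1 x.2 - H x.2) (h x.1 x.2 - H (x.2 + s x.1 x.2))
    rw [sub_sub_sub_cancel_left] at k4
    rw [div_mul_eq_mul_div, le_div_iff₀ hc1]
    linarith
  have hlQ : CConv (UU : Filter ℕ) univ (fun _ => H) H :=
    cconv_const fun z _ => hHcont.continuousAt
  have hRG : RGd T UU H h (fun _ => H) s G 2 (C' * 2) :=
    { hP := hs.dscL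
      hQ := fun _ => hH
      mQ := fun _ => hHT
      hχ := hH
      mχ := hHT
      im := hcd.cls.im hHC
      bχ := hHC.bd
      bQ := fun _ => hHC.bd
      lP := hHc
      lQ := hlQ
      ls := hls
      wd := hGdiff
      bd := by
        intro L
        filter_upwards [hmain L] with n hn z hz
        have := (hn z hz).2.2
        rwa [norm_sub_rev] at this }
  obtain ⟨t, ht, hfin⟩ := hRG.final hS.comp hS.sub hG (hZ H hHC)
  have hfin2 : Tendsto (fun n => ‖H (t n) - h n 0‖ * ‖G n 0‖ / ee r c0 c1) UU (𝓝 0) := by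
    have := hfin.div_const (ee r c0 c1)
    rwa [zero_div] at this
  obtain ⟨n, e1, e2⟩ := ((hfin2.eventually_lt_const (u := 1 / 2) (by norm_num)).and hN0).exists
  have e3 := DD_le (r := r) hε (hcd.cls.shift H hHC (t n)) (h n 0)
  simp only [add_zero] at e3
  have e4 : D (h n 0) * ‖G n 0‖ ≤ ‖H (t n) - h n 0‖ * ‖G n 0‖ / ee r c0 c1 := by
    rw [norm_sub_rev, mul_div_right_comm]
    exact mul_le_mul_of_nonneg_right e3 (norm_nonneg _)
  linarith

end Pool.Agent.H918.SD
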