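import Pool.Agent.H918.C.Datl
import Pool.Agent.H918.A.Fam

/-! The symmetric differentials of projective manifolds, along discs. -/

set_option autoImplicit false

open Filter Topology Metric Set MvPolynomial LinearAlgebra.Projectivization

namespace Pool.Agent.H918.SD

open Pool.Agent.Y190.OP Pool.Agent.W602.GT Pool.Agent.N155 Pool.Agent.N155.BB

section charts

variable {N : ℕ}

theorem an_chart_l {U : Set ℂ} (hU : IsOpen U) {H : ℂ → Mat N} (h : HolP U H) (i : Fin N) {s : ℂ}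
    (hs : s ∈ U) (hi : H s i i ≠ 0) : AnalyticAt ℂ (fun s => chart i (H s)) s := by
  rw [Complex.analyticAt_iff_eventually_differentiableAt]
  have h1 : ∀ᶠ s' in 𝓝 s, H s' i i ≠ 0 := by
    have : ContinuousAt (fun s' => H s' i i) s :=
      (continuous_apply_apply i i).continuousAt.comp (h.continuousAt hs)
    exact this.eventually_ne hi
  filter_upwards [h1, hU.mem_nhds hs] with s' hs' hsU
  exact h.diff_chart hsU hs'

theorem deriv_chart_le_l {U : Set ℂ} {H : ℂ → Mat N} (h : HolP U H) (i : Fin N)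
    {s : ℂ} (hs : s ∈ U) (hi : H s i i ≠ 0) {L B : ℝ} (hL : ‖fderiv ℝ (chart i) (H s)‖ ≤ L)
    (hB : ‖fderiv ℝ H s‖ ≤ B) : ‖deriv (fun s => chart i (H s)) s‖ ≤ L * B := by
  have h1 : HasFDerivAt (fun s => chart i (H s))
      ((fderiv ℂ (fun s => chart i (H s)) s).restrictScalars ℝ) s :=
    (h.diff_chart hs hi).hasFDerivAt.restrictScalars ℝ
  have h2 : HasFDerivAt (fun s => chart i (H s)) ((fderiv ℝ (chart i) (H s)).comp (fderiv ℝ H s)) s :=
    (((N155.BB.contDiffAt_chart hi).differentiableAt (by norm_num)).hasFDerivAt).comp s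
      (h.differentiableAt hs).hasFDerivAt
  have h3 := h1.unique h2
  rw [norm_deriv_eq_norm_fderiv, ← ContinuousLinearMap.norm_restrictScalars (𝕜' := ℝ), h3]
  refine (ContinuousLinearMap.opNorm_comp_le _ _).trans ?_
  exact mul_le_mul hL hB (norm_nonneg _) ((norm_nonneg _).trans hL)

theorem cc_mem_l {l : Filter ℕ} {U : Set ℂ} {P : ℕ → ℂ → Mat N} {φ : ℂ → Mat N}
    (h : CConv l U P φ) {z0 : ℂ} (hz0 : z0 ∈ U) {O : Set (Mat N)} (hO : O ∈ 𝓝 (φ z0)) :
    ∃ V : Set ℂ, IsOpen V ∧ z0 ∈ V ∧ ∀ᶠ m in l, ∀ z ∈ V, P m z ∈ O := by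
  have h1 : ∀ᶠ p : ℕ × ℂ in l ×ˢ 𝓝 z0, P p.1 p.2 ∈ O := (h z0 hz0).eventually hO
  rw [eventually_prod_iff] at h1
  obtain ⟨pa, hpa, pb, hpb, hab⟩ := h1
  obtain ⟨V, hVsub, hV, hzV⟩ := _root_.mem_nhds_iff.1 hpb
  refine ⟨V, hV, hzV, ?_⟩
  filter_upwards [hpa] with m hm z hz
  exact hab hm (hVsub hz)

theorem cc_chart_l {l : Filter ℕ} {U : Set ℂ} {P : ℕ → ℂ → Mat N} {φ : ℂ → Mat N}
    (h : CConv l U P φ) (i r : Fin N) :
    CConv l (U ∩ {z | φ z i i ≠ 0}) (fun m w => chart i (P m w) r)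
      (fun w => chart i (φ w) r) :=
  CConv.comp (fun w hw => h w hw.1) fun _ hw =>
    (continuous_apply r).continuousAt.comp (continuousAt_chart hw.2)

theorem cc_chart_diff_l {l : Filter ℕ} {U : Set ℂ} (hU : IsOpen U) {P : ℕ → ℂ → Mat N}
    {φ : ℂ → Mat N} (h : CConv l U P φ) (hP : ∀ᶠ m in l, HolP U (P m)) {z0 : ℂ} (hz0 : z0 ∈ U)
    (i r : Fin N) (hn : φ z0 i i ≠ 0) :
    ∃ V ∈ 𝓝 z0, ∀ᶠ m in l, DifferentiableOn ℂ (fun w => chart i (P m w) r) V := by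
  have hO : IsOpen {M : Mat N | M i i ≠ 0} :=
    isOpen_ne_fun (continuous_apply_apply i i) continuous_const
  obtain ⟨V, hV, hzV, hm⟩ := cc_mem_l h hz0 (hO.mem_nhds hn)
  refine ⟨V ∩ U, inter_mem (hV.mem_nhds hzV) (hU.mem_nhds hz0), ?_⟩
  filter_upwards [hm, hP] with m hm hPm w hw
  exact (differentiableAt_pi.1 (hPm.diff_chart hw.2 (hm w hw.1)) r).differentiableWithinAt

end charts

variable {n : ℕ} {ι : Type} {F : ι → MvPolynomial (Fin (n + 1)) ℂ} {d k m : ℕ}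
  {σ : (Fin (n + 1) → ℂ) → (Fin (n + 1) → ℂ) → ℂ}

/-- the local form of the values -/
theorem sv_loc_l (hX : ProjManifold F d) (hσ : SymDiff (Cone F) d k σ) {M0 : Mat (n + 1)}
    (hM0 : M0 ∈ TF F) : ∃ (O : Set (Mat (n + 1))) (i : Fin (n + 1)) (J : Fin d → Fin (n + 1))
      (U : Set (Fin d → ℂ)) (f : (Fin d → ℂ) × (Fin d → ℂ) → ℂ), IsOpen O ∧ M0 ∈ O ∧ IsOpen U ∧
      AnalyticOnNhd ℂ f (U ×ˢ univ) ∧ (∀ M ∈ O, M i i ≠ 0 ∧ (fun l => chart i M (J l)) ∈ U) ∧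
      (0 < k → ∀ p ∈ U, ∀ (c : ℂ) w, f (p, c • w) = c ^ k * f (p, w)) ∧
      ∀ (V : Set ℂ) (φ : ℂ → Mat (n + 1)), IsOpen V → HolP V φ → (∀ z ∈ V, φ z ∈ TF F) →
        ∀ t ∈ V, φ t ∈ O → sv σ φ i t = f (fun l => chart i (φ t) (J l),
          fun l => deriv (fun s => chart i (φ s)) t (J l)) := by
  obtain ⟨i, J, O, U, Ψ, hO, hMO, hU, hΨ, hΨX, hloc⟩ := graph_of hX hM0
  refine ⟨O, i, J, U, fun p => σ (Ψ p.1) (fderiv ℂ Ψ p.1 p.2), hO, hMO, hU, hσ.hol U Ψ hU hΨ hΨX,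
    fun M hM => ⟨(hloc M hM).1, (hloc M hM).2.1⟩, fun _ p hp c w => ?_,
    fun V φ hV hφ hφT t htV ht => ?_⟩
  · simp only [map_smul]
    exact hσ.deg (Ψ p) (hΨX p hp) _ _
  have hcφ : ContinuousAt φ t := hφ.continuousAt htV
  obtain ⟨hit, hUt, ht3⟩ := hloc _ ht
  have hΨt := ht3 (hφT _ htV)
  have hev : ∀ᶠ s in 𝓝 t, φ s ∈ O := hcφ.eventually (hO.mem_nhds ht)
  have hd := (an_chart_l hV hφ i htV hit).differentiableAt.hasDerivAt
  have hdξ : HasDerivAt (fun s l => chart i (φ s) (J l))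
      (fun l => deriv (fun s => chart i (φ s)) t (J l)) t :=
    hasDerivAt_pi.2 fun k => (hasDerivAt_pi.1 hd) (J k)
  have f1 : deriv (fun s => chart i (φ s)) t = fderiv ℂ Ψ (fun l => chart i (φ t) (J l))
      (fun l => deriv (fun s => chart i (φ s)) t (J l)) := by
    have h1 := (hΨ _ hUt).differentiableAt.hasFDerivAt.comp_hasDerivAt t hdξ
    have h2 : (fun s => chart i (φ s)) =ᶠ[𝓝 t] Ψ ∘ fun s l => chart i (φ s) (J l) := by
      filter_upwards [hev, hV.mem_nhds htV] with s hs hsV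
      exact (hloc _ hs).2.2 (hφT s hsV)
    rw [← h1.deriv, ← h2.deriv_eq]
  unfold sv
  simp only
  rw [← f1, ← hΨt]

theorem sv_indep_l (hX : ProjManifold F d) (hσ : SymDiff (Cone F) d k σ) {V : Set ℂ}
    (hV : IsOpen V) {φ : ℂ → Mat (n + 1)}
    (hφ : HolP V φ) (hφT : ∀ z ∈ V, φ z ∈ TF F) {i i' : Fin (n + 1)} {t : ℂ} (ht : t ∈ V)
    (hi : φ t i i ≠ 0) (hi' : φ t i' i' ≠ 0) : sv σ φ i' t = sv σ φ i t := by
  have hM := TF_PM (hφT t ht)
  have hx := chart_i'_ne hM hi hi'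
  obtain ⟨f', hf', hfv⟩ := tr_strict hx
  have hev : ∀ j, φ t j j ≠ 0 → ∀ᶠ s in 𝓝 t, φ s j j ≠ 0 := fun j hj =>
    ((continuous_apply_apply (ρ := fun (_ : Fin (n + 1)) (_ : Fin (n + 1)) => ℂ) j
      j).continuousAt.comp (hφ.continuousAt ht)).eventually_ne hj
  have e2 : deriv (fun s => chart i' (φ s)) t = f' (deriv (fun s => chart i (φ s)) t) := by
    have h1 := (an_chart_l hV hφ i ht hi).differentiableAt.hasDerivAt
    have h2 := hf'.hasFDerivAt.comp_hasDerivAt t h1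
    have h3 : (fun s => chart i' (φ s)) =ᶠ[𝓝 t] tr i' ∘ fun s => chart i (φ s) := by
      filter_upwards [hev i hi, hev i' hi', hV.mem_nhds ht] with s hs hs' hsV
      exact chart_tr (TF_PM (hφT s hsV)) hs hs'
    rw [h3.deriv_eq, h2.deriv]
  unfold sv
  rw [e2, hfv, chart_tr hM hi hi']
  unfold tr
  exact hσ.twist _ (chart_cone hX.form (hφT t ht) hi) _ _ _ (inv_ne_zero hx)

/-- limits of the values -/
theorem sv_lim_l (hX : ProjManifold F d) (hσ : SymDiff (Cone F) d k σ) {𝓤 : Ultrafilter ℕ}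
    {V : Set ℂ} (hV : IsOpen V)
    {P : ℕ → ℂ → Mat (n + 1)} {H : ℂ → Mat (n + 1)}
    (hP : ∀ᶠ m in (𝓤 : Filter ℕ), HolP V (P m) ∧ ∀ z ∈ V, P m z ∈ TF F) (hH : HolP V H)
    (hHT : ∀ z ∈ V, H z ∈ TF F) (hc : CConv (𝓤 : Filter ℕ) V P H) {t : ℂ} (ht : t ∈ V) :
    Tendsto (fun m => sv σ (P m) (idx (P m t)) t) 𝓤 (𝓝 (sv σ H (idx (H t)) t)) := by
  obtain ⟨O, i, J, U, f, hO, hMO, hU, hf, hOU, -, hloc⟩ := sv_loc_l hX hσ (hHT t ht)
  obtain ⟨hi, hUt⟩ := hOU _ hMO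
  have e1 : sv σ H (idx (H t)) t = sv σ H i t :=
    sv_indep_l hX hσ hV hH hHT ht hi (idx_ne (TF_PM (hHT t ht)))
  rw [e1, hloc V H hV hH hHT t ht hMO]
  have hev := (hc.pointwise ht).eventually (hO.mem_nhds hMO)
  have h1 : Tendsto (fun m => (fun l => chart i (P m t) (J l) : Fin d → ℂ)) 𝓤
      (𝓝 (fun l => chart i (H t) (J l))) := by
    rw [tendsto_pi_nhds]
    intro l
    exact (((continuous_apply (J l)).continuousAt.comp (continuousAt_chart hi)).tendsto).comp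
      (hc.pointwise ht)
  have hdr : ∀ (Q : ℂ → Mat (n + 1)), HolP V Q → Q t i i ≠ 0 → ∀ r,
      deriv (fun s => chart i (Q s)) t r = deriv (fun s => chart i (Q s) r) t := by
    intro Q hQ hQi r
    exact (((hasDerivAt_pi.1 (an_chart_l hV hQ i ht hQi).differentiableAt.hasDerivAt) r).deriv).symm
  obtain ⟨V1, hV1, hd1⟩ : ∃ V1 ∈ 𝓝 t, V1 ⊆ V ∩ {w | H w i i ≠ 0} := by
    refine ⟨V ∩ {w | H w i i ≠ 0}, inter_mem (hV.mem_nhds ht) ?_, subset_rfl⟩
    exact ((continuous_apply_apply (ρ := fun (_ : Fin (n + 1)) (_ : Fin (n + 1)) => ℂ) i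
      i).continuousAt.comp (hH.continuousAt ht)).eventually_ne hi
  obtain ⟨V2, hV2s, hV2, htV2⟩ := _root_.mem_nhds_iff.1 hV1
  have h2 : Tendsto (fun m => (fun l => deriv (fun s => chart i (P m s)) t (J l) : Fin d → ℂ)) 𝓤
      (𝓝 (fun l => deriv (fun s => chart i (H s)) t (J l))) := by
    rw [tendsto_pi_nhds]
    intro l
    rw [hdr H hH hi]
    have hcc : CConv (𝓤 : Filter ℕ) V2 (fun m w => chart i (P m w) (J l))
        (fun w => chart i (H w) (J l)) := fun w hw => cc_chart_l hc i (J l) w (hd1 (hV2s hw))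
    have h3 := (CConv.an hcc hV2 htV2 (cc_chart_diff_l hV hc (hP.mono fun _ h => h.1) ht i (J l)
      hi)).2
    refine h3.congr' ?_
    filter_upwards [hev, hP] with m hm hPm
    exact (hdr (P m) hPm.1 (hOU _ hm).1 (J l)).symm
  have h3 : ContinuousAt f (fun l => chart i (H t) (J l),
      fun l => deriv (fun s => chart i (H s)) t (J l)) := (hf _ ⟨hUt, mem_univ _⟩).continuousAt
  refine (h3.tendsto.comp (h1.prodMk_nhds h2)).congr' ?_
  filter_upwards [hev, hP] with m hm hPm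
  rw [sv_indep_l hX hσ hV hPm.1 hPm.2 ht (hOU _ hm).1 (idx_ne (TF_PM (hPm.2 t ht)))]
  exact (hloc V (P m) hV hPm.1 hPm.2 t ht hm).symm

theorem sv_bound_l (hX : ProjManifold F d) (hσ : SymDiff (Cone F) d k σ) (hk : 0 < k) :
    ∃ C : ℝ, 0 ≤ C ∧ ∀ (V : Set ℂ) (φ : ℂ → Mat (n + 1)), IsOpen V → HolP V φ →
      (∀ z ∈ V, φ z ∈ TF F) →
      ∀ t ∈ V, ‖sv σ φ (idx (φ t)) t‖ ≤ C * ‖fderiv ℝ φ t‖ ^ k := by
  have hbd : ∃ C : ℝ, ∀ M ∈ TF F, ∀ (V : Set ℂ) (φ : ℂ → Mat (n + 1)), IsOpen V → HolP V φ →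
      (∀ z ∈ V, φ z ∈ TF F) → ∀ t ∈ V, φ t = M → ∀ i, φ t i i ≠ 0 →
      ‖sv σ φ i t‖ ≤ C * ‖fderiv ℝ φ t‖ ^ k := by
    refine (isCompact_TF hX.form).induction_on (p := fun s => ∃ C : ℝ, ∀ M ∈ s,
      ∀ (V : Set ℂ) (φ : ℂ → Mat (n + 1)), IsOpen V → HolP V φ → (∀ z ∈ V, φ z ∈ TF F) →
      ∀ t ∈ V, φ t = M → ∀ i, φ t i i ≠ 0 → ‖sv σ φ i t‖ ≤ C * ‖fderiv ℝ φ t‖ ^ k) ?_ ?_ ?_ ?_
    · exact ⟨0, fun M hM => absurd hM (notMem_empty _)⟩
    · rintro s s' hss ⟨C, hC⟩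
      exact ⟨C, fun M hM => hC M (hss hM)⟩
    · rintro s s' ⟨C, hC⟩ ⟨C', hC'⟩
      refine ⟨max C C', fun M hM V φ hV hφ hφT t htV ht i hi => ?_⟩
      rcases hM with hM | hM
      · exact (hC M hM V φ hV hφ hφT t htV ht i hi).trans
          (mul_le_mul_of_nonneg_right (le_max_left _ _) (by positivity))
      · exact (hC' M hM V φ hV hφ hφT t htV ht i hi).trans
          (mul_le_mul_of_nonneg_right (le_max_right _ _) (by positivity))
    · intro M hM
      obtain ⟨O, i, J, U, f, hO, hMO, hU, hf, hOU, hdeg, hloc⟩ := sv_loc_l hX hσ hM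
      obtain ⟨hi0, hU0⟩ := hOU _ hMO
      obtain ⟨L, O1, hL, hO1, hMO1, -, -, hfd⟩ := lip_chart hi0
      set ξ : Mat (n + 1) → Fin d → ℂ := fun M k => chart i M (J k) with hξ
      have hcξ : ContinuousAt ξ M := by
        rw [continuousAt_pi]
        intro k
        exact (continuous_apply (J k)).continuousAt.comp (continuousAt_chart hi0)
      obtain ⟨ε, hε, hεU⟩ := Metric.isOpen_iff.1 hU _ hU0
      have hev1 : ∀ᶠ M' in 𝓝 M, ξ M' ∈ closedBall (ξ M) (ε / 2) :=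
        hcξ.eventually (closedBall_mem_nhds _ (by positivity))
      obtain ⟨O2, hO2s, hO2, hMO2⟩ := _root_.mem_nhds_iff.1 (hev1.and
        (inter_mem (hO.mem_nhds hMO) (hO1.mem_nhds hMO1)))
      have hcomp : IsCompact (closedBall (ξ M) (ε / 2) ×ˢ closedBall (0 : Fin d → ℂ) 1) :=
        (isCompact_closedBall _ _).prod (isCompact_closedBall _ _)
      have hsubU : closedBall (ξ M) (ε / 2) ⊆ U :=
        (closedBall_subset_ball (by linarith)).trans hεU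
      obtain ⟨CF, hCF⟩ := hcomp.exists_bound_of_continuousOn (f := f) (fun p hp =>
        (hf p ⟨hsubU hp.1, mem_univ _⟩).continuousAt.continuousWithinAt)
      have hCF0 : 0 ≤ CF := (norm_nonneg _).trans (hCF (ξ M, 0)
        ⟨mem_closedBall_self (by positivity), mem_closedBall_self zero_le_one⟩)
      have hbound : ∀ z ∈ closedBall (ξ M) (ε / 2), ∀ w, ‖f (z, w)‖ ≤ CF * ‖w‖ ^ k := by
        intro z hz w
        have hdz := hdeg hk z (hsubU hz)
        by_cases hw : w = 0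
        · have h1 : f (z, w) = 0 := by
            have h2 := hdz 0 0
            rw [smul_zero, zero_pow hk.ne', zero_mul] at h2
            rw [hw]
            exact h2
          rw [h1, norm_zero]
          positivity
        · have hwn : (‖w‖ : ℂ) ≠ 0 := by
            have := norm_pos_iff.2 hw
            exact_mod_cast this.ne'
          have h1 : w = (‖w‖ : ℂ) • ((‖w‖ : ℂ)⁻¹ • w) := by
            rw [smul_smul, mul_inv_cancel₀ hwn, one_smul]
          have h2 : f (z, w) = (‖w‖ : ℂ) ^ k * f (z, (‖w‖ : ℂ)⁻¹ • w) := by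
            conv_lhs => rw [h1]
            exact hdz _ _
          rw [h2, norm_mul, norm_pow, Complex.norm_real, norm_norm, mul_comm]
          refine mul_le_mul_of_nonneg_right (hCF _ ⟨hz, ?_⟩) (by positivity)
          rw [mem_closedBall_zero_iff, norm_smul, norm_inv, Complex.norm_real, norm_norm]
          exact (inv_mul_cancel₀ (norm_ne_zero_iff.2 hw)).le
      refine ⟨O2, mem_nhdsWithin_of_mem_nhds (hO2.mem_nhds hMO2), CF * L ^ k,
        fun M' hM' V φ hV hφ hφT t htV ht j hj => ?_⟩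
      have ht' : φ t ∈ O2 := by rwa [ht]
      obtain ⟨hit, hUt⟩ := hOU _ (hO2s ht').2.1
      rw [sv_indep_l hX hσ hV hφ hφT htV hit hj, hloc V φ hV hφ hφT t htV (hO2s ht').2.1]
      refine (hbound _ (hO2s ht').1 _).trans ?_
      rw [mul_assoc, ← mul_pow]
      refine mul_le_mul_of_nonneg_left (pow_le_pow_left₀ (norm_nonneg _) ?_ k) hCF0
      have e1 := deriv_chart_le_l hφ i htV hit (hfd _ (hO2s ht').2.2) (le_refl ‖fderiv ℝ φ t‖)
      rw [pi_norm_le_iff_of_nonneg (by positivity)]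
      intro k
      exact (norm_le_pi_norm _ (J k)).trans e1
  obtain ⟨C, hC⟩ := hbd
  refine ⟨max C 0, le_max_right _ _, fun V φ hV hφ hφT t ht =>
    (hC _ (hφT t ht) V φ hV hφ hφT t ht rfl _ (idx_ne (TF_PM (hφT t ht)))).trans
      (mul_le_mul_of_nonneg_right (le_max_left _ _) (by positivity))⟩

theorem sv_hol_l (hX : ProjManifold F d) (hσ : SymDiff (Cone F) d k σ) {V : Set ℂ}
    (hV : IsOpen V) {φ : ℂ → Mat (n + 1)} (hφ : HolP V φ) (hφT : ∀ z ∈ V, φ z ∈ TF F) :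
    DifferentiableOn ℂ (fun t => sv σ φ (idx (φ t)) t) V := by
  intro t ht
  obtain ⟨O, i, J, U, f, hO, hMO, hU, hf, hOU, -, hloc⟩ := sv_loc_l hX hσ (hφT t ht)
  obtain ⟨hit, hUt⟩ := hOU _ hMO
  have hxa : AnalyticAt ℂ (fun t => chart i (φ t)) t := an_chart_l hV hφ i ht hit
  have hτ : AnalyticAt ℂ (fun t => deriv (fun s => chart i (φ s)) t) t := hxa.deriv
  have hτl : AnalyticAt ℂ (fun t k => deriv (fun s => chart i (φ s)) t (J k)) t :=
    analyticAt_pi_iff.2 fun k => (analyticAt_pi_iff.1 hτ) (J k)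
  have hξa : AnalyticAt ℂ (fun t k => chart i (φ t) (J k)) t :=
    analyticAt_pi_iff.2 fun k => (analyticAt_pi_iff.1 hxa) (J k)
  have h1 : AnalyticAt ℂ (fun t => f (fun k => chart i (φ t) (J k),
      fun k => deriv (fun s => chart i (φ s)) t (J k))) t :=
    AnalyticAt.fun_comp (g := f) (hf _ ⟨hUt, mem_univ _⟩) (hξa.prod hτl)
  refine (h1.differentiableAt.congr_of_eventuallyEq ?_).differentiableWithinAt
  filter_upwards [(hφ.continuousAt ht).eventually (hO.mem_nhds hMO), hV.mem_nhds ht]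
    with t' ht' htV
  rw [sv_indep_l hX hσ hV hφ hφT htV (hOU _ ht').1 (idx_ne (TF_PM (hφT t' htV)))]
  exact hloc V φ hV hφ hφT t' htV ht'

theorem sv_aff_l (hX : ProjManifold F d) (hσ : SymDiff (Cone F) d k σ) {φ : ℂ → Mat (n + 1)}
    (z0 c t : ℂ) (hφT : φ (z0 + c * t) ∈ TF F) :
    sv σ (fun t => φ (z0 + c * t)) (idx (φ (z0 + c * t))) t =
      c ^ k * sv σ φ (idx (φ (z0 + c * t))) (z0 + c * t) := by
  unfold sv
  set i := idx (φ (z0 + c * t)) with hi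
  have h1 : deriv (fun s => chart i (φ (z0 + c * s))) t =
      c • deriv (fun s => chart i (φ s)) (z0 + c * t) := by
    have h2 := congrFun (Pool.Agent.N154.TT.iteratedDeriv_aff (fun s => chart i (φ s)) z0 c 1) t
    rwa [iteratedDeriv_one, iteratedDeriv_one, pow_one] at h2
  rw [h1]
  exact hσ.deg _ (chart_cone hX.form hφT (idx_ne (TF_PM hφT))) _ _

/-- the data -/
theorem sdl_of (hX : ProjManifold F d) (hk : 0 < k)
    {σ : Fin m → (Fin (n + 1) → ℂ) → (Fin (n + 1) → ℂ) → ℂ}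
    (hσ : ∀ j, SymDiff (Cone F) d k (σ j)) {T : Set (Mat (n + 1))} (hT : IsClosed T)
    (hTF : T ⊆ TF F) : SDl T k (SV σ) where
  comp := (isCompact_TF hX.form).of_isClosed_subset hT hTF
  sub := hTF.trans TF_PM
  kpos := hk
  hol := fun U P hU hP hPT => differentiableOn_pi.2 fun j =>
    sv_hol_l hX (hσ j) hU hP fun z hz => hTF (hPT z hz)
  aff := fun U P hU hP hPT z0 c t ht => by
    funext j
    exact sv_aff_l hX (hσ j) z0 c t (hTF (hPT _ ht))
  bd := by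
    choose C hC0 hC using fun j => sv_bound_l hX (hσ j) hk
    refine ⟨∑ j, C j, Finset.sum_nonneg fun j _ => hC0 j, fun U P hU hP hPT z hz => ?_⟩
    have h0 : 0 ≤ ∑ j, C j := Finset.sum_nonneg fun j _ => hC0 j
    rw [pi_norm_le_iff_of_nonneg (by positivity)]
    intro j
    refine (hC j U P hU hP (fun z hz => hTF (hPT z hz)) z hz).trans ?_
    exact mul_le_mul_of_nonneg_right (Finset.single_le_sum (f := C) (fun j _ => hC0 j)
      (Finset.mem_univ j)) (by positivity)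
  lim := fun 𝓤 U P H hU hP hH hHT hc z hz => tendsto_pi_nhds.2 fun j =>
    sv_lim_l hX (hσ j) hU (hP.mono fun _ h => ⟨h.1, fun z hz => hTF (h.2 z hz)⟩) hH
      (fun z hz => hTF (hHT z hz)) hc hz

end Pool.Agent.H918.SD
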