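import Pool.Agent.H918.C.Perv
import Pool.Agent.H918.C.Syml
import Pool.Agent.H918.A.Main
import Pool.Agent.H918.A.Sp
import Pool.Graph.R_pool_sql_team_seeded_63374d34.N154.DD.PGeo

/-! Discs, punctured discs and the Kobayashi pseudodistance, for projective manifolds with positive
2-forms. -/

set_option autoImplicit false

open Filter Topology Metric Set MvPolynomial LinearAlgebra.Projectivization

namespace Pool.Agent.H918.SD

open Pool.Agent.Y190.OP Pool.Agent.W602.GT Pool.Agent.N155 Pool.Agent.N155.BB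
open Pool.Agent.N154.GG (HolMapOn PunctIn Extends PDisc kobayashi projDist IsChainLength
  poincareDist HP tpi isOpen_HP holP_comp_l exp_mem_PDisc log_mem_HP holP_remove holMapOn_of
  holP_of_on cost_eq)

variable {N : ℕ} {T : Set (Mat N)}

/-- **The main theorem for compact sets of projection matrices: discs and punctured discs** -/
theorem disc_curves {Z : Set (Mat N)} {κ : Type}
    {ω : κ → (Fin N → ℂ) → (Fin N → ℂ) → (Fin N → ℂ) → ℂ} (hG : GW T Z ω)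
    (hZ : ∀ c0, 0 < c0 → ∀ φ, BCw T c0 φ → ∃ z, φ z ∉ Z) {m k : ℕ}
    {S : (ℂ → Mat N) → ℂ → Fin m → ℂ} (hS : SDl T k S) (hNT : NT T S) :
    ∃ c0 : ℝ, 0 < c0 ∧ ∃ A : Finset (ℂ → Mat N), (∀ g ∈ A, BCw T c0 g) ∧
      (∀ f : ℂ → Mat N, HolP univ f → (∀ z, f z ∈ T) → (∃ z, f z ≠ f 0) →
        ∃ g ∈ A, ∃ s : ℂ → ℂ, Differentiable ℂ s ∧ ∀ z, f z = g (s z)) ∧
      (∀ P : ℂ → Mat N, HolP HP P → (∀ z ∈ HP, P z ∈ T) → (∀ z ∈ HP, P (z + tpi) = P z) →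
        (∃ M0 ∈ T, ∀ ε : ℝ, 0 < ε → ∃ A : ℝ, 0 < A ∧ ∀ z : ℂ, z.re ≤ -A → ‖P z - M0‖ ≤ ε) ∨
        ∃ g ∈ A, ∃ s : ℂ → ℂ, DifferentiableOn ℂ s HP ∧ ∀ z ∈ HP, P z = g (s z)) ∧
      ∀ ε : ℝ, 0 < ε → ∃ B : ℝ, 0 < B ∧ ∀ P : ℂ → Mat N, HolP (ball 0 1) P →
        (∀ w ∈ ball (0 : ℂ) 1, P w ∈ T) → ∀ D : ℝ, 0 ≤ D → D ≤ 1 →
        (∀ g ∈ A, ∀ z, D ≤ ‖P 0 - g z‖) → ‖fderiv ℝ P 0‖ * D ^ ε ≤ B := by
  obtain ⟨C, C1, s0, c0, r, c1, K⟩ := exists_Kst hG hZ hS hNT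
  have hc0 := K.c00
  obtain ⟨A, hA, hA2⟩ := finite_class hG (hZ c0 hc0) K.cd.cls
  refine ⟨c0, hc0, A, hA, fun f hf hfT hnc => ?_, fun P hP hPT hper => ?_, fun ε hε => ?_⟩
  · have hall : ∀ z, ∃ φ, BCw T c0 φ ∧ f z = φ 0 := by
      by_contra hcon
      push Not at hcon
      obtain ⟨z, hz⟩ := hcon
      have hpos : 0 < DD r (BCw T c0) (ee r c0 c1) (f z) := K.cd.DD_pos hz
      obtain ⟨h', hs⟩ := exists_SQs hS.dat K.cd.df (K.ge.ge K.C0) K.h0 K.h1 hf hfT hnc ⟨z, hpos⟩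
      exact hs.false hG (hZ c0 hc0) K.cd hS.dat K.C0 (K.ge.ge K.C0) K.h0 K.h1 K.C2 K.C10 K.b1 K.cc
    obtain ⟨b, hb, s, hs, hfs⟩ := K.cd.lift hf hnc hall
    obtain ⟨g, hg, α, β, hgb⟩ := hA2 b hb
    exact ⟨g, hg, fun z => α * s z + β, (hs.const_mul α).add_const β, fun z => by
      rw [hfs z, hgb]⟩
  · rcases K.picard hP hPT hper with h | ⟨b, hb, s, hs, hfs⟩
    · exact Or.inl h
    · obtain ⟨g, hg, α, β, hgb⟩ := hA2 b hb
      exact Or.inr ⟨g, hg, fun z => α * s z + β, (hs.const_mul α).add_const β, fun z hz => by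
        rw [hfs z hz, hgb]⟩
  · obtain ⟨B, hB, hB2⟩ := K.inf_estimate hε
    refine ⟨B, hB, fun P hP hPT D hD0 hD1 hD => hB2 P hP hPT D hD0 hD1 ?_⟩
    rintro M ⟨φ, hφ, rfl⟩
    obtain ⟨g, hg, α, β, hgb⟩ := hA2 φ hφ
    rw [hgb]
    exact hD g hg _

variable {n d : ℕ} {ι ι' : Type} {F : ι → MvPolynomial (Fin (n + 1)) ℂ}
  {G : ι' → MvPolynomial (Fin (n + 1)) ℂ} {κ : Type}
  {η : κ → (Fin (n + 1) → ℂ) → (Fin (n + 1) → ℂ) → (Fin (n + 1) → ℂ) → ℂ}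
  {V : Set (ℙ ℂ (Fin (n + 1) → ℂ))}

/-- the cone over `X ∩ V` -/
def CV (F : ι → MvPolynomial (Fin (n + 1)) ℂ) (V : Set (ℙ ℂ (Fin (n + 1) → ℂ))) :
    Set (Fin (n + 1) → ℂ) := {v | v ∈ Cone F ∧ ∀ h : v ≠ 0, Projectivization.mk ℂ v h ∈ V}

theorem mem_CV {p : ℙ ℂ (Fin (n + 1) → ℂ)} : p.rep ∈ CV F V ↔ p.rep ∈ Cone F ∧ p ∈ V := by
  constructor
  · rintro ⟨h1, h2⟩
    refine ⟨h1, ?_⟩
    have := h2 p.rep_nonzero
    rwa [p.mk_rep] at this
  · rintro ⟨h1, h2⟩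
    refine ⟨h1, fun h => ?_⟩
    rwa [p.mk_rep]

theorem CV_univ : CV F (univ : Set (ℙ ℂ (Fin (n + 1) → ℂ))) = Cone F := by
  ext v
  exact ⟨fun h => h.1, fun h => ⟨h, fun _ => mem_univ _⟩⟩

theorem mem_TV_of {p : ℙ ℂ (Fin (n + 1) → ℂ)} (h : p.rep ∈ CV F V) : Phi p.rep ∈ TV F V := by
  obtain ⟨h1, h2⟩ := mem_CV.1 h
  exact ⟨mem_TF h1, by rwa [toProj_Phi_rep]⟩

/-- chains of discs and truncated distances -/
theorem chain_trunc {M0 : Mat (n + 1)} {A ρ : ℝ} (hA : 0 ≤ A)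
    (h : ∀ P : ℂ → Mat (n + 1), HolP (ball 0 1) P → (∀ w ∈ ball (0 : ℂ) 1, P w ∈ TV F V) →
      ∀ s ∈ ball (0 : ℂ) 1, ∀ t ∈ ball (0 : ℂ) 1,
        dist (min ‖P t - M0‖ ρ) (min ‖P s - M0‖ ρ) ≤ A * Pool.Agent.Helper206.cost s t)
    {p q : ℙ ℂ (Fin (n + 1) → ℂ)} {c : ℝ} (hc : IsChainLength (CV F V) p q c) :
    dist (min ‖Phi q.rep - M0‖ ρ) (min ‖Phi p.rep - M0‖ ρ) ≤ A * c := by
  obtain ⟨k, r, f, s, t, h0, hl, hi, rfl⟩ := hc
  have h1 := Pool.Agent.Helper206.chain_bound k (fun j => min ‖Phi (r j).rep - M0‖ ρ)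
    (fun i => A * poincareDist (s i) (t i))
    (by
      intro i
      obtain ⟨-, -, hs, ht, -, -⟩ := hi i
      exact mul_nonneg hA ((Pool.Agent.Helper206.phd_nonneg (s i) (t i)).trans
        (Pool.Agent.Helper206.phd_le_cost hs ht)))
    (by
      intro i
      obtain ⟨hf, hfS, hs, ht, es, et⟩ := hi i
      have := h (fun z => Phi (f i z).rep) (holP_of_on hf) (fun w hw => mem_TV_of (hfS w hw))
        _ hs _ ht
      simp only [es, et, cost_eq] at this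
      exact this) (Fin.last k)
  simp only [h0, hl] at h1
  rw [← Finset.mul_sum] at h1
  exact h1

/-- Lower bounds of the Kobayashi pseudodistance. -/
theorem kob_low {Ξ : Set (Mat (n + 1))} {ε C : ℝ} (hε : 0 < ε) (hC : 0 < C)
    (hinf : ∀ P : ℂ → Mat (n + 1), HolP (ball 0 1) P →
      (∀ w ∈ ball (0 : ℂ) 1, P w ∈ TV F V) → ∀ D : ℝ, 0 ≤ D → D ≤ 1 →
      (∀ M ∈ Ξ, D ≤ ‖P 0 - M‖) → ‖fderiv ℝ P 0‖ * D ^ ε ≤ C) :
    ∃ c : ℝ, 0 < c ∧ ∀ p q : ℙ ℂ (Fin (n + 1) → ℂ), ∀ D : ℝ, 0 ≤ D → D ≤ 1 →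
      (∀ M ∈ Ξ, D ≤ ‖Phi p.rep - M‖) →
      ENNReal.ofReal (c * D ^ ε * min D (projDist p q)) ≤ kobayashi (CV F V) p q := by
  have htr := disc_trunc hε hC hinf
  set A : ℝ := 2 * C * 2 ^ ε + 1 with hA
  have hA0 : 0 < A := by positivity
  refine ⟨A⁻¹ / 2, by positivity, fun p q D hD0 hD1 hD => ?_⟩
  rcases hD0.eq_or_lt with h0 | h0
  · rw [← h0, Real.zero_rpow hε.ne']
    simp
  have hDε : 0 < D ^ ε := Real.rpow_pos_of_pos h0 _
  unfold kobayashi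
  refine le_iInf₂ fun c hc => ENNReal.ofReal_le_ofReal ?_
  have h1 := chain_trunc (F := F) (V := V) (A := A / D ^ ε) (by positivity)
    (htr D h0 hD1 (Phi p.rep) hD) hc
  have h2 : dist (min ‖Phi q.rep - Phi p.rep‖ (D / 2)) (min ‖Phi p.rep - Phi p.rep‖ (D / 2)) =
      min ‖Phi q.rep - Phi p.rep‖ (D / 2) := by
    rw [sub_self, norm_zero, min_eq_left (show (0 : ℝ) ≤ D / 2 by positivity), Real.dist_eq,
      sub_zero, abs_of_nonneg (by positivity)]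
  rw [h2] at h1
  have h3 : min D (projDist p q) / 2 ≤ min ‖Phi q.rep - Phi p.rep‖ (D / 2) := by
    have e1 : projDist p q = ‖Phi q.rep - Phi p.rep‖ := norm_sub_rev _ _
    rw [← e1]
    have e2 : 0 ≤ projDist p q := norm_nonneg _
    apply le_min
    · have := min_le_right D (projDist p q)
      have := min_le_left D (projDist p q)
      have : 0 ≤ min D (projDist p q) := le_min hD0 e2
      linarith
    · have := min_le_left D (projDist p q)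
      linarith
  calc A⁻¹ / 2 * D ^ ε * min D (projDist p q) = A⁻¹ * D ^ ε * (min D (projDist p q) / 2) := by ring
    _ ≤ A⁻¹ * D ^ ε * (A / D ^ ε * c) :=
        mul_le_mul_of_nonneg_left (h3.trans h1) (by positivity)
    _ = c := by field_simp

/-- **Discs in closed subsets of projective manifolds with positive 2-forms: either there is a
nonconstant curve of bounded derivative which is tangent to all symmetric differentials, or a curve
in the exceptional set whose derivative is bounded above and below, or the pseudo-Picard, the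
pseudo-Brody and the pseudo-Kobayashi property hold with finitely many elliptic curves.** -/
theorem disc_or_tangent (hX : ProjManifold F d) (hG : ∀ i, IsForm (G i))
    (hη : PositiveTwoForms (Cone F) (Cone G) d η) (hV : ClosedSet V) :
    (∃ f : ℂ → ℙ ℂ (Fin (n + 1) → ℂ), EntireIn F V f ∧ (∃ C, DerBetween 0 C f) ∧
      ∀ k, 0 < k → ∀ σ, SymDiff (Cone F) d k σ → TangentTo σ f) ∨
    (∃ f : ℂ → ℙ ℂ (Fin (n + 1) → ℂ), EntireIn F V f ∧ (∀ z, (f z).rep ∈ Cone G) ∧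
      ∃ c C, 0 < c ∧ DerBetween c C f) ∨
    ∃ S : Finset (ℂ → ℙ ℂ (Fin (n + 1) → ℂ)), (∀ g ∈ S, EntireIn F V g ∧ DoublyPeriodic g) ∧
      (∀ f, EntireIn F V f → ∃ g ∈ S, ∃ s : ℂ → ℂ, Differentiable ℂ s ∧ ∀ z, f z = g (s z)) ∧
      (∀ f, PunctIn F f → (∀ z ∈ PDisc, f z ∈ V) → Extends F f ∨
        ∃ g ∈ S, ∃ s : ℂ → ℂ, DifferentiableOn ℂ s {z | z.re < 0} ∧
          ∀ z : ℂ, z.re < 0 → f (Complex.exp z) = g (s z)) ∧
      ∀ ε : ℝ, 0 < ε → ∃ c : ℝ, 0 < c ∧ ∀ p q : ℙ ℂ (Fin (n + 1) → ℂ), ∀ D : ℝ, 0 ≤ D → D ≤ 1 →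
        (∀ g ∈ S, ∀ z, D ≤ projDist p (g z)) →
        ENNReal.ofReal (c * D ^ ε * min D (projDist p q)) ≤ kobayashi (CV F V) p q := by
  classical
  rw [or_iff_not_imp_left]
  intro hno
  rw [or_iff_not_imp_left]
  intro hno2
  obtain ⟨A, hA, hw⟩ := wedge_fderiv n
  have hcl := isClosed_TV hX.form hV
  have hsub : TV F V ⊆ TF F := fun M hM => hM.1
  have hgw := gw_mono (gw_of hX hG hη) hsub
  have hback : ∀ {φ : ℂ → Mat (n + 1)}, HolP univ φ → (∀ z, φ z ∈ TV F V) →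
      HolIn F (fun z => toProj (φ z)) ∧ (∀ z, toProj (φ z) ∈ V) := fun hφ hφT =>
    ⟨⟨holMap_of hφ, fun z => rep_toProj hX.form (hφT z).1⟩, fun z => (hφT z).2⟩
  have hphi : ∀ {φ : ℂ → Mat (n + 1)}, (∀ z, φ z ∈ TV F V) →
      (fun z => Phi (toProj (φ z)).rep) = φ := fun hφ =>
    funext fun z => Phi_rep_toProj (TF_PM (hφ z).1)
  have hder : ∀ {φ : ℂ → Mat (n + 1)}, HolP univ φ → (∀ z, φ z ∈ TV F V) → ∀ c C : ℝ,
      (∀ z, c ≤ ‖fderiv ℝ φ z‖) → (∀ z, ‖fderiv ℝ φ z‖ ≤ C) →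
      DerBetween (c / A) (A * C) (fun z => toProj (φ z)) := by
    intro φ hφ hφT c C hc hC W g hW hg hfg z hz
    obtain ⟨h1, h2⟩ := hw _ (hback hφ hφT).1.1 W g hW hg hfg z hz
    rw [hphi hφT] at h1 h2
    have hS := (sum_pos (hfg z hz).1).le
    constructor
    · rw [div_mul_eq_mul_div, div_le_iff₀ hA, mul_comm (wedge _ _)]
      exact (mul_le_mul_of_nonneg_right (hc z) hS).trans h1
    · exact h2.trans (mul_le_mul_of_nonneg_right (mul_le_mul_of_nonneg_left (hC z) hA.le) hS)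
  have hnonc : ∀ {φ : ℂ → Mat (n + 1)} {c0 : ℝ}, 0 < c0 → BCw (TV F V) c0 φ →
      EntireIn F V (fun z => toProj (φ z)) ∧
        ∃ c C, 0 < c ∧ DerBetween c C (fun z => toProj (φ z)) := by
    intro φ c0 hc0 hφ
    obtain ⟨h1, h2⟩ := hback hφ.hol hφ.mem
    have h3 := hder hφ.hol hφ.mem c0 2 hφ.low hφ.bd
    have h4 : 0 < c0 / A := by positivity
    exact ⟨⟨h1, h2, nonconst_of_below h4 h3⟩, _, _, h4, h3⟩
  have hout : ∀ c0, 0 < c0 → ∀ φ, BCw (TV F V) c0 φ → ∃ z, φ z ∉ TF G := by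
    intro c0 hc0 φ hφ
    by_contra hcon
    push Not at hcon
    exact hno2 ⟨_, (hnonc hc0 hφ).1, fun z => rep_toProj hG (hcon z), (hnonc hc0 hφ).2⟩
  -- the symmetric differentials
  set I : Type := {p : ℕ × ((Fin (n + 1) → ℂ) → (Fin (n + 1) → ℂ) → ℂ) //
    0 < p.1 ∧ SymDiff (Cone F) d p.1 p.2} with hI
  have hfam : SFam F d (fun i : I => i.1.1) (fun i : I => i.1.2) :=
    ⟨fun i => i.2.1, fun i => i.2.2⟩
  obtain ⟨K, m, τ, hK, hτ, hNT⟩ := hfam.reduce hX hcl hsub (by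
    intro P hP hPT hPb hPS z
    by_contra hne
    apply hno
    obtain ⟨h1, h2⟩ := hback hP hPT
    refine ⟨_, ⟨h1, h2, ⟨z, fun heq => hne ?_⟩⟩, ⟨A * 2, ?_⟩, ?_⟩
    · have h3 : Phi (toProj (P z)).rep = Phi (toProj (P 0)).rep := by rw [heq]
      rwa [Phi_rep_toProj (TF_PM (hPT z).1), Phi_rep_toProj (TF_PM (hPT 0).1)] at h3
    · have h3 := hder hP hPT 0 2 (fun z => norm_nonneg _) hPb
      rwa [zero_div] at h3
    · intro k hk σ hσ W g hW hg hfg w hwW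
      obtain ⟨i, hi, h3⟩ := sv_lift hX hσ h1 hW hg hfg hwW
      rw [hphi hPT] at h3
      have hi' : P w i i ≠ 0 := by
        have h4 : Phi (toProj (P w)).rep = P w := congrFun (hphi hPT) w
        rwa [h4] at hi
      rw [h3, sv_indep hX hσ hP (fun z => (hPT z).1) (idx_ne (TF_PM (hPT w).1)) hi']
      exact hPS ⟨(k, σ), hk, hσ⟩ w)
  have hS := sdl_of hX hK hτ hcl hsub
  obtain ⟨c0, hc0, B, hB, hB2, hB3, hB4⟩ := disc_curves hgw hout hS hNT
  have hcls := BCw.cls hS.comp hS.sub hc0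
  refine ⟨B.image fun φ z => toProj (φ z), fun g hg => ?_, fun f hf => ?_, fun f hf hfV => ?_,
    fun ε hε => ?_⟩
  · obtain ⟨φ, hφ, rfl⟩ := Finset.mem_image.1 hg
    have h1 := hB φ hφ
    obtain ⟨p, q, hind, hp, hq⟩ := two_periods hgw (hout c0 hc0) hcls h1
    obtain ⟨L, hL⟩ := pair_periods hind hp hq
    exact ⟨(hnonc hc0 h1).1, L, fun l hl z => by
        change toProj (φ (z + l)) = toProj (φ z)
        rw [hL l hl z]⟩
  · obtain ⟨φ, hφ, s, hs, hfs⟩ := hB2 (fun z => Phi (f z).rep) (holP_of_map hf.1.1)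
      (fun z => ⟨mem_TF (hf.1.2 z), by
        rw [toProj_Phi_rep]
        exact hf.2.1 z⟩) (by
        obtain ⟨z, hz⟩ := hf.2.2
        exact ⟨z, fun h => hz (proj_ext h)⟩)
    exact ⟨_, Finset.mem_image_of_mem _ hφ, s, hs, fun z => by
      rw [← hfs z, toProj_Phi_rep]⟩
  · set Q : ℂ → Mat (n + 1) := fun z => Phi (f z).rep with hQ
    have hQh : HolP PDisc Q := holP_of_on hf.1
    have hQT : ∀ z ∈ PDisc, Q z ∈ TV F V := fun z hz => mem_TV_of (mem_CV.2 ⟨hf.2 z hz, hfV z hz⟩)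
    set P : ℂ → Mat (n + 1) := fun z => Q (Complex.exp z) with hPdef
    have hP : HolP HP P := holP_comp_l hQh Complex.differentiable_exp.differentiableOn isOpen_HP
      (fun z hz => exp_mem_PDisc hz)
    have hPT : ∀ z ∈ HP, P z ∈ TV F V := fun z hz => hQT _ (exp_mem_PDisc hz)
    have hper : ∀ z ∈ HP, P (z + tpi) = P z := by
      intro z _
      change Q (Complex.exp (z + tpi)) = Q (Complex.exp z)
      rw [show Complex.exp (z + tpi) = Complex.exp z from Complex.exp_periodic z]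
    rcases hB3 P hP hPT hper with ⟨M0, hM0, hlim⟩ | ⟨φ, hφ, s, hs, hfs⟩
    · left
      have hQext := holP_remove hQh (TF_PM (hsub hM0)) (by
        intro ε hε
        obtain ⟨A, hA, hA'⟩ := hlim ε hε
        refine ⟨Real.exp (-A), Real.exp_pos _, fun z hz hzA => ?_⟩
        obtain ⟨h1, h2⟩ := log_mem_HP hz
        have h3 := hA' (Complex.log z) (by
          rw [Complex.log_re]
          rw [← Real.log_exp (-A)]
          exact Real.log_le_log (norm_pos_iff.2 hz.2) hzA.le)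
        change ‖Q (Complex.exp (Complex.log z)) - M0‖ ≤ ε at h3
        rwa [h2] at h3)
      refine ⟨_, holMapOn_of hQext, fun z hz => rep_toProj hX.form ?_, fun z hz => ?_⟩
      · by_cases h0 : z = 0
        · rw [if_pos h0]
          exact hsub hM0
        · rw [if_neg h0]
          exact hsub (hQT z ⟨hz, h0⟩)
      · have h0 : z ≠ 0 := hz.2
        rw [if_neg h0]
        exact toProj_Phi_rep _
    · right
      refine ⟨_, Finset.mem_image_of_mem _ hφ, s, hs, fun z hz => ?_⟩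
      have h1 := hfs z hz
      change Q (Complex.exp z) = φ (s z) at h1
      change f (Complex.exp z) = toProj (φ (s z))
      rw [← h1]
      exact (toProj_Phi_rep _).symm
  · obtain ⟨C, hC, hinf⟩ := hB4 ε hε
    obtain ⟨c, hc, hkob⟩ := kob_low (F := F) (V := V)
      (Ξ := {M | ∃ g ∈ B, ∃ z, M = g z}) hε hC (by
        intro P hP hPT D hD0 hD1 hD
        exact hinf P hP hPT D hD0 hD1 fun g hg z => hD _ ⟨g, hg, z, rfl⟩)
    refine ⟨c, hc, fun p q D hD0 hD1 hD => hkob p q D hD0 hD1 ?_⟩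
    rintro M ⟨g, hg, z, rfl⟩
    have h1 := hD _ (Finset.mem_image_of_mem _ hg) z
    have h2 : Phi (toProj (g z)).rep = g z := congrFun (hphi (hB g hg).mem) z
    unfold projDist at h1
    rwa [h2] at h1

end Pool.Agent.H918.SD
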