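import Pool.Agent.H918.C.CPv
import Pool.Graph.R_pool_sql_team_seeded_63374d34.N154.DD.Kob

/-! The infinitesimal estimate for discs. (After the file `N154/DD/Kob.lean` of an earlier team.) -/

set_option autoImplicit false

open Filter Topology Metric Set

namespace Pool.Agent.H918.SD

open Pool.Agent.Y190.OP Pool.Agent.N155
open Pool.Agent.N155.BB (GW RG BCw)
open Pool.Agent.N154.GG (UU uu_ge qk qk_ge doubling path_le holP_comp_l)

/-- the lower bound of the product by the distance to the leaves -/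
theorem CD.DD_dist {N : ℕ} {T : Set (Mat N)} {c0 r c1 : ℝ} {𝒞 : (ℂ → Mat N) → Prop}
    (h : CD T c0 𝒞 r c1) : ∃ M : ℕ, ∀ x ∈ T, ∀ D : ℝ, 0 ≤ D → D ≤ 1 →
      (∀ φ, 𝒞 φ → D ≤ ‖x - φ 0‖) → (D / 3) ^ M ≤ DD r 𝒞 (ee r c0 c1) x := by
  classical
  have hε := h.ee_pos
  have hρ := h.rr_pos
  have hε1 : ee r c0 c1 ≤ 1 := min_le_right _ _
  choose B hB using h.exists_nb
  obtain ⟨t, -, hcov⟩ := h.cls.comp.elim_nhds_subcover (fun x0 => ball x0 (ee r c0 c1))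
    (fun x0 _ => ball_mem_nhds x0 hε)
  refine ⟨t.sup fun x0 => (B x0).card, fun x hx D hD0 hD1 hD => ?_⟩
  obtain ⟨x0, hx0, hxx⟩ := mem_iUnion₂.1 (hcov hx)
  rw [mem_ball, dist_eq_norm] at hxx
  refine le_trans ?_ (h.DD_lower (hB x0) hxx.le)
  have h3 : 0 ≤ D / 3 := by positivity
  calc (D / 3) ^ (t.sup fun x0 => (B x0).card) ≤ (D / 3) ^ (B x0).card :=
        pow_le_pow_of_le_one h3 (by linarith)
          (Finset.le_sup (f := fun x0 => (B x0).card) hx0)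
    _ = ∏ _b ∈ B x0, D / 3 := by rw [Finset.prod_const]
    _ ≤ ∏ b ∈ B x0, dl b (rr r c0) x / (3 * ee r c0 c1) := by
        refine Finset.prod_le_prod (fun _ _ => h3) fun b hb => ?_
        obtain ⟨β, hβ, h1⟩ := dl_spec (h.cls.cont ((hB x0).mem b hb)) hρ.le x
        have h2 := hD _ (h.cls.shift b ((hB x0).mem b hb) β)
        rw [add_zero] at h2
        rw [h1]
        exact div_le_div₀ (norm_nonneg _) h2 (by positivity) (by linarith)

variable {N : ℕ} {T Z : Set (Mat N)} {κ : Type}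
  {ω : κ → (Fin N → ℂ) → (Fin N → ℂ) → (Fin N → ℂ) → ℂ} {k m' : ℕ}
  {S : (ℂ → Mat N) → ℂ → Fin m' → ℂ} {C C1 s0 c0 r c1 : ℝ}

/-- the union of the curves of the class -/
def Lv (T : Set (Mat N)) (c0 : ℝ) : Set (Mat N) := {M | ∃ φ, BCw T c0 φ ∧ M = φ 0}

/-- **The infinitesimal estimate** -/
theorem Kst.inf_estimate (K : Kst T Z ω k S C C1 s0 c0 r c1) {ε : ℝ} (hε : 0 < ε) :
    ∃ B : ℝ, 0 < B ∧ ∀ P : ℂ → Mat N, HolP (ball 0 1) P →
      (∀ w ∈ ball (0 : ℂ) 1, P w ∈ T) → ∀ D : ℝ, 0 ≤ D → D ≤ 1 →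
      (∀ M ∈ Lv T c0, D ≤ ‖P 0 - M‖) → ‖fderiv ℝ P 0‖ * D ^ ε ≤ B := by
  obtain ⟨k0, hk0⟩ := K.main_estimate
  obtain ⟨M, hM⟩ := K.cd.DD_dist
  set n : ℕ := max k0 ⌈(M : ℝ) / ε⌉₊ with hn
  obtain ⟨B2, hB2, hmain⟩ := hk0 n (le_max_left _ _)
  have hqpos : 0 < (qk n : ℝ) := by
    exact_mod_cast Nat.pos_of_ne_zero (qk_ne n)
  have hrq : (M : ℝ) * ((qk n : ℕ) : ℝ)⁻¹ ≤ ε := by
    rw [← div_eq_mul_inv, div_le_iff₀ hqpos]
    have h1 : (M : ℝ) / ε ≤ (qk n : ℝ) := by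
      have h2 : (M : ℝ) / ε ≤ (n : ℝ) :=
        (Nat.le_ceil _).trans (by exact_mod_cast le_max_right _ _)
      have h3 : (n : ℝ) ≤ (qk n : ℝ) := by exact_mod_cast qk_ge n
      linarith
    rw [div_le_iff₀ hε] at h1
    linarith
  have hC := K.C0
  refine ⟨C * (B2 * 3 ^ ε + 1), by positivity, fun P hP hPT D hD0 hD1 hDM => ?_⟩
  have hDsc : Ds T 0 1 P := ⟨hP, hPT⟩
  have h1 := K.ge P 0 1 one_pos hDsc
  have h2 := hmain P 0 1 one_pos hDsc
  rw [div_one] at h1 h2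
  set s := sk k (S P) 0 with hs
  have hs0 : 0 ≤ s := sk_nn _ _ 0
  set q : ℝ := ((qk n : ℕ) : ℝ)⁻¹ with hq
  have hq0 : 0 < q := inv_pos.2 hqpos
  have hX0 := K.Dd_nn (P 0)
  set X := Dd T c0 r c1 (P 0) with hX
  have h3 : (D / 3) ^ M ≤ X := hM (P 0) (hPT 0 (mem_ball_self one_pos)) D hD0 hD1 fun φ hφ =>
    hDM _ ⟨φ, hφ, rfl⟩
  have h4 : D ^ ε ≤ 3 ^ ε * X ^ q := by
    have e1 : D ^ ε ≤ D ^ ((M : ℝ) * q) :=
      Real.rpow_le_rpow_of_exponent_ge_of_imp hD0 hD1 hrq (fun h0 h00 => by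
        exact absurd h00 hε.ne')
    have e2 : D ^ ((M : ℝ) * q) = 3 ^ ((M : ℝ) * q) * ((D / 3) ^ M) ^ q := by
      rw [Real.rpow_mul hD0, Real.rpow_natCast,
        Real.rpow_mul (by norm_num : (0 : ℝ) ≤ 3), Real.rpow_natCast,
        ← Real.mul_rpow (by positivity) (by positivity), ← mul_pow,
        mul_div_cancel₀ _ (by norm_num)]
    have e3 : (3 : ℝ) ^ ((M : ℝ) * q) ≤ 3 ^ ε :=
      Real.rpow_le_rpow_of_exponent_le (by norm_num) hrq
    have e4 : ((D / 3) ^ M) ^ q ≤ X ^ q := Real.rpow_le_rpow (by positivity) h3 hq0.le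
    rw [e2] at e1
    refine e1.trans ?_
    exact mul_le_mul e3 e4 (by positivity) (by positivity)
  have h5 : D ^ ε ≤ 1 := Real.rpow_le_one hD0 hD1 hε.le
  have hDε : 0 ≤ D ^ ε := Real.rpow_nonneg hD0 _
  have hp : 0 ≤ X ^ q := Real.rpow_nonneg hX0 _
  calc ‖fderiv ℝ P 0‖ * D ^ ε ≤ (C * max s 1) * D ^ ε := mul_le_mul_of_nonneg_right h1 hDε
    _ ≤ (C * (s + 1)) * D ^ ε := by
        have : max s 1 ≤ s + 1 := max_le (by linarith) (by linarith)
        gcongr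
    _ = C * (s * D ^ ε + D ^ ε) := by ring
    _ ≤ C * (s * (3 ^ ε * X ^ q) + 1) := by gcongr
    _ = C * ((s * X ^ q) * 3 ^ ε + 1) := by ring
    _ ≤ C * (B2 * 3 ^ ε + 1) := by gcongr

/-- the estimate of the truncated distance along a disc -/
theorem disc_trunc {T Ξ : Set (Mat N)} {ε C : ℝ} (hε : 0 < ε) (hC : 0 < C)
    (hinf : ∀ P : ℂ → Mat N, HolP (ball 0 1) P →
      (∀ w ∈ ball (0 : ℂ) 1, P w ∈ T) → ∀ D : ℝ, 0 ≤ D → D ≤ 1 →
      (∀ M ∈ Ξ, D ≤ ‖P 0 - M‖) → ‖fderiv ℝ P 0‖ * D ^ ε ≤ C) :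
    ∀ (D : ℝ), 0 < D → D ≤ 1 → ∀ M0 : Mat N,
      (∀ M ∈ Ξ, D ≤ ‖M0 - M‖) → ∀ P : ℂ → Mat N, HolP (ball 0 1) P →
      (∀ w ∈ ball (0 : ℂ) 1, P w ∈ T) → ∀ s ∈ ball (0 : ℂ) 1, ∀ t ∈ ball (0 : ℂ) 1,
      dist (min ‖P t - M0‖ (D / 2)) (min ‖P s - M0‖ (D / 2)) ≤
        (2 * C * 2 ^ ε + 1) / D ^ ε * Pool.Agent.Helper206.cost s t := by
  intro D hD0 hD1 M0 hM0 P hP hPT s hs t ht
  obtain ⟨ζ, hζ, hζn, hζt⟩ := Pool.Agent.Helper206.exists_mob_eq hs ht
  have hmap : MapsTo (Pool.Agent.Helper206.mob s) (ball 0 1) (ball 0 1) := fun z hz =>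
    Pool.Agent.Helper206.mob_mem hs hz
  set h : ℂ → Mat N := fun z => P (Pool.Agent.Helper206.mob s z) with hh
  have hH : HolP (ball 0 1) h :=
    holP_comp_l hP (Pool.Agent.Helper206.mob_differentiableOn hs) isOpen_ball hmap
  have hHT : ∀ z ∈ ball (0 : ℂ) 1, h z ∈ T := fun z hz => hPT _ (hmap hz)
  have hdh : ∀ z ∈ ball (0 : ℂ) 1, DifferentiableAt ℝ h z := fun z hz => hH.differentiableAt hz
  have h0 : h 0 = P s := by rw [hh]; simp only [Pool.Agent.Helper206.mob_zero]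
  have h1 : h ζ = P t := by rw [hh]; simp only [hζt]
  rw [← h0, ← h1]
  clear_value h
  have hDε : 0 < D ^ ε := Real.rpow_pos_of_pos hD0 _
  have hDε1 : D ^ ε ≤ 1 := Real.rpow_le_one hD0.le hD1 hε.le
  have hcost : ‖ζ‖ ≤ Pool.Agent.Helper206.cost s t := by
    rw [hζn]; exact Pool.Agent.Helper206.phd_le_cost hs ht
  suffices dist (min ‖h ζ - M0‖ (D / 2)) (min ‖h 0 - M0‖ (D / 2)) ≤
      (2 * C * 2 ^ ε + 1) / D ^ ε * ‖ζ‖ from
    this.trans (mul_le_mul_of_nonneg_left hcost (by positivity))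
  have hK1 : 1 ≤ (2 * C * 2 ^ ε + 1) / D ^ ε := by
    rw [le_div_iff₀ hDε]
    have : 0 ≤ 2 * C * 2 ^ ε := by positivity
    linarith
  rcases le_or_gt ‖ζ‖ (1 / 2) with hle | hgt
  · set L : ℝ := 2 * C * 2 ^ ε / D ^ ε * ‖ζ‖ with hL
    have hL0 : 0 ≤ L := by positivity
    have hder : ∀ z ∈ closedBall (0 : ℂ) (1 / 2), ‖h z - M0‖ ≤ D / 2 →
        ‖fderiv ℝ h z‖ ≤ 2 * C * 2 ^ ε / D ^ ε := by
      intro z hz hzM
      have hz' : ‖z‖ ≤ 1 / 2 := mem_closedBall_zero_iff.1 hz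
      have hz1 : z ∈ ball (0 : ℂ) 1 := mem_ball_zero_iff.2 (by linarith)
      have hmaps : MapsTo (fun w : ℂ => z + ((1 / 2 : ℝ) : ℂ) * w) (ball 0 1) (ball 0 1) := by
        intro w hw
        rw [mem_ball_zero_iff] at hw ⊢
        refine lt_of_le_of_lt (norm_add_le _ _) ?_
        rw [norm_mul, Complex.norm_real, Real.norm_of_nonneg (by norm_num)]
        linarith
      have h2 := hinf (fun w => h (z + ((1 / 2 : ℝ) : ℂ) * w))
        (holP_comp_l hH (by fun_prop) isOpen_ball hmaps) (fun w hw => hHT _ (hmaps hw)) (D / 2)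
        (by positivity) (by linarith) (by
          intro M hM
          simp only [mul_zero, add_zero]
          have h3 := hM0 M hM
          have h4 : ‖M0 - M‖ ≤ ‖h z - M0‖ + ‖h z - M‖ := by
            have := norm_sub_le (h z - M) (h z - M0)
            rw [sub_sub_sub_cancel_left] at this
            linarith
          linarith)
      have h3 : ‖fderiv ℝ (fun w => h (z + ((1 / 2 : ℝ) : ℂ) * w)) 0‖ =
          (1 / 2) * ‖fderiv ℝ h z‖ := by
        have e1 : Pool.Agent.Y190.OP.aff z (1 / 2) 0 = z := by simp [Pool.Agent.Y190.OP.aff]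
        have := norm_fderiv_aff (Ψ := h) (a := z) (ρ := 1 / 2) (z := 0) (by norm_num)
          (by rw [e1]; exact hH.differentiableAt hz1)
        rw [e1] at this
        rw [← this]
        congr 1
      rw [h3] at h2
      have h4 : (D / 2) ^ ε = D ^ ε / 2 ^ ε := Real.div_rpow hD0.le (by norm_num) _
      rw [h4] at h2
      rw [le_div_iff₀ hDε]
      have h5 : 1 / 2 * ‖fderiv ℝ h z‖ * (D ^ ε / 2 ^ ε) * (2 * 2 ^ ε) ≤ C * (2 * 2 ^ ε) :=
        mul_le_mul_of_nonneg_right h2 (by positivity)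
      have h6 : 1 / 2 * ‖fderiv ℝ h z‖ * (D ^ ε / 2 ^ ε) * (2 * 2 ^ ε) =
          ‖fderiv ℝ h z‖ * D ^ ε := by
        field_simp
      linarith
    have hpath : ∀ z ∈ closedBall (0 : ℂ) (1 / 2), ∀ w ∈ closedBall (0 : ℂ) (1 / 2),
        ‖w - z‖ = ‖ζ‖ → min ‖h w - M0‖ (D / 2) ≤ min ‖h z - M0‖ (D / 2) + L := by
      intro z hz w hw hzw
      have hseg : ∀ u ∈ Icc (0 : ℝ) 1, z + (u : ℂ) * (w - z) ∈ closedBall (0 : ℂ) (1 / 2) := by
        intro u hu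
        have := (convex_closedBall (0 : ℂ) (1 / 2)).add_smul_sub_mem hz hw hu
        rwa [Complex.real_smul] at this
      have h2 := path_le (H := fun u : ℝ => h (z + (u : ℂ) * (w - z)))
        (H' := fun u : ℝ => fderiv ℝ h (z + (u : ℂ) * (w - z)) (w - z)) (M0 := M0) (ρ := D / 2)
        hL0 (fun u hu => by
          have e1 : HasDerivAt (fun u : ℝ => z + (u : ℂ) * (w - z)) (w - z) u := by
            have := ((Complex.ofRealCLM.hasDerivAt (x := u)).mul_const (w - z)).const_add z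
            simpa using this
          have e2 : HasFDerivAt h (fderiv ℝ h (z + (u : ℂ) * (w - z))) (z + (u : ℂ) * (w - z)) :=
            (hdh _ (closedBall_subset_ball (by norm_num) (hseg u hu))).hasFDerivAt
          exact HasFDerivAt.comp_hasDerivAt u e2 e1)
        (fun u hu hub => by
          refine (ContinuousLinearMap.le_opNorm _ _).trans ?_
          rw [hzw, hL]
          exact mul_le_mul_of_nonneg_right (hder _ (hseg u hu) hub) (norm_nonneg _))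
      simp only [Complex.ofReal_one, one_mul, Complex.ofReal_zero, zero_mul, add_zero,
        add_sub_cancel] at h2
      exact h2
    have hζc : ζ ∈ closedBall (0 : ℂ) (1 / 2) := mem_closedBall_zero_iff.2 hle
    have h0c : (0 : ℂ) ∈ closedBall (0 : ℂ) (1 / 2) := mem_closedBall_self (by norm_num)
    have e1 := hpath 0 h0c ζ hζc (by rw [sub_zero])
    have e2 := hpath ζ hζc 0 h0c (by rw [zero_sub, norm_neg])
    have e3 : L ≤ (2 * C * 2 ^ ε + 1) / D ^ ε * ‖ζ‖ := by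
      rw [hL]
      gcongr
      linarith
    rw [Real.dist_eq, abs_le]
    constructor <;> linarith
  · have h2 : ∀ M : Mat N, 0 ≤ min ‖M - M0‖ (D / 2) := fun M => le_min (norm_nonneg _) (by positivity)
    have h3 : ∀ M : Mat N, min ‖M - M0‖ (D / 2) ≤ 1 / 2 := fun M =>
      (min_le_right _ _).trans (by linarith)
    have h4 : 1 / 2 ≤ (2 * C * 2 ^ ε + 1) / D ^ ε * ‖ζ‖ := by
      nlinarith
    rw [Real.dist_eq, abs_le]
    constructor
    · linarith [h2 (h ζ), h3 (h 0)]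
    · linarith [h2 (h 0), h3 (h ζ)]

end Pool.Agent.H918.SD
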