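import Pool.Agent.H918.C.PDv
import Pool.Agent.H918.A.Dst2

/-! The distance to a disc of a leaf, along discs. -/

set_option autoImplicit false

open Filter Topology Metric Set MvPolynomial

namespace Pool.Agent.H918.SD

open Pool.Agent.Y190.OP Pool.Agent.N155
open Pool.Agent.N155.BB (lip_chart an_chart deriv_chart_ne)

variable {N : ℕ} {T : Set (Mat N)} {c0 : ℝ} {𝒞 : (ℂ → Mat N) → Prop} {r c1 : ℝ}
variable {φ ψ χ : ℂ → Mat N} {ρ ρ' : ℝ}

/-- **The distance to a disc is comparable to holomorphic functions.** -/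
theorem CD.pdv_leaf (h : CD T c0 𝒞 r c1) (hφ : 𝒞 φ) (hρ : 0 < ρ) (hρr : ρ ≤ r) {x0 : Mat N}
    (hint : ∀ β : ℂ, ‖β‖ ≤ ρ → x0 = φ β → ‖β‖ < ρ) : PDv (dl φ ρ) x0 := by
  have hrp := h.rpos
  have hc1 := h.cpos
  have hcont := h.cls.cont hφ
  have hcomp : IsCompact (φ '' closedBall 0 ρ) := (isCompact_closedBall (0 : ℂ) ρ).image hcont
  have hne : (φ '' closedBall 0 ρ).Nonempty := ⟨φ 0, 0, mem_closedBall_self hρ.le, rfl⟩
  by_cases hx0 : x0 ∈ φ '' closedBall 0 ρ
  swap
  · -- away from the disc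
    have hpos : 0 < infDist x0 (φ '' closedBall 0 ρ) :=
      (hcomp.isClosed.notMem_iff_infDist_pos hne).1 hx0
    set δ := infDist x0 (φ '' closedBall 0 ρ) with hδ
    refine PDv.one (O' := ball x0 (δ / 2)) (c' := δ / 2) (C' := δ + δ / 2) isOpen_ball
      (mem_ball_self (by positivity)) (by positivity) (by positivity) fun M hM _ => ?_
    rw [mem_ball] at hM
    have h1 := infDist_le_infDist_add_dist (s := φ '' closedBall 0 ρ) (x := x0) (y := M)
    have h2 := infDist_le_infDist_add_dist (s := φ '' closedBall 0 ρ) (x := M) (y := x0)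
    rw [dist_comm] at h1
    unfold dl
    constructor <;> linarith
  obtain ⟨β0, hβ0, rfl⟩ := hx0
  rw [mem_closedBall_zero_iff] at hβ0
  have hβ0' := hint β0 hβ0 rfl
  have hPM : ∀ w, φ w ∈ PM := fun w => h.cls.sub (h.cls.mem _ hφ w)
  have hhol := h.cls.hol _ hφ
  obtain ⟨i, hi⟩ := PM.exists_diag (hPM β0)
  obtain ⟨L, O, hL, hO, hMO, hOi, hlip, -⟩ := lip_chart hi
  have hdne := deriv_chart_ne hhol i hi (h.cls.im hφ β0)
  obtain ⟨a, ha⟩ := Function.ne_iff.1 hdne
  have hdiff0 : ∀ w, φ w i i ≠ 0 → ∀ p, HasDerivAt (fun w => chart i (φ w) p)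
      (deriv (fun w => chart i (φ w)) w p) w := fun w hw p =>
    (hasDerivAt_pi.1 (hhol.diff_chart (mem_univ w) hw).hasDerivAt) p
  have hpiv : deriv (fun w => chart i (φ w) a) β0 ≠ 0 := by
    rw [(hdiff0 β0 hi a).deriv]
    exact ha
  set al : ℝ := ‖deriv (fun w => chart i (φ w) a) β0‖ with hal
  have halpos : 0 < al := norm_pos_iff.2 hpiv
  have hUo : IsOpen {w | φ w i i ≠ 0} :=
    isOpen_ne_fun ((continuous_apply_apply i i).comp hcont) continuous_const
  obtain ⟨ρ1, σ, hρ1, hρρ, hσ, hinv⟩ := loc_inv (l := (hyperfilter ℕ : Filter ℕ))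
    (A := fun _ w => chart i (φ w) a) (A0 := fun w => chart i (φ w) a)
    (U := {w | φ w i i ≠ 0}) (cconv_const fun z hz => (hdiff0 z hz a).continuousAt)
    (z0 := β0) hUo hi ⟨{w | φ w i i ≠ 0}, hUo.mem_nhds hi, Eventually.of_forall fun _ z hz =>
      (hdiff0 z hz a).differentiableAt.differentiableWithinAt⟩ hpiv
    (show 0 < ρ - ‖β0‖ by linarith)
  obtain ⟨-, -, hlow, I, hId, hI⟩ := hinv.exists
  set A0 : ℂ := chart i (φ β0) a with hA0
  have hIA : I A0 = β0 := by
    obtain ⟨k1, k2⟩ := hI A0 (mem_ball_self hσ)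
    have k3 := hlow _ k1 β0 (mem_ball_self hρ1)
    rw [k2, hA0, sub_self, norm_zero] at k3
    have k4 : ‖I A0 - β0‖ ≤ 0 := by
      by_contra hcon
      push Not at hcon
      have : 0 < al / 2 * ‖I A0 - β0‖ := by positivity
      exact absurd k3 (not_le.2 this)
    exact sub_eq_zero.1 (norm_eq_zero.1 (le_antisymm k4 (norm_nonneg _)))
  have hsub : ∀ w ∈ ball β0 ρ1, ‖w‖ ≤ ρ := by
    intro w hw
    rw [mem_ball, dist_eq_norm] at hw
    have := norm_add_le (w - β0) β0
    rw [sub_add_cancel] at this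
    linarith
  obtain ⟨C2, O2, hC2, hO2, hL2⟩ := chart_lip (hPM β0) (nz_of_diag (hPM β0) hi)
  -- the neighbourhood
  have hcc : ContinuousAt (fun x : Mat N => chart i x a) (φ β0) :=
    (continuous_apply a).continuousAt.comp (continuousAt_chart hi)
  have hcI : ContinuousAt I A0 :=
    (hId.differentiableAt (ball_mem_nhds _ hσ)).continuousAt
  have hcK : ContinuousAt (fun x : Mat N => φ (I (chart i x a))) (φ β0) := by
    have h1 : ContinuousAt (fun x : Mat N => I (chart i x a)) (φ β0) :=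
      ContinuousAt.comp (g := I) (f := fun x : Mat N => chart i x a) hcI hcc
    exact hcont.continuousAt.comp h1
  have hK0 : (fun x : Mat N => φ (I (chart i x a))) (φ β0) = φ β0 := by
    change φ (I A0) = φ β0
    rw [hIA]
  have hev1 : ∀ᶠ x in 𝓝 (φ β0), chart i x a ∈ ball A0 σ := hcc.eventually (ball_mem_nhds _ hσ)
  have hev2 : ∀ᶠ x in 𝓝 (φ β0), φ (I (chart i x a)) ∈ O ∩ O2 := by
    apply hcK.eventually
    rw [hK0]
    exact inter_mem (hO.mem_nhds hMO) hO2
  obtain ⟨e, he, heO⟩ := Metric.isOpen_iff.1 hO _ hMO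
  set e' : ℝ := min (e / 2) (c1 * ρ1 / 2) with he'
  have he'0 : 0 < e' := by positivity
  obtain ⟨O', hO's, hO', hMO'⟩ := _root_.mem_nhds_iff.1 ((hev1.and hev2).and
    (inter_mem (inter_mem (hO.mem_nhds hMO) hO2) (ball_mem_nhds _ he'0)))
  refine ⟨O', N, fun p x => chart i x p - chart i (φ (I (chart i x a))) p,
    1 / (N * (L + L * (2 * (2 * L / al))) + 1), C2 + 1, hO', hMO', by positivity, by positivity,
    ?_, ?_⟩
  · intro p U P z _ hP hzU hz
    obtain ⟨⟨k1, k2⟩, ⟨k3, k4⟩, k5⟩ := hO's hz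
    have hPi := hOi _ k3
    have d1 : ∀ q, DifferentiableAt ℂ (fun z => chart i (P z) q) z :=
      differentiableAt_pi.1 (hP.diff_chart hzU hPi)
    have d2 : DifferentiableAt ℂ I (chart i (P z) a) := hId.differentiableAt (isOpen_ball.mem_nhds k1)
    have d3 : DifferentiableAt ℂ (fun z => I (chart i (P z) a)) z :=
      DifferentiableAt.comp (g := I) (f := fun z => chart i (P z) a) z d2 (d1 a)
    have d4 : DifferentiableAt ℂ (fun w => chart i (φ w) p) (I (chart i (P z) a)) :=
      differentiableAt_pi.1 (hhol.diff_chart (mem_univ _) (hOi _ k2.1)) p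
    exact (d1 p).sub (DifferentiableAt.comp (g := fun w => chart i (φ w) p)
      (f := fun z => I (chart i (P z) a)) z d4 d3)
  · intro x hx hxP
    obtain ⟨⟨k1, k2⟩, ⟨k3, k4⟩, k5⟩ := hO's hx
    obtain ⟨k6, k7⟩ := hI _ k1
    set u := I (chart i x a) with hu
    have hxi := hOi _ k3
    constructor
    · -- the lower bound
      obtain ⟨w, hw, hwx⟩ := dl_spec hcont hρ.le x
      have j1 : ‖φ w - φ β0‖ < 2 * e' := by
        have j2 : dl φ ρ x ≤ ‖x - φ β0‖ := dl_le hβ0 x
        rw [hwx] at j2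
        have j3 := norm_sub_le (x - φ β0) (x - φ w)
        rw [sub_sub_sub_cancel_left] at j3
        rw [mem_ball, dist_eq_norm] at k5
        linarith
      have j2 : c1 * ‖w - β0‖ ≤ ‖φ w - φ β0‖ := by
        have := h.inj φ hφ β0 (w - β0) (by
          have := norm_sub_le w β0
          linarith)
        rwa [add_sub_cancel] at this
      have j3 : w ∈ ball β0 ρ1 := by
        rw [mem_ball, dist_eq_norm]
        have : e' ≤ c1 * ρ1 / 2 := min_le_right _ _
        have h1 : c1 * ‖w - β0‖ < c1 * ρ1 := by linarith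
        exact lt_of_mul_lt_mul_left h1 hc1.le
      have j4 : φ w ∈ O := by
        apply heO
        rw [mem_ball, dist_eq_norm]
        have : e' ≤ e / 2 := min_le_left _ _
        linarith
      have j5 : ‖u - w‖ ≤ 2 * L / al * ‖x - φ w‖ := by
        have h1 := hlow u k6 w j3
        rw [k7] at h1
        have h2 := (norm_le_pi_norm (chart i x - chart i (φ w)) a).trans (hlip _ k3 _ j4)
        have h3 : al / 2 * ‖u - w‖ ≤ L * ‖x - φ w‖ := h1.trans h2
        rw [div_mul_eq_mul_div, le_div_iff₀ halpos]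
        linarith
      have j6 : ∀ p, ‖chart i x p - chart i (φ u) p‖ ≤
          (L + L * (2 * (2 * L / al))) * ‖x - φ w‖ := by
        intro p
        have h1 := (norm_le_pi_norm (chart i x - chart i (φ w)) p).trans (hlip _ k3 _ j4)
        have h2 := (norm_le_pi_norm (chart i (φ w) - chart i (φ u)) p).trans (hlip _ j4 _ k2.1)
        have h3 := h.cls.lip hφ u w
        rw [norm_sub_rev w u] at h3
        have h4 : L * ‖φ w - φ u‖ ≤ L * (2 * (2 * L / al * ‖x - φ w‖)) :=
          mul_le_mul_of_nonneg_left (h3.trans (mul_le_mul_of_nonneg_left j5 (by norm_num))) hL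
        have h5 := norm_add_le (chart i x p - chart i (φ w) p)
          (chart i (φ w) p - chart i (φ u) p)
        rw [sub_add_sub_cancel] at h5
        simp only [Pi.sub_apply] at h1 h2
        calc _ ≤ _ := h5
          _ ≤ L * ‖x - φ w‖ + L * (2 * (2 * L / al * ‖x - φ w‖)) :=
            add_le_add h1 (h2.trans h4)
          _ = _ := by ring
      rw [hwx, one_div, inv_mul_le_iff₀ (by positivity)]
      calc ∑ p, ‖chart i x p - chart i (φ u) p‖ ≤
            ∑ _p : Fin N, (L + L * (2 * (2 * L / al))) * ‖x - φ w‖ :=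
            Finset.sum_le_sum fun p _ => j6 p
        _ = N * (L + L * (2 * (2 * L / al))) * ‖x - φ w‖ := by
            rw [Finset.sum_const, Finset.card_univ, Fintype.card_fin, nsmul_eq_mul]
            ring
        _ ≤ _ := mul_le_mul_of_nonneg_right (by linarith) (norm_nonneg _)
    · -- the upper bound
      have h1 := hL2 x ⟨k4, hxP⟩ (φ u) ⟨k2.2, hPM u⟩
      have h2 : ∑ j, ‖qv (X j) (X i) x - qv (X j) (X i) (φ u)‖ =
          ∑ p, ‖chart i x p - chart i (φ u) p‖ := by
        refine Finset.sum_congr rfl fun p _ => ?_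
        rw [chart_eq hxP h1.1, chart_eq (hPM u) h1.2.1]
      rw [h2] at h1
      refine (dl_le (hsub u k6) x).trans (h1.2.2.trans ?_)
      exact mul_le_mul_of_nonneg_right (by linarith) (Finset.sum_nonneg fun _ _ => norm_nonneg _)


/-- **The product is comparable to holomorphic functions.** -/
theorem CD.pdv_DD (h : CD T c0 𝒞 r c1) (x0 : Mat N) : PDv (DD r 𝒞 (ee r c0 c1)) x0 := by
  obtain ⟨B, hB⟩ := h.exists_nb x0
  have hε := h.ee_pos
  have hρ := h.rr_pos
  have hrl := h.rr_le
  have hrp := h.rpos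
  have hc1 := h.cpos
  have hc0 := h.cls.pos
  have h1 : PDv (fun x => ∏ b ∈ B, dl b (rr r c0) x) x0 := by
    apply PDv.prod
    intro b hb
    apply h.pdv_leaf (hB.mem b hb) hρ (by linarith)
    intro β hβ hx
    have h2 := h.inj b (hB.mem b hb) 0 β (by linarith)
    rw [zero_add, ← hx] at h2
    have h3 := (h2.trans (hB.near b hb))
    have h4 := h.ee_le
    have h5 : c1 * ‖β‖ ≤ c1 * (rr r c0 / (4 * (1 + 2 / c0)) / 2) := by linarith
    have h6 := le_of_mul_le_mul_left h5 hc1
    refine h6.trans_lt ?_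
    have h7 : 0 < 2 / c0 := by positivity
    rw [div_div, div_lt_iff₀ (by positivity)]
    nlinarith
  refine h1.congr (O' := ball x0 (ee r c0 c1)) (c' := ((3 * ee r c0 c1) ^ B.card)⁻¹)
    (C' := ((ee r c0 c1) ^ B.card)⁻¹) isOpen_ball (mem_ball_self hε) (by positivity)
    (by positivity) fun M hM _ => ?_
  rw [mem_ball, dist_eq_norm] at hM
  have k1 := h.DD_lower hB hM.le
  have k2 := h.DD_upper hB M
  rw [prod_div_const] at k1 k2
  exact ⟨k1, k2⟩


end Pool.Agent.H918.SD
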