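import Pool.Agent.H918.C.Kobv
import Pool.Agent.H918.A.Lift
import Pool.Graph.R_pool_sql_team_seeded_63374d34.N154.DD.Pic

/-! Curves on a disc or on a half plane, through every point of which there passes a curve of the
class, factor through a curve of the class. -/

set_option autoImplicit false

open Filter Topology Metric Set MvPolynomial

namespace Pool.Agent.H918.SD

open Pool.Agent.Y190.OP Pool.Agent.N155
open Pool.Agent.N154.GG (holP_comp hp_cont ev_const_of_deriv holP_comp_l dich_on holP_dich_on HP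
  isOpen_HP convex_HP)

variable {N : ℕ} {T : Set (Mat N)} {c0 : ℝ} {𝒞 : (ℂ → Mat N) → Prop} {r c1 : ℝ}
variable {f : ℂ → Mat N} {U : Set ℂ}

/-- the zeros of a function comparable to holomorphic functions along a curve -/
theorem PDv.dich {D : Mat N → ℝ} {z0 : ℂ} (hD : PDv D (f z0)) (hU : IsOpen U) (hf : HolP U f)
    (hz0 : z0 ∈ U) :
    (∀ᶠ z in 𝓝 z0, D (f z) = 0) ∨ ∀ᶠ z in 𝓝[≠] z0, D (f z) ≠ 0 := by
  obtain ⟨O, q, g, c, C, hO, hMO, hc, hC, hg, hb⟩ := hD
  have hev : ∀ᶠ z in 𝓝 z0, f z ∈ O := (hf.continuousAt hz0).eventually (hO.mem_nhds hMO)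
  have hevU : ∀ᶠ z in 𝓝 z0, z ∈ U := hU.mem_nhds hz0
  have han : ∀ p, AnalyticAt ℂ (fun z => g p (f z)) z0 := by
    intro p
    rw [Complex.analyticAt_iff_eventually_differentiableAt]
    filter_upwards [hev, hevU] with z hz hzU
    exact hg p U f z hU hf hzU hz
  by_cases hall : ∀ p, ∀ᶠ z in 𝓝 z0, g p (f z) = 0
  · left
    filter_upwards [hev, hevU, eventually_all.2 hall] with z h1 h1' h2
    obtain ⟨k1, k2⟩ := hb _ h1 (hf.mem_PM h1')
    have e : ∑ p, ‖g p (f z)‖ = 0 := Finset.sum_eq_zero fun p _ => by rw [h2 p, norm_zero]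
    rw [e, mul_zero] at k1 k2
    exact le_antisymm k2 k1
  · right
    push Not at hall
    obtain ⟨p, hp⟩ := hall
    have h1 := ((han p).eventually_eq_zero_or_eventually_ne_zero).resolve_left (by
      intro h
      exact (Filter.not_eventually.2 (by simpa using hp)) h)
    filter_upwards [h1, hev.filter_mono nhdsWithin_le_nhds, hevU.filter_mono nhdsWithin_le_nhds]
      with z h2 h3 h3' h4
    obtain ⟨k1, -⟩ := hb _ h3 (hf.mem_PM h3')
    rw [h4] at k1
    have k2 : 0 < ∑ p, ‖g p (f z)‖ :=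
      lt_of_lt_of_le (norm_pos_iff.2 h2)
        (Finset.single_le_sum (f := fun p => ‖g p (f z)‖) (fun _ _ => norm_nonneg _)
          (Finset.mem_univ p))
    have k3 := mul_pos hc k2
    linarith

/-- locally the curve is in a disc of a leaf -/
theorem CD.local_leaf_v (h : CD T c0 𝒞 r c1) (hU : IsOpen U) (hf : HolP U f)
    (hc : ∀ z ∈ U, ∃ φ, 𝒞 φ ∧ f z = φ 0) {z0 : ℂ} (hz0 : z0 ∈ U) :
    ∃ b, 𝒞 b ∧ ∀ᶠ z in 𝓝 z0, ∃ β : ℂ, ‖β‖ ≤ rr r c0 ∧ f z = b β := by
  obtain ⟨B, hB⟩ := h.exists_nb (f z0)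
  have hε := h.ee_pos
  have hρ := h.rr_pos
  have hrl := h.rr_le
  have hrp := h.rpos
  have hc1 := h.cpos
  have hc0 := h.cls.pos
  have hevU : ∀ᶠ z in 𝓝 z0, z ∈ U := hU.mem_nhds hz0
  have hpd : ∀ b ∈ B, PDv (dl b (rr r c0)) (f z0) := by
    intro b hb
    apply h.pdv_leaf (hB.mem b hb) hρ (by linarith)
    intro β hβ hx
    have h2 := h.inj b (hB.mem b hb) 0 β (by linarith)
    rw [zero_add, ← hx] at h2
    have h3 := (h2.trans (hB.near b hb))
    have h4 := h.ee_le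
    have h5 : c1 * ‖β‖ ≤ c1 * (rr r c0 / (4 * (1 + 2 / c0)) / 2) := by linarith
    have h6 := le_of_mul_le_mul_left h5 hc1
    refine h6.trans_lt ?_
    have h7 : 0 < 2 / c0 := by positivity
    rw [div_div, div_lt_iff₀ (by positivity)]
    nlinarith
  have hev : ∀ᶠ z in 𝓝 z0, ∃ b ∈ B, dl b (rr r c0) (f z) = 0 := by
    have h1 : ∀ᶠ z in 𝓝 z0, ‖f z0 - f z‖ < 2 * ee r c0 c1 := by
      have h2 := Metric.tendsto_nhds.1 (hf.continuousAt hz0).tendsto (2 * ee r c0 c1)
        (by positivity)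
      filter_upwards [h2] with z hz
      rwa [dist_comm, dist_eq_norm] at hz
    filter_upwards [h1, hevU] with z hz hzU
    obtain ⟨φ, hφ, hφz⟩ := hc z hzU
    obtain ⟨b, hb, α, β, hβ, hs⟩ := hB.cov φ hφ (by rw [← hφz]; exact hz.le)
    refine ⟨b, hb, le_antisymm ?_ (dl_nonneg _ _ _)⟩
    have h3 := dl_le (φ := b) (ρ := rr r c0) (β := β) (by linarith) (f z)
    have h4 := hs 0
    rw [mul_zero, zero_add] at h4
    rwa [hφz, h4, sub_self, norm_zero, ← h4, ← hφz] at h3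
  have hex : ∃ b ∈ B, ∀ᶠ z in 𝓝 z0, dl b (rr r c0) (f z) = 0 := by
    by_contra hcon
    push Not at hcon
    have h1 : ∀ᶠ z in 𝓝[≠] z0, ∀ b ∈ B, dl b (rr r c0) (f z) ≠ 0 := by
      rw [Finset.eventually_all]
      intro b hb
      refine ((hpd b hb).dich hU hf hz0).resolve_left fun h2 => ?_
      obtain ⟨z, hz1, hz2⟩ := ((hcon b hb).and_eventually h2).exists
      exact hz1 hz2
    obtain ⟨z, hz1, b, hb, hz2⟩ := (h1.and (hev.filter_mono nhdsWithin_le_nhds)).exists
    exact hz1 b hb hz2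
  obtain ⟨b, hb, hbz⟩ := hex
  refine ⟨b, hB.mem b hb, ?_⟩
  filter_upwards [hbz] with z hz
  obtain ⟨β, hβ, hβ2⟩ := dl_spec (h.cls.cont (hB.mem b hb)) hρ.le (f z)
  refine ⟨β, hβ, ?_⟩
  rw [hz] at hβ2
  exact sub_eq_zero.1 (norm_eq_zero.1 hβ2.symm)

/-- a continuous exact tracking is holomorphic -/
theorem hol_of_exact_l {P Q : ℂ → Mat N} (hP : HolP U P) (hQ : HolP univ Q)
    (hQ0 : ∀ z, fderiv ℝ Q z ≠ 0)
    {h : ℂ → ℂ} {V : Set ℂ} (hV : IsOpen V) (hVU : V ⊆ U) (hc : ContinuousOn h V)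
    (heq : ∀ z ∈ V, P z = Q (h z)) : DifferentiableOn ℂ h V := by
  intro z0 hz0
  apply DifferentiableAt.differentiableWithinAt
  obtain ⟨i, j, hi, hd⟩ := exists_coord hQ (hQ0 (h z0))
  set A : ℂ → ℂ := fun w => qv (X j) (X i) (Q w) with hA
  have hAan : AnalyticAt ℂ A (h z0) :=
    an_qv hQ (mem_univ _) (isHomogeneous_X _ _) (isHomogeneous_X _ _) hi
  have hst : HasStrictDerivAt A (deriv A (h z0)) (h z0) := hAan.hasStrictDerivAt
  have hci : ContinuousAt h z0 := hc.continuousAt (hV.mem_nhds hz0)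
  have hP0 : nz (X i) (P z0) := by rw [heq z0 hz0]; exact hi
  have hB : DifferentiableAt ℂ (fun z => qv (X j) (X i) (P z)) z0 :=
    (an_qv hP (hVU hz0) (isHomogeneous_X _ _) (isHomogeneous_X _ _) hP0).differentiableAt
  have hli := hst.to_localInverse hd
  have h1 : h =ᶠ[𝓝 z0] fun z => hst.localInverse A _ _ hd (qv (X j) (X i) (P z)) := by
    filter_upwards [hci.eventually (hst.eventually_left_inverse hd), hV.mem_nhds hz0] with z h2 h3
    have h4 : qv (X j) (X i) (P z) = A (h z) := by rw [heq z h3]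
    rw [h4, h2]
  rw [h1.differentiableAt_iff]
  have h2 : qv (X j) (X i) (P z0) = A (h z0) := by rw [heq z0 hz0]
  have h3 := hli.hasDerivAt.differentiableAt
  rw [← h2] at h3
  exact h3.comp z0 hB

/-- the local lifts -/
theorem CD.local_lift_v (h : CD T c0 𝒞 r c1) (hU : IsOpen U) (hf : HolP U f)
    (hc : ∀ z ∈ U, ∃ φ, 𝒞 φ ∧ f z = φ 0) {z0 : ℂ} (hz0 : z0 ∈ U) :
    ∃ b, 𝒞 b ∧ ∃ (s : ℂ → ℂ) (V : Set ℂ), IsOpen V ∧ z0 ∈ V ∧ DifferentiableOn ℂ s V ∧
      ∀ z ∈ V, f z = b (s z) := by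
  obtain ⟨b, hb, hev⟩ := h.local_leaf_v hU hf hc hz0
  have hrl := h.rr_le
  have hrp := h.rpos
  have hc1 := h.cpos
  obtain ⟨V, hVs, hV, hzV⟩ := _root_.mem_nhds_iff.1 (hev.and (hU.mem_nhds hz0))
  have hVU : V ⊆ U := fun z hz => (hVs hz).2
  have hex : ∀ z, ∃ β : ℂ, z ∈ V → ‖β‖ ≤ rr r c0 ∧ f z = b β := by
    intro z
    by_cases hz : z ∈ V
    · obtain ⟨β, h1⟩ := (hVs hz).1
      exact ⟨β, fun _ => h1⟩
    · exact ⟨0, fun h => absurd h hz⟩
  choose s hs using hex
  have hle : ∀ z ∈ V, ∀ z' ∈ V, ‖s z' - s z‖ ≤ c1⁻¹ * ‖f z' - f z‖ := by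
    intro z hz z' hz'
    have h1 := h.inj b hb (s z) (s z' - s z) (by
      have := norm_sub_le (s z') (s z)
      have := (hs z hz).1
      have := (hs z' hz').1
      linarith)
    rw [add_sub_cancel, ← (hs z hz).2, ← (hs z' hz').2] at h1
    rw [le_inv_mul_iff₀ hc1]
    exact h1
  have hcont : ContinuousOn s V := by
    intro z hz
    rw [ContinuousWithinAt, tendsto_iff_norm_sub_tendsto_zero]
    have h1 : Tendsto (fun z' => c1⁻¹ * ‖f z' - f z‖) (𝓝[V] z) (𝓝 0) := by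
      have h2 : Tendsto (fun z' => c1⁻¹ * ‖f z' - f z‖) (𝓝 z) (𝓝 (c1⁻¹ * ‖f z - f z‖)) :=
        ((((hf.continuousAt (hVU hz)).tendsto.sub_const (f z)).norm).const_mul c1⁻¹)
      rw [sub_self, norm_zero, mul_zero] at h2
      exact h2.mono_left nhdsWithin_le_nhds
    refine squeeze_zero' (Eventually.of_forall fun _ => norm_nonneg _) ?_ h1
    filter_upwards [self_mem_nhdsWithin] with z' hz'
    exact hle z hz z' hz'
  exact ⟨b, hb, s, V, hV, hzV, hol_of_exact_l hf (h.cls.hol b hb) (h.cls.im hb) hV hVU hcont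
    fun z hz => (hs z hz).2, fun z hz => (hs z hz).2⟩

/-- **Curves covered by the curves of the class factor through one of them.** -/
theorem CD.lift_ball (h : CD T c0 𝒞 r c1) {c : ℂ} {R : ℝ} (hf : HolP (ball c R) f)
    (hnc : ∃ z ∈ ball c R, f z ≠ f c) (hc : ∀ z ∈ ball c R, ∃ φ, 𝒞 φ ∧ f z = φ 0) :
    ∃ b, 𝒞 b ∧ ∃ s : ℂ → ℂ, DifferentiableOn ℂ s (ball c R) ∧ ∀ z ∈ ball c R, f z = b (s z) := by
  have hpre : IsPreconnected (ball c R) := (convex_ball c R).isPreconnected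
  have hR : c ∈ ball c R := by
    obtain ⟨z, hz, -⟩ := hnc
    exact mem_ball_self (pos_of_mem_ball hz)
  have hnc' : ∀ z0 ∈ ball c R, ¬ ∀ᶠ z in 𝓝 z0, f z = f z0 := by
    intro z0 hz0 h1
    obtain ⟨z, hz, hzc⟩ := hnc
    have hconst : HolP (ball c R) (fun _ : ℂ => f z0) :=
      holP_comp_l hf (differentiable_const z0).differentiableOn isOpen_ball (fun _ _ => hz0)
    rcases holP_dich_on isOpen_ball hpre hf hconst with h2 | h2
    · exact hzc ((h2 z hz).trans (h2 c hR).symm)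
    · obtain ⟨w, hw1, hw2⟩ := ((h2 z0 hz0).and (h1.filter_mono nhdsWithin_le_nhds)).exists
      exact hw1 hw2
  obtain ⟨b, hb, s0, V0, hV0, hzV0, hs0, he0⟩ := h.local_lift_v isOpen_ball hf hc hR
  have hall : ∀ z0 ∈ ball c R, ∃ s : ℂ → ℂ, AnalyticAt ℂ s z0 ∧ ∀ᶠ z in 𝓝 z0, f z = b (s z) := by
    set A : Set ℂ := {z0 | ∃ s : ℂ → ℂ, AnalyticAt ℂ s z0 ∧ ∀ᶠ z in 𝓝 z0, f z = b (s z)} with hA
    have hAo : IsOpen A := by
      rw [isOpen_iff_mem_nhds]
      rintro z0 ⟨s, h1, h2⟩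
      filter_upwards [h1.eventually_analyticAt, eventually_eventually_nhds.2 h2] with z h3 h4
      exact ⟨s, h3, h4⟩
    set B : Set ℂ := ball c R \ A with hB
    have hBo : IsOpen B := by
      rw [isOpen_iff_mem_nhds]
      rintro z1 ⟨hz1U, hz1⟩
      obtain ⟨b1, hb1, s1, V1, hV1, hzV1, hs1, he1⟩ := h.local_lift_v isOpen_ball hf hc hz1U
      filter_upwards [hV1.mem_nhds hzV1, isOpen_ball.mem_nhds hz1U] with z2 hz2 hz2U
      refine ⟨hz2U, fun hz2A => ?_⟩
      obtain ⟨s, h1, h2⟩ := hz2A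
      obtain ⟨α, hα, -⟩ := h.germ_aff hb1 hb (hs1.analyticAt (hV1.mem_nhds hz2)) h1
        (by
          filter_upwards [hV1.mem_nhds hz2] with z hz
          exact he1 z hz) h2 (hnc' z2 hz2U)
      apply hz1
      refine ⟨fun z => s z2 + α * (s1 z - s1 z2),
        analyticAt_const.add (analyticAt_const.mul ((hs1.analyticAt (hV1.mem_nhds hzV1)).sub
          analyticAt_const)), ?_⟩
      filter_upwards [hV1.mem_nhds hzV1] with z hz
      rw [← hα, add_sub_cancel]
      exact he1 z hz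
    have h0 : c ∈ A := ⟨s0, hs0.analyticAt (hV0.mem_nhds hzV0), by
      filter_upwards [hV0.mem_nhds hzV0] with z hz
      exact he0 z hz⟩
    intro z0 hz0
    by_contra hz0A
    obtain ⟨x, hx, hxA, hxB⟩ := hpre A B hAo hBo (fun x hx => by
      by_cases h1 : x ∈ A
      · exact Or.inl h1
      · exact Or.inr ⟨hx, h1⟩) ⟨c, hR, h0⟩ ⟨z0, hz0, hz0, hz0A⟩
    exact hxB.2 hxA
  choose! s hsA hsE using hall
  set u : ℂ → ℂ := fun z => deriv (s z) z with hu
  have hloc : ∀ z0 ∈ ball c R, ∀ᶠ z in 𝓝 z0, u z = deriv (s z0) z := by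
    intro z0 hz0
    filter_upwards [(hsA z0 hz0).eventually_analyticAt, eventually_eventually_nhds.2 (hsE z0 hz0),
      isOpen_ball.mem_nhds hz0] with z h1 h2 hzU
    obtain ⟨α, hα, hαe⟩ := h.germ_aff hb hb (hsA z hzU) h1 (hsE z hzU) h2 (hnc' z hzU)
    have hα1 : α = 1 := by
      apply affsym h.inj h.rpos h.cpos hb (b := s z0 z - α * s z z)
      intro w
      have h3 := hα (w - s z z)
      rw [add_sub_cancel] at h3
      rw [h3]
      congr 1
      ring
    have h4 : s z0 =ᶠ[𝓝 z] fun t => s z t + (s z0 z - s z z) := by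
      filter_upwards [hαe] with t ht
      rw [ht, hα1]
      ring
    rw [h4.deriv_eq, deriv_add_const]
  have hud : DifferentiableOn ℂ u (ball c R) := by
    intro z0 hz0
    exact ((hsA z0 hz0).deriv.differentiableAt.congr_of_eventuallyEq
      (hloc z0 hz0)).differentiableWithinAt
  obtain ⟨S0, hS0⟩ := hud.isExactOn_ball
  have hdS : DifferentiableOn ℂ (fun z => S0 z - S0 c + s c c) (ball c R) := fun z hz =>
    (((hS0 z hz).differentiableAt.sub_const _).add_const _).differentiableWithinAt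
  refine ⟨b, hb, fun z => S0 z - S0 c + s c c, hdS, ?_⟩
  have hcomp : HolP (ball c R) (fun z => b (S0 z - S0 c + s c c)) :=
    holP_comp_l (h.cls.hol b hb) hdS isOpen_ball (fun _ _ => mem_univ _)
  rcases holP_dich_on isOpen_ball hpre hf hcomp with h1 | h1
  · exact h1
  · exfalso
    have h2 : ∀ᶠ z in 𝓝 c, S0 z - s c z = S0 c - s c c := by
      apply ev_const_of_deriv (f := fun z => S0 z - s c z)
      filter_upwards [hloc c hR, (hsA c hR).eventually_analyticAt, isOpen_ball.mem_nhds hR]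
        with z h2 h3 hz
      have := (hS0 z hz).sub h3.differentiableAt.hasDerivAt
      rwa [h2, sub_self] at this
    have h3 : ∀ᶠ z in 𝓝 c, f z = b (S0 z - S0 c + s c c) := by
      filter_upwards [h2, hsE c hR] with z h2 h3
      rw [h3]
      congr 1
      linear_combination -h2
    obtain ⟨w, hw1, hw2⟩ := ((h1 c hR).and (h3.filter_mono nhdsWithin_le_nhds)).exists
    exact hw1 hw2

theorem cay1 : MapsTo (fun z : ℂ => (z - 1) / (z + 1)) (ball 0 1) HP := by
  intro z hz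
  rw [mem_ball_zero_iff] at hz
  have hz1 : z + 1 ≠ 0 := by
    intro h
    have : z = -1 := by linear_combination h
    rw [this, norm_neg, norm_one] at hz
    exact lt_irrefl _ hz
  change ((z - 1) / (z + 1)).re < 0
  have h2 : 0 < Complex.normSq (z + 1) := Complex.normSq_pos.2 hz1
  have h3 : ((z - 1) / (z + 1)).re = (Complex.normSq z - 1) / Complex.normSq (z + 1) := by
    rw [Complex.div_re]
    simp only [Complex.sub_re, Complex.add_re, Complex.one_re, Complex.sub_im, Complex.add_im,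
      Complex.one_im, sub_zero, add_zero]
    rw [← add_div]
    congr 1
    rw [Complex.normSq_apply]
    ring
  rw [h3]
  apply div_neg_of_neg_of_pos _ h2
  rw [Complex.normSq_eq_norm_sq]
  nlinarith [norm_nonneg z]

theorem cay2 : MapsTo (fun w : ℂ => (1 + w) / (1 - w)) HP (ball 0 1) := by
  intro w hw
  have hw' : w.re < 0 := hw
  have hw1 : 1 - w ≠ 0 := by
    intro h
    have : w = 1 := by linear_combination -h
    rw [this, Complex.one_re] at hw'
    linarith
  rw [mem_ball_zero_iff, norm_div, div_lt_one (norm_pos_iff.2 hw1)]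
  rw [← sq_lt_sq₀ (norm_nonneg _) (norm_nonneg _), ← Complex.normSq_eq_norm_sq,
    ← Complex.normSq_eq_norm_sq, Complex.normSq_apply, Complex.normSq_apply]
  simp only [Complex.sub_re, Complex.add_re, Complex.one_re, Complex.sub_im, Complex.add_im,
    Complex.one_im, zero_add, zero_sub]
  nlinarith

theorem cay1_d : DifferentiableOn ℂ (fun z : ℂ => (z - 1) / (z + 1)) (ball 0 1) := by
  intro z hz
  have hz1 : z + 1 ≠ 0 := by
    intro h
    have : z = -1 := by linear_combination h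
    rw [mem_ball_zero_iff, this, norm_neg, norm_one] at hz
    exact lt_irrefl _ hz
  exact ((show DifferentiableAt ℂ (fun z : ℂ => z - 1) z by fun_prop).div
    (show DifferentiableAt ℂ (fun z : ℂ => z + 1) z by fun_prop) hz1).differentiableWithinAt

theorem cay2_d : DifferentiableOn ℂ (fun w : ℂ => (1 + w) / (1 - w)) HP := by
  intro w hw
  have hw' : w.re < 0 := hw
  have hw1 : 1 - w ≠ 0 := by
    intro h
    have : w = 1 := by linear_combination -h
    rw [this, Complex.one_re] at hw'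
    linarith
  exact ((show DifferentiableAt ℂ (fun w : ℂ => 1 + w) w by fun_prop).div
    (show DifferentiableAt ℂ (fun w : ℂ => 1 - w) w by fun_prop) hw1).differentiableWithinAt

theorem cay_inv : ∀ w ∈ HP, ((1 + w) / (1 - w) - 1) / ((1 + w) / (1 - w) + 1) = w := by
  intro w hw
  have hw' : w.re < 0 := hw
  have hw1 : 1 - w ≠ 0 := by
    intro h
    have : w = 1 := by linear_combination -h
    rw [this, Complex.one_re] at hw'
    linarith
  have h2 : (1 + w) / (1 - w) + 1 = 2 / (1 - w) := by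
    field_simp
    ring
  have h3 : (1 + w) / (1 - w) - 1 = 2 * w / (1 - w) := by
    field_simp
    ring
  rw [h2, h3]
  field_simp

/-- the lift on a half plane -/
theorem CD.lift_HP (h : CD T c0 𝒞 r c1) (hf : HolP HP f)
    (hnc : ∃ z ∈ HP, ∃ w ∈ HP, f z ≠ f w) (hc : ∀ z ∈ HP, ∃ φ, 𝒞 φ ∧ f z = φ 0) :
    ∃ b, 𝒞 b ∧ ∃ s : ℂ → ℂ, DifferentiableOn ℂ s HP ∧ ∀ z ∈ HP, f z = b (s z) := by
  set g : ℂ → Mat N := fun z => f ((z - 1) / (z + 1)) with hg
  have hgH : HolP (ball 0 1) g := holP_comp_l hf cay1_d isOpen_ball cay1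
  obtain ⟨z, hz, w, hw, hzw⟩ := hnc
  have hgz : ∀ x ∈ HP, g ((1 + x) / (1 - x)) = f x := by
    intro x hx
    rw [hg]
    simp only
    rw [cay_inv x hx]
  obtain ⟨b, hb, s, hs, hs'⟩ := h.lift_ball hgH (by
    by_contra hcon
    push Not at hcon
    apply hzw
    rw [← hgz z hz, ← hgz w hw, hcon _ (cay2 hz), hcon _ (cay2 hw)]) (fun x hx => hc _ (cay1 hx))
  refine ⟨b, hb, fun w => s ((1 + w) / (1 - w)), hs.comp cay2_d cay2, fun x hx => ?_⟩
  rw [← hs' _ (cay2 hx), hgz x hx]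

end Pool.Agent.H918.SD
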