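import Pool.Agent.H918.C.Seqv
import Pool.Agent.H918.A.Lm

/-! The limits of rescaled sequences of discs. -/

set_option autoImplicit false

open Filter Topology Metric Set

namespace Pool.Agent.H918.SD

open Pool.Agent.Y190.OP Pool.Agent.N155
open Pool.Agent.N154.TT (cv cv_nonneg ball_sub_l)
open Pool.Agent.N154.GG (UU uu_ge qk qk_ge zero_free_const)

variable {N : ℕ} {T : Set (Mat N)} {k m' : ℕ} {S : (ℂ → Mat N) → ℂ → Fin m' → ℂ}
  {D : Mat N → ℝ} {C s0 : ℝ} {nn : ℕ → ℕ} {b : ℕ → ℂ} {h : ℕ → ℂ → Mat N}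

theorem diff_comp_l {φ : ℂ → Fin m' → ℂ} {L : ℝ} (hd : DifferentiableOn ℂ φ (ball 0 L)) (m : ℕ)
    (j : Fin m') : DifferentiableOn ℂ (fun t => iteratedDeriv m φ t j) (ball 0 L) := fun t ht =>
  differentiableWithinAt_pi.1 ((diff_itk_l hd m) t ht) j

theorem diff_Wg_l {φ : ℂ → Fin m' → ℂ} {L : ℝ} (hd : DifferentiableOn ℂ φ (ball 0 L)) (m : ℕ)
    (j : Fin m') (p : ℕ) : DifferentiableOn ℂ (Wg φ m j p) (ball 0 L) := by
  have h1 := diff_comp_l hd m j
  unfold Wg
  exact (h1.div_const _).pow p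

/-- the weighted distance is bounded -/
theorem SQd.bW (hS : SDl T k S) (hD : DFv T D) (hs : SQd T k S D s0 nn b h) (h0 : 0 < s0)
    {n m p : ℕ} (j : Fin m') (hp : p * (m + k) = qk (nn n)) {t : ℂ} (ht : ‖t‖ ≤ n) :
    D (h n t) * (cj (S (h n)) m j t ^ p * ‖Complex.exp (b n * t)‖) ≤
      2 * (s0 ^ (qk (nn n)) * D (h n 0)) := by
  have hdif := hS.dif (hs.dsc n)
  have e1 := hs.bd n t ht
  rw [div_pow, div_mul_eq_mul_div, div_le_iff₀ (by positivity)] at e1
  have e2 : cj (S (h n)) m j t ^ p ≤ sk k (S (h n)) t ^ (qk (nn n)) := by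
    rw [← hp, mul_comm p, pow_mul]
    exact pow_le_pow_left₀ (cj_nn _ _ _ _) ((cj_le _ _ _ _).trans (cv_le_sk_l hS.kpos
      (hdif.mono (ball_sub_l (w := t))) (by linarith) m)) p
  calc D (h n t) * (cj (S (h n)) m j t ^ p * ‖Complex.exp (b n * t)‖) ≤
        D (h n t) * (sk k (S (h n)) t ^ (qk (nn n)) * ‖Complex.exp (b n * t)‖) :=
        mul_le_mul_of_nonneg_left (mul_le_mul_of_nonneg_right e2 (norm_nonneg _)) (hD.nn _)
    _ = sk k (S (h n)) t ^ (qk (nn n)) * (D (h n t) * ‖Complex.exp (b n * t)‖) := by ring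
    _ ≤ _ := e1.trans (le_of_eq (by ring))

/-- **The limit** of the values is a constant. -/
theorem SQd.cst (hS : SDl T k S) (hD : DFv T D) (hs : SQd T k S D s0 nn b h) (hC0 : 0 < C)
    (hC : GEl T k S C) (h0 : 0 < s0) (h1 : s0 ≤ 1) :
    ∃ (H : ℂ → Mat N) (v : Fin m' → ℂ) (j : Fin m'), HolP univ H ∧ (∀ z, H z ∈ T) ∧
      CConv (UU : Filter ℕ) univ h H ∧ (∀ z, S H z = v) ∧ s0 ^ k / 2 ≤ ‖v‖ ∧ ‖v‖ ≤ s0 ^ k ∧
      ∀ᶠ n in (UU : Filter ℕ), ∀ p : ℕ, p * k = qk (nn n) →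
        s0 ^ (qk (nn n)) / 2 ≤ cj (S (h n)) 0 j 0 ^ p := by
  have hk := hS.kpos
  have hdif : ∀ n : ℕ, DifferentiableOn ℂ (S (h n)) (ball 0 ((n : ℝ) + 1)) := fun n =>
    hS.dif (hs.dsc n)
  have hdifL := hs.difL hS
  obtain ⟨H, hH, hHT, hHc, hSc⟩ := hs.lim hS hD hC0 hC h0 h1
  have hSH := hS.dat.hol H hH hHT
  obtain ⟨m, j, hmj⟩ := hs.coef hS hD hC0 hC h0 h1
  have hnm : ∀ᶠ n : ℕ in (UU : Filter ℕ), m + k ≤ nn n + 1 := by
    filter_upwards [uu_ge ((m + k : ℕ) : ℝ)] with n hn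
    have : m + k ≤ n := by exact_mod_cast hn
    have := hs.nge n
    omega
  have hmk : 0 < m + k := by omega
  set G : ℕ → ℂ → ℂ := fun n t => Wg (S (h n)) m j (qk (nn n) / (m + k)) t *
    Complex.exp (b n * t) / ((s0 ^ (qk (nn n)) * D (h n 0) : ℝ) : ℂ) with hG
  have hx0 : ∀ n, 0 < s0 ^ (qk (nn n)) * D (h n 0) := fun n => mul_pos (pow_pos h0 _) (hs.d0 n)
  have hGn : ∀ n t, ‖G n t‖ = cj (S (h n)) m j t ^ (qk (nn n) / (m + k)) *
      ‖Complex.exp (b n * t)‖ / (s0 ^ (qk (nn n)) * D (h n 0)) := by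
    intro n t
    rw [hG]
    simp only
    rw [norm_div, norm_mul, norm_Wg, Complex.norm_real, Real.norm_of_nonneg (hx0 n).le]
  have hE0 : ∀ n, ‖Complex.exp (b n * 0)‖ = 1 := fun n => by
    rw [mul_zero, Complex.exp_zero, norm_one]
  have hEp : ∀ n t, 0 < ‖Complex.exp (b n * t)‖ := fun n t =>
    norm_pos_iff.2 (Complex.exp_ne_zero _)
  have hbd : ∀ L : ℝ, ∀ᶠ n in (UU : Filter ℕ), ∀ z ∈ closedBall (0 : ℂ) L,
      D (h n z) * ‖G n z‖ ≤ 2 := by
    intro L
    filter_upwards [hnm, uu_ge L] with n hn hnL z hz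
    have e1 := hs.bW hS hD h0 j (qk_dvd' hmk hn) ((mem_closedBall_zero_iff.1 hz).trans hnL)
    rw [hGn, mul_div_assoc', div_le_iff₀ (hx0 n)]
    exact e1
  have hN0 : ∀ᶠ n in (UU : Filter ℕ), 1 / 2 ≤ D (h n 0) * ‖G n 0‖ := by
    filter_upwards [hmj, hnm] with n e1 e2
    have e3 := e1 _ (qk_dvd' hmk e2)
    have e4 := hs.d0 n
    have e5 : 0 < s0 ^ qk (nn n) := pow_pos h0 _
    rw [hGn, hE0, mul_one, mul_div_assoc', le_div_iff₀ (hx0 n)]
    nlinarith
  have hnz := (nz_dich_v (𝓤 := UU) hS.sub hD.pd hs.dscL hHT hHc (G := G) (fun L => by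
      filter_upwards [hdifL L] with n hn
      rw [hG]
      exact ((diff_Wg_l hn m j _).mul (by fun_prop)).div_const _) hbd).resolve_left (by
    intro e0
    have e1 := (e0 0).eventually_lt_const (u := 1 / 2) (by norm_num)
    obtain ⟨n, e2, e3⟩ := (e1.and hN0).exists
    linarith)
  have hkey : ∀ᶠ t in codiscrete ℂ, ∀ᶠ n in (UU : Filter ℕ),
      sk k (S (h n)) t ^ (m + k) ≤ 2 * cj (S (h n)) m j t := by
    filter_upwards [hnz] with t ht
    obtain ⟨ε, hε, hεt⟩ : ∃ ε > 0, ∀ᶠ n in (UU : Filter ℕ), ε ≤ D (h n t) * ‖G n t‖ := by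
      by_contra hcon
      push Not at hcon
      apply ht
      rw [Metric.tendsto_nhds]
      intro ε hε
      filter_upwards [hcon ε hε] with n hn
      rw [dist_zero_right, Real.norm_of_nonneg (mul_nonneg (hD.nn _) (norm_nonneg _))]
      exact hn
    filter_upwards [hεt, hnm, uu_ge ‖t‖, uu_ge (2 / ε * (m + k))] with n e1 e2 e3 e4
    set p := qk (nn n) / (m + k) with hp
    have hpm : p * (m + k) = qk (nn n) := qk_dvd' hmk e2
    rw [hGn, ← hp, mul_div_assoc', le_div_iff₀ (hx0 n)] at e1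
    have e5 := hs.bd n t e3
    rw [div_pow, div_mul_eq_mul_div, div_le_iff₀ (by positivity)] at e5
    have hdt : 0 < D (h n t) := by
      rcases (hD.nn (h n t)).eq_or_lt with h2 | h2
      · rw [← h2, zero_mul] at e1
        exact absurd e1 (not_le.2 (mul_pos hε (hx0 n)))
      · exact h2
    have e6 : ε * (sk k (S (h n)) t ^ qk (nn n)) ≤ 2 * cj (S (h n)) m j t ^ p := by
      have e7 : ε * (sk k (S (h n)) t ^ qk (nn n)) * (D (h n t) * ‖Complex.exp (b n * t)‖) ≤
          2 * cj (S (h n)) m j t ^ p * (D (h n t) * ‖Complex.exp (b n * t)‖) := by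
        calc ε * (sk k (S (h n)) t ^ qk (nn n)) * (D (h n t) * ‖Complex.exp (b n * t)‖) =
              ε * (sk k (S (h n)) t ^ qk (nn n) * (D (h n t) * ‖Complex.exp (b n * t)‖)) := by
              ring
          _ ≤ ε * (2 * D (h n 0) * s0 ^ qk (nn n)) := mul_le_mul_of_nonneg_left e5 hε.le
          _ = 2 * (ε * (s0 ^ qk (nn n) * D (h n 0))) := by ring
          _ ≤ 2 * (D (h n t) * (cj (S (h n)) m j t ^ p * ‖Complex.exp (b n * t)‖)) := by
            linarith
          _ = _ := by ring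
      exact le_of_mul_le_mul_right e7 (mul_pos hdt (hEp n t))
    have e7 : 2 / ε ≤ 2 ^ p := by
      have k1 : (n : ℝ) ≤ (p : ℝ) * ((m : ℝ) + k) := by
        have : n ≤ p * (m + k) := by
          rw [hpm]
          exact (hs.nge n).trans (qk_ge (nn n))
        exact_mod_cast this
      have k2 : (2 / ε) ≤ (p : ℝ) := by
        have k3 : (0 : ℝ) < (m : ℝ) + k := by exact_mod_cast hmk
        exact le_of_mul_le_mul_right (e4.trans k1) k3
      have k4 : (p : ℝ) ≤ 2 ^ p := by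
        have := (Nat.lt_two_pow_self (n := p)).le
        exact_mod_cast this
      exact k2.trans k4
    have e8 : (sk k (S (h n)) t ^ (m + k)) ^ p ≤ (2 * cj (S (h n)) m j t) ^ p := by
      rw [← pow_mul, mul_comm (m + k), hpm, mul_pow]
      have k1 : sk k (S (h n)) t ^ qk (nn n) ≤ 2 / ε * cj (S (h n)) m j t ^ p := by
        rw [div_mul_eq_mul_div, le_div_iff₀ hε]
        linarith
      exact k1.trans (mul_le_mul_of_nonneg_right e7 (pow_nonneg (cj_nn _ _ _ _) _))
    have hp0 : p ≠ 0 := by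
      intro h2
      rw [h2, zero_mul] at hpm
      exact qk_ne _ hpm.symm
    exact le_of_pow_le_pow_left₀ hp0 (mul_nonneg (by norm_num) (cj_nn _ _ _ _)) e8
  -- the limits
  have hlimc : ∀ t, Tendsto (fun n => 2 * cj (S (h n)) m j t) UU (𝓝 (2 * cj (S H) m j t)) :=
    fun t => (((tendsto_pi_nhds.1 (it_limv_l hdifL hSc m t) j).norm).div_const _).const_mul 2
  have hlimv : ∀ t, Tendsto (fun n => ‖S (h n) t‖) UU (𝓝 ‖S H t‖) := fun t =>
    (hSc.pointwise (mem_univ t)).norm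
  have hlow : ∀ t, ∀ᶠ n in (UU : Filter ℕ), s0 / (4 * (1 + ‖t‖)) ≤ sk k (S (h n)) t := by
    intro t
    filter_upwards [uu_ge (‖t‖ + 4 * (‖t‖ + 1) / s0)] with n hn
    rw [add_comm 1 ‖t‖]
    exact sk_low hk (hdif n) h0 h1 (hs.sc n) (norm_nonneg t) (by linarith) le_rfl
  have hgen : ∀ᶠ t in codiscrete ℂ, ‖S H t‖ ^ (m + k) ≤ (2 * cj (S H) m j t) ^ k ∧
      (s0 / (4 * (1 + ‖t‖))) ^ (m + k) ≤ 2 * cj (S H) m j t := by
    filter_upwards [hkey] with t ht
    constructor
    · refine le_of_tendsto_of_tendsto ((hlimv t).pow _) ((hlimc t).pow k) ?_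
      filter_upwards [ht, hdifL (‖t‖ + 1)] with n hn hdn
      calc ‖S (h n) t‖ ^ (m + k) ≤ (sk k (S (h n)) t ^ k) ^ (m + k) :=
            pow_le_pow_left₀ (norm_nonneg _) (val_le_sk_l hk (hdn.mono (ball_sub_l (w := t)))
              (by linarith)) _
        _ = (sk k (S (h n)) t ^ (m + k)) ^ k := by
            rw [← pow_mul, ← pow_mul, mul_comm]
        _ ≤ _ := pow_le_pow_left₀ (pow_nonneg (sk_nn _ _ _) _) hn k
    · refine ge_of_tendsto (hlimc t) ?_
      filter_upwards [ht, hlow t] with n hn hl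
      exact (pow_le_pow_left₀ (by positivity) hl _).trans hn
  have hcc : Continuous fun t => 2 * cj (S H) m j t :=
    (((diff_comp hSH m j).continuous.norm).div_const _).const_mul 2
  have hcv : Continuous fun t => ‖S H t‖ ^ (m + k) := hSH.continuous.norm.pow _
  have hcl : Continuous fun t : ℂ => (s0 / (4 * (1 + ‖t‖))) ^ (m + k) := by
    apply Continuous.pow
    apply Continuous.div (by fun_prop) (by fun_prop)
    intro t
    positivity
  have hA : ∀ t, ‖S H t‖ ^ (m + k) ≤ (2 * cj (S H) m j t) ^ k := by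
    intro t
    refine le_of_tendsto_of_tendsto (hcv.continuousAt.mono_left nhdsWithin_le_nhds)
      ((hcc.pow k).continuousAt.mono_left nhdsWithin_le_nhds)
      (f := fun t => ‖S H t‖ ^ (m + k))
      (g := fun t => (2 * cj (S H) m j t) ^ k) (b := 𝓝[≠] t) ?_
    filter_upwards [codis_ev hgen t] with z hz
    exact hz.1
  have hB : ∀ t : ℂ, (s0 / (4 * (1 + ‖t‖))) ^ (m + k) ≤ 2 * cj (S H) m j t := by
    intro t
    refine le_of_tendsto_of_tendsto (hcl.continuousAt.mono_left nhdsWithin_le_nhds)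
      (hcc.continuousAt.mono_left nhdsWithin_le_nhds)
      (f := fun t : ℂ => (s0 / (4 * (1 + ‖t‖))) ^ (m + k))
      (g := fun t => 2 * cj (S H) m j t) (b := 𝓝[≠] t) ?_
    filter_upwards [codis_ev hgen t] with z hz
    exact hz.2
  -- the coefficient is constant
  have hpos : ∀ t, 0 < cj (S H) m j t := by
    intro t
    have h3 : 0 < (s0 / (4 * (1 + ‖t‖))) ^ (m + k) := by positivity
    linarith [hB t]
  have hne : ∀ t, iteratedDeriv m (S H) t j ≠ 0 := by
    intro t h2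
    have := hpos t
    unfold cj at this
    rw [h2, norm_zero, zero_div] at this
    exact lt_irrefl _ this
  have hconst := zero_free_const (F := fun t => (iteratedDeriv m (S H) t j)⁻¹)
    (fun t => (diff_comp hSH m j t).inv (hne t)) (A := 2 * (4 / s0) ^ (m + k)) (M := m + k) (by
      intro t
      rw [norm_inv]
      have h3 := hB t
      unfold cj at h3
      have h4 : 0 < ‖iteratedDeriv m (S H) t j‖ := norm_pos_iff.2 (hne t)
      have h5 : ‖iteratedDeriv m (S H) t j‖ / (m.factorial : ℝ) ≤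
          ‖iteratedDeriv m (S H) t j‖ := by
        apply div_le_self h4.le
        exact_mod_cast Nat.one_le_iff_ne_zero.2 (Nat.factorial_ne_zero _)
      have h6 : (s0 / (4 * (1 + ‖t‖))) ^ (m + k) ≤ 2 * ‖iteratedDeriv m (S H) t j‖ := by
        linarith
      rw [inv_le_iff_one_le_mul₀ h4]
      have h7 : (s0 / (4 * (1 + ‖t‖))) ^ (m + k) * ((4 / s0) ^ (m + k) * (1 + ‖t‖) ^ (m + k)) =
          1 := by
        rw [← mul_pow, ← mul_pow]
        have : s0 / (4 * (1 + ‖t‖)) * (4 / s0 * (1 + ‖t‖)) = 1 := by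
          field_simp
        rw [this, one_pow]
      have h8 := mul_le_mul_of_nonneg_right h6
        (show 0 ≤ (4 / s0) ^ (m + k) * (1 + ‖t‖) ^ (m + k) by positivity)
      rw [h7] at h8
      linarith) (fun t => inv_ne_zero (hne t))
  have hcj : ∀ t, cj (S H) m j t = cj (S H) m j 0 := by
    intro t
    unfold cj
    rw [inv_injective (hconst t)]
  have hSb : ∀ t, S H t = S H 0 := by
    intro t
    apply hSH.apply_eq_apply_of_bounded
    rw [isBounded_iff_forall_norm_le]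
    refine ⟨max 1 ((2 * cj (S H) m j 0) ^ k), ?_⟩
    rintro _ ⟨z, rfl⟩
    by_contra hcon
    push Not at hcon
    have h3 : 1 < ‖S H z‖ := (le_max_left _ _).trans_lt hcon
    have h4 : (2 * cj (S H) m j 0) ^ k < ‖S H z‖ := (le_max_right _ _).trans_lt hcon
    have h5 := hA z
    rw [hcj z] at h5
    have h6 : ‖S H z‖ ≤ ‖S H z‖ ^ (m + k) := le_self_pow₀ h3.le (by omega)
    linarith
  have hm0 : m = 0 := by
    by_contra hne0
    apply hne 0
    have : S H = fun _ => S H 0 := funext hSb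
    rw [this, iteratedDeriv_const, if_neg hne0]
    rfl
  subst hm0
  have hmj' : ∀ᶠ n in (UU : Filter ℕ), ∀ p : ℕ, p * k = qk (nn n) →
      s0 ^ (qk (nn n)) / 2 ≤ cj (S (h n)) 0 j 0 ^ p := by
    filter_upwards [hmj] with n hn p hp
    exact hn p (by rw [zero_add]; exact hp)
  refine ⟨H, S H 0, j, hH, hHT, hHc, hSb, ?_, ?_, hmj'⟩
  · refine ge_of_tendsto (hlimv 0) ?_
    filter_upwards [hmj', uu_ge (k : ℝ)] with n e1 e2
    have hkn : k ≤ nn n + 1 := by
      have : k ≤ n := by exact_mod_cast e2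
      have := hs.nge n
      omega
    have e3 := qk_dvd' hk hkn
    have e4 := e1 _ e3
    set p := qk (nn n) / k with hp
    have hp0 : p ≠ 0 := by
      intro h2
      rw [h2, zero_mul] at e3
      exact qk_ne _ e3.symm
    have e5 : cj (S (h n)) 0 j 0 ≤ ‖S (h n) 0‖ := by
      unfold cj
      rw [iteratedDeriv_zero, Nat.factorial_zero, Nat.cast_one, div_one]
      exact norm_le_pi_norm _ j
    apply le_of_pow_le_pow_left₀ hp0 (norm_nonneg _)
    refine le_trans ?_ (e4.trans (pow_le_pow_left₀ (cj_nn _ _ _ _) e5 p))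
    rw [div_pow, ← pow_mul, mul_comm k, e3]
    apply div_le_div_of_nonneg_left (by positivity) (by norm_num)
    exact le_self_pow₀ (by norm_num) hp0
  · refine le_of_tendsto (hlimv 0) (Eventually.of_forall fun n => ?_)
    have := val_le_sk_l (z := 0) hk (hdif n) (by positivity)
    rwa [hs.sc n] at this

end Pool.Agent.H918.SD
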