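import Pool.Agent.H918.C.Datl
import Pool.Agent.H918.A.PD

/-! Functions which are locally comparable to sums of absolute values of holomorphic functions,
along discs. -/

set_option autoImplicit false

open Filter Topology Metric Set

namespace Pool.Agent.H918.SD

open Pool.Agent.Y190.OP Pool.Agent.N155
open Pool.Agent.N154.GG (holP_comp hp_cont)

variable {N : ℕ} {T : Set (Mat N)}

/-- holomorphic along discs -/
def HLl (O : Set (Mat N)) (h : Mat N → ℂ) : Prop :=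
  ∀ (U : Set ℂ) (P : ℂ → Mat N) (z : ℂ), IsOpen U → HolP U P → z ∈ U → P z ∈ O →
    DifferentiableAt ℂ (fun t => h (P t)) z

/-- near `M0` the function `D` is comparable to a sum of absolute values of holomorphic functions -/
def PDv (D : Mat N → ℝ) (M0 : Mat N) : Prop :=
  ∃ (O : Set (Mat N)) (q : ℕ) (h : Fin q → Mat N → ℂ) (c C : ℝ), IsOpen O ∧ M0 ∈ O ∧ 0 < c ∧
    0 < C ∧ (∀ p, HLl O (h p)) ∧ ∀ M ∈ O, M ∈ PM → c * ∑ p, ‖h p M‖ ≤ D M ∧
      D M ≤ C * ∑ p, ‖h p M‖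

variable {D D' : Mat N → ℝ} {M0 : Mat N}

theorem PDv.congr (hD : PDv D M0) {O' : Set (Mat N)} {c' C' : ℝ} (hO' : IsOpen O') (hM : M0 ∈ O')
    (hc' : 0 < c') (hC' : 0 < C')
    (h : ∀ M ∈ O', M ∈ PM → c' * D M ≤ D' M ∧ D' M ≤ C' * D M) : PDv D' M0 := by
  obtain ⟨O, q, f, c, C, hO, hMO, hc, hC, hf, hb⟩ := hD
  refine ⟨O ∩ O', q, f, c' * c, C' * C, hO.inter hO', ⟨hMO, hM⟩, by positivity, by positivity,
    fun p U P z hU hP hzU hz => hf p U P z hU hP hzU hz.1, fun M hM hMP => ?_⟩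
  obtain ⟨h1, h2⟩ := hb M hM.1 hMP
  obtain ⟨h3, h4⟩ := h M hM.2 hMP
  rw [mul_assoc, mul_assoc]
  exact ⟨(mul_le_mul_of_nonneg_left h1 hc'.le).trans h3,
    h4.trans (mul_le_mul_of_nonneg_left h2 hC'.le)⟩

theorem PDv.one {O' : Set (Mat N)} {c' C' : ℝ} (hO' : IsOpen O') (hM : M0 ∈ O')
    (hc' : 0 < c') (hC' : 0 < C') (h : ∀ M ∈ O', M ∈ PM → c' ≤ D M ∧ D M ≤ C') : PDv D M0 :=
  ⟨O', 1, fun _ _ => 1, c', C', hO', hM, hc', hC', fun _ _ _ _ _ _ _ _ => differentiableAt_const _,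
    fun M hM hMP => by simpa using h M hM hMP⟩

theorem PDv.mul (hD : PDv D M0) (hD' : PDv D' M0) : PDv (fun M => D M * D' M) M0 := by
  obtain ⟨O, q, f, c, C, hO, hMO, hc, hC, hf, hb⟩ := hD
  obtain ⟨O', q', f', c', C', hO', hMO', hc', hC', hf', hb'⟩ := hD'
  refine ⟨O ∩ O', q * q', fun p M => f (finProdFinEquiv.symm p).1 M *
    f' (finProdFinEquiv.symm p).2 M, c * c', C * C', hO.inter hO', ⟨hMO, hMO'⟩, by positivity,
    by positivity, fun p U P z hU hP hzU hz =>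
      (hf _ U P z hU hP hzU hz.1).mul (hf' _ U P z hU hP hzU hz.2),
    fun M hM hMP => ?_⟩
  obtain ⟨h1, h2⟩ := hb M hM.1 hMP
  obtain ⟨h3, h4⟩ := hb' M hM.2 hMP
  have e : ∑ p : Fin (q * q'), ‖f (finProdFinEquiv.symm p).1 M * f' (finProdFinEquiv.symm p).2 M‖ =
      (∑ p, ‖f p M‖) * ∑ p, ‖f' p M‖ := by
    rw [Finset.sum_mul_sum, ← Finset.sum_product', Finset.univ_product_univ,
      ← Equiv.sum_comp finProdFinEquiv.symm]
    exact Finset.sum_congr rfl fun p _ => norm_mul _ _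
  rw [e]
  have s1 : 0 ≤ ∑ p, ‖f p M‖ := Finset.sum_nonneg fun _ _ => norm_nonneg _
  have s2 : 0 ≤ ∑ p, ‖f' p M‖ := Finset.sum_nonneg fun _ _ => norm_nonneg _
  have d1 : 0 ≤ D M := le_trans (by positivity) h1
  have d2 : 0 ≤ D' M := le_trans (by positivity) h3
  constructor
  · calc c * c' * ((∑ p, ‖f p M‖) * ∑ p, ‖f' p M‖) =
        (c * ∑ p, ‖f p M‖) * (c' * ∑ p, ‖f' p M‖) := by ring
      _ ≤ D M * D' M := mul_le_mul h1 h3 (by positivity) d1
  · calc D M * D' M ≤ (C * ∑ p, ‖f p M‖) * (C' * ∑ p, ‖f' p M‖) :=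
        mul_le_mul h2 h4 d2 (by positivity)
      _ = _ := by ring

theorem PDv.prod {ι : Type*} {D : ι → Mat N → ℝ} (B : Finset ι) (h : ∀ b ∈ B, PDv (D b) M0) :
    PDv (fun M => ∏ b ∈ B, D b M) M0 := by
  classical
  induction B using Finset.induction_on with
  | empty =>
    simp only [Finset.prod_empty]
    exact PDv.one isOpen_univ (mem_univ _) one_pos one_pos fun _ _ _ => ⟨le_rfl, le_rfl⟩
  | insert b B hb ih =>
    simp only [Finset.prod_insert hb]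
    exact (h b (Finset.mem_insert_self b B)).mul
      (ih fun b' hb' => h b' (Finset.mem_insert_of_mem hb'))

/-- **The local maximum principle**, with uniform constants -/
theorem locmax_v (hT : IsCompact T) (hTP : T ⊆ PM) (hD : ∀ M ∈ T, PDv D M) :
    ∃ ε K : ℝ, 0 < ε ∧ 0 ≤ K ∧ ∀ (U : Set ℂ) (P : ℂ → Mat N), IsOpen U → HolP U P →
      (∀ z ∈ U, P z ∈ T) → ∀ (s : ℂ) (ρ : ℝ), closedBall s ρ ⊆ U →
      0 < ρ → (∀ t ∈ closedBall s ρ, ‖P t - P s‖ < ε) → ∀ (G : ℂ → ℂ) (B : ℝ),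
      (∀ t ∈ closedBall s ρ, DifferentiableAt ℂ G t) →
      (∀ t ∈ sphere s ρ, D (P t) * ‖G t‖ ≤ B) → D (P s) * ‖G s‖ ≤ K * B := by
  have key : ∃ ε K : ℝ, 0 < ε ∧ 0 ≤ K ∧ ∀ (U : Set ℂ) (P : ℂ → Mat N), IsOpen U → HolP U P →
      (∀ z ∈ U, P z ∈ T) → ∀ (s : ℂ) (ρ : ℝ), P s ∈ T → closedBall s ρ ⊆ U →
      0 < ρ → (∀ t ∈ closedBall s ρ, ‖P t - P s‖ < ε) → ∀ (G : ℂ → ℂ) (B : ℝ),
      (∀ t ∈ closedBall s ρ, DifferentiableAt ℂ G t) →
      (∀ t ∈ sphere s ρ, D (P t) * ‖G t‖ ≤ B) → D (P s) * ‖G s‖ ≤ K * B := by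
    refine hT.induction_on (p := fun A => ∃ ε K : ℝ, 0 < ε ∧ 0 ≤ K ∧
      ∀ (U : Set ℂ) (P : ℂ → Mat N), IsOpen U → HolP U P →
      (∀ z ∈ U, P z ∈ T) → ∀ (s : ℂ) (ρ : ℝ), P s ∈ A → closedBall s ρ ⊆ U → 0 < ρ →
      (∀ t ∈ closedBall s ρ, ‖P t - P s‖ < ε) → ∀ (G : ℂ → ℂ) (B : ℝ),
      (∀ t ∈ closedBall s ρ, DifferentiableAt ℂ G t) →
      (∀ t ∈ sphere s ρ, D (P t) * ‖G t‖ ≤ B) → D (P s) * ‖G s‖ ≤ K * B) ?_ ?_ ?_ ?_
    · exact ⟨1, 0, one_pos, le_rfl, fun U P _ _ _ s ρ h => absurd h (notMem_empty _)⟩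
    · rintro A A' hAA ⟨ε, K, hε, hK, h⟩
      exact ⟨ε, K, hε, hK, fun U P hU h1 h2 s ρ h3 => h U P hU h1 h2 s ρ (hAA h3)⟩
    · rintro A A' ⟨ε, K, hε, hK, h⟩ ⟨ε', K', hε', hK', h'⟩
      refine ⟨min ε ε', max K K', lt_min hε hε', le_max_of_le_left hK,
        fun U P hU h1 h2 s ρ h3 hcb hρ h4 G B h5 h6 => ?_⟩
      have hB : 0 ≤ B ∨ B < 0 := le_or_gt 0 B
      rcases hB with hB | hB
      · rcases h3 with h3 | h3
        · exact (h U P hU h1 h2 s ρ h3 hcb hρ (fun t ht => (h4 t ht).trans_le (min_le_left _ _)) G B h5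
            h6).trans (mul_le_mul_of_nonneg_right (le_max_left _ _) hB)
        · exact (h' U P hU h1 h2 s ρ h3 hcb hρ (fun t ht => (h4 t ht).trans_le (min_le_right _ _)) G B h5
            h6).trans (mul_le_mul_of_nonneg_right (le_max_right _ _) hB)
      · exfalso
        have h70 : s + (ρ : ℂ) ∈ sphere s ρ := by
          rw [mem_sphere, dist_eq_norm, add_sub_cancel_left, Complex.norm_real,
            Real.norm_of_nonneg hρ.le]
        have h7 := h6 (s + ρ) h70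
        have h71 := hcb (sphere_subset_closedBall h70)
        obtain ⟨O, q, f, c, C, -, hMO, hc, -, -, hb⟩ := hD _ (h2 (s + ρ) h71)
        have h8 := (hb _ hMO (hTP (h2 _ h71))).1
        have h9 : 0 ≤ c * ∑ p, ‖f p (P (s + ρ))‖ :=
          mul_nonneg hc.le (Finset.sum_nonneg fun _ _ => norm_nonneg _)
        have h10 : 0 ≤ D (P (s + ρ)) * ‖G (s + ρ)‖ := mul_nonneg (h9.trans h8) (norm_nonneg _)
        linarith
    · intro M0 hM0
      obtain ⟨O, q, f, c, C, hO, hMO, hc, hC, hf, hb⟩ := hD M0 hM0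
      obtain ⟨e, he, hsub⟩ := Metric.isOpen_iff.1 hO M0 hMO
      refine ⟨ball M0 (e / 2), mem_nhdsWithin_of_mem_nhds (ball_mem_nhds _ (by positivity)),
        e / 2, C * (q * (1 / c)), by positivity, by positivity,
        fun U P hU hP hPT s ρ hPs hcb hρ h4 G B h5 h6 => ?_⟩
      have hin : ∀ t ∈ closedBall s ρ, P t ∈ O := by
        intro t ht
        apply hsub
        rw [mem_ball, dist_eq_norm] at hPs ⊢
        have e1 := norm_add_le (P t - P s) (P s - M0)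
        rw [sub_add_sub_cancel] at e1
        linarith [h4 t ht]
      have hs : s ∈ closedBall s ρ := mem_closedBall_self hρ.le
      have hterm : ∀ p, ‖f p (P s) * G s‖ ≤ 1 / c * B := by
        intro p
        have hd : ∀ t ∈ closedBall s ρ, DifferentiableAt ℂ (fun t => f p (P t) * G t) t :=
          fun t ht => (hf p U P t hU hP (hcb ht) (hin t ht)).mul (h5 t ht)
        have hdc : DiffContOnCl ℂ (fun t => f p (P t) * G t) (ball s ρ) := by
          have h1 : DifferentiableOn ℂ (fun t => f p (P t) * G t) (closedBall s ρ) :=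
            fun t ht => (hd t ht).differentiableWithinAt
          exact h1.diffContOnCl_ball (subset_refl _)
        refine Complex.norm_le_of_forall_mem_frontier_norm_le isBounded_ball hdc ?_
          (subset_closure (mem_ball_self hρ))
        intro t ht
        rw [frontier_ball s hρ.ne'] at ht
        have h7 := (hb _ (hin t (sphere_subset_closedBall ht))
          (hTP (hPT t (hcb (sphere_subset_closedBall ht))))).1
        have h8 := h6 t ht
        have h9 := Finset.single_le_sum (f := fun p => ‖f p (P t)‖)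
          (fun _ _ => norm_nonneg _) (Finset.mem_univ p)
        rw [norm_mul, one_div, inv_mul_eq_div, le_div_iff₀ hc]
        calc ‖f p (P t)‖ * ‖G t‖ * c = c * ‖f p (P t)‖ * ‖G t‖ := by ring
          _ ≤ D (P t) * ‖G t‖ := mul_le_mul_of_nonneg_right
              ((mul_le_mul_of_nonneg_left h9 hc.le).trans h7) (norm_nonneg _)
          _ ≤ B := h8
      have h7 := (hb _ (hin s hs) (hTP (hPT s (hcb hs)))).2
      calc D (P s) * ‖G s‖ ≤ C * (∑ p, ‖f p (P s)‖) * ‖G s‖ :=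
            mul_le_mul_of_nonneg_right h7 (norm_nonneg _)
        _ = C * ∑ p, ‖f p (P s) * G s‖ := by
            rw [mul_assoc, Finset.sum_mul]
            simp only [norm_mul]
        _ ≤ C * ∑ _p : Fin q, 1 / c * B := by
            apply mul_le_mul_of_nonneg_left _ hC.le
            exact Finset.sum_le_sum fun p _ => hterm p
        _ = C * (q * (1 / c)) * B := by
            rw [Finset.sum_const, Finset.card_univ, Fintype.card_fin, nsmul_eq_mul]
            ring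
  obtain ⟨ε, K, hε, hK, h⟩ := key
  exact ⟨ε, K, hε, hK, fun U P hU hP hPT s ρ hcb hρ h4 G B h5 h6 =>
    h U P hU hP hPT s ρ (hPT s (hcb (mem_closedBall_self hρ.le))) hcb hρ h4 G B h5 h6⟩

/-- **The identity theorem** for limits -/
theorem nz_dich_v (hTP : T ⊆ PM) (hD : ∀ M ∈ T, PDv D M) {𝓤 : Ultrafilter ℕ}
    {P : ℕ → ℂ → Mat N} {Pi : ℂ → Mat N} {G : ℕ → ℂ → ℂ}
    (hP : ∀ L : ℝ, ∀ᶠ k in (𝓤 : Filter ℕ), Ds T 0 L (P k)) (hPi : ∀ z, Pi z ∈ T)
    (cP : CConv (𝓤 : Filter ℕ) univ P Pi)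
    (hG : ∀ L : ℝ, ∀ᶠ k in (𝓤 : Filter ℕ), DifferentiableOn ℂ (G k) (ball 0 L)) {B : ℝ}
    (hB : ∀ L : ℝ, ∀ᶠ k in (𝓤 : Filter ℕ), ∀ z ∈ closedBall (0 : ℂ) L,
      D (P k z) * ‖G k z‖ ≤ B) :
    (∀ z, Tendsto (fun k => D (P k z) * ‖G k z‖) 𝓤 (𝓝 0)) ∨
      ∀ᶠ z in codiscrete ℂ, ¬ Tendsto (fun k => D (P k z) * ‖G k z‖) 𝓤 (𝓝 0) := by
  classical
  apply dich
  intro z0
  obtain ⟨O, q, f, c, C, hO, hMO, hc, hC, hf, hb⟩ := hD _ (hPi z0)
  have hev := (cP z0 (mem_univ _)).eventually (hO.mem_nhds hMO)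
  rw [eventually_prod_iff] at hev
  obtain ⟨pa0, hpa0, pb, hpb, hab0⟩ := hev
  obtain ⟨pa, hpa, hpa1, hpa2, hpa3⟩ : ∃ pa : ℕ → Prop, (∀ᶠ k in (𝓤 : Filter ℕ), pa k) ∧
      (∀ k, pa k → pa0 k) ∧ (∀ k, pa k → Ds T 0 (‖z0‖ + 1) (P k)) ∧
      ∀ k, pa k → DifferentiableOn ℂ (G k) (ball 0 (‖z0‖ + 1)) :=
    ⟨fun k => pa0 k ∧ Ds T 0 (‖z0‖ + 1) (P k) ∧ DifferentiableOn ℂ (G k) (ball 0 (‖z0‖ + 1)),
      hpa0.and ((hP _).and (hG _)), fun k h => h.1, fun k h => h.2.1, fun k h => h.2.2⟩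
  have hab : ∀ {k : ℕ}, pa k → ∀ {z : ℂ}, pb z → P k z ∈ O := fun hk z hz => hab0 (hpa1 _ hk) hz
  have hin0 : ∀ z ∈ ball z0 1, z ∈ ball (0 : ℂ) (‖z0‖ + 1) := by
    intro z hz
    rw [mem_ball, dist_eq_norm] at hz
    rw [mem_ball_zero_iff]
    have := norm_add_le (z - z0) z0
    rw [sub_add_cancel] at this
    linarith
  obtain ⟨V, hVs, hV, hzV⟩ := _root_.mem_nhds_iff.1 (hpb.and (ball_mem_nhds z0 one_pos))
  set Nf : ℕ → ℂ → ℝ := fun k z => D (P k z) * ‖G k z‖ with hNf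
  set F : Fin q → ℕ → ℂ → ℂ := fun p k z => f p (P k z) * G k z with hF
  have hupper : ∀ k, pa k → ∀ z ∈ V, ∀ p, ‖F p k z‖ ≤ 1 / c * Nf k z := by
    intro k hk z hz p
    have h7 := (hb _ (hab hk (hVs hz).1) (hTP ((hpa2 k hk).mem z (hin0 z (hVs hz).2)))).1
    have h9 := Finset.single_le_sum (f := fun p => ‖f p (P k z)‖)
      (fun _ _ => norm_nonneg _) (Finset.mem_univ p)
    rw [hF, hNf]
    simp only
    rw [norm_mul, one_div, inv_mul_eq_div, le_div_iff₀ hc]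
    calc ‖f p (P k z)‖ * ‖G k z‖ * c = c * ‖f p (P k z)‖ * ‖G k z‖ := by ring
      _ ≤ D (P k z) * ‖G k z‖ := mul_le_mul_of_nonneg_right
          ((mul_le_mul_of_nonneg_left h9 hc.le).trans h7) (norm_nonneg _)
  have hlower : ∀ k, pa k → ∀ z ∈ V, Nf k z ≤ C * ∑ p, ‖F p k z‖ := by
    intro k hk z hz
    have h7 := (hb _ (hab hk (hVs hz).1) (hTP ((hpa2 k hk).mem z (hin0 z (hVs hz).2)))).2
    rw [hF, hNf]
    simp only
    calc D (P k z) * ‖G k z‖ ≤ C * (∑ p, ‖f p (P k z)‖) * ‖G k z‖ :=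
          mul_le_mul_of_nonneg_right h7 (norm_nonneg _)
      _ = C * ∑ p, ‖f p (P k z) * G k z‖ := by
          rw [mul_assoc, Finset.sum_mul]
          simp only [norm_mul]
  have hNf0 : ∀ k, pa k → ∀ z ∈ V, 0 ≤ Nf k z := by
    intro k hk z hz
    have h7 := (hb _ (hab hk (hVs hz).1) (hTP ((hpa2 k hk).mem z (hin0 z (hVs hz).2)))).1
    exact mul_nonneg (le_trans (mul_nonneg hc.le (Finset.sum_nonneg fun _ _ => norm_nonneg _)) h7)
      (norm_nonneg _)
  have hdV : ∀ k, pa k → ∀ p, DifferentiableOn ℂ (F p k) V := by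
    intro k hk p z hz
    have hz0 := hin0 z (hVs hz).2
    exact ((hf p _ (P k) z isOpen_ball (hpa2 k hk).hol hz0 (hab hk (hVs hz).1)).mul
      ((hpa3 k hk).differentiableAt (isOpen_ball.mem_nhds hz0))).differentiableWithinAt
  have hbV : ∀ᶠ k in (𝓤 : Filter ℕ), ∀ z ∈ V, ∀ p, ‖F p k z‖ ≤ 1 / c * B := by
    filter_upwards [hpa, hB (‖z0‖ + 1)] with k hk hk' z hz p
    refine (hupper k hk z hz p).trans (mul_le_mul_of_nonneg_left (hk' z ?_) (by positivity))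
    have e4 : ‖z - z0‖ < 1 := by
      have := (hVs hz).2
      rwa [dist_eq_norm] at this
    rw [mem_closedBall_zero_iff]
    have := norm_add_le (z - z0) z0
    rw [sub_add_cancel] at this
    linarith
  have hmon : ∀ p, ∃ H : ℂ → ℂ, CConv (𝓤 : Filter ℕ) V (F p) H := by
    intro p
    apply ultra_montel
    intro z hz
    refine ⟨V, hV.mem_nhds hz, 1 / c * B, ?_⟩
    filter_upwards [hpa, hbV] with k e1 e2
    exact ⟨hdV k e1 p, fun w hw => e2 w hw p⟩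
  choose H hH using hmon
  have hHan : ∀ p, AnalyticAt ℂ (H p) z0 := fun p =>
    (CConv.an (hH p) hV hzV ⟨V, hV.mem_nhds hzV, by
      filter_upwards [hpa] with k e1
      exact hdV k e1 p⟩).1
  by_cases hall : ∀ p, ∀ᶠ z in 𝓝 z0, H p z = 0
  · left
    have h1 : ∀ᶠ z in 𝓝 z0, ∀ p, H p z = 0 := eventually_all.2 hall
    filter_upwards [h1, hV.mem_nhds hzV] with z hz hzV
    have h2 : Tendsto (fun k => C * ∑ p, ‖F p k z‖) 𝓤 (𝓝 (C * ∑ p, ‖H p z‖)) := by
      apply Tendsto.const_mul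
      apply tendsto_finsetSum
      intro p _
      exact ((hH p).pointwise hzV).norm
    have h3 : C * ∑ p, ‖H p z‖ = 0 := by
      simp only [hz, norm_zero, Finset.sum_const_zero, mul_zero]
    rw [h3] at h2
    refine squeeze_zero' ?_ ?_ h2
    · filter_upwards [hpa] with k hk
      exact hNf0 k hk z hzV
    · filter_upwards [hpa] with k hk
      exact hlower k hk z hzV
  · right
    push Not at hall
    obtain ⟨p, hp⟩ := hall
    have h1 := ((hHan p).eventually_eq_zero_or_eventually_ne_zero).resolve_left (by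
      intro h
      exact (Filter.not_eventually.2 (by simpa using hp)) h)
    filter_upwards [h1, mem_nhdsWithin_of_mem_nhds (hV.mem_nhds hzV)] with z hz hzV hten
    apply hz
    have h2 : Tendsto (fun k => ‖F p k z‖) 𝓤 (𝓝 0) := by
      have h3 : Tendsto (fun k => 1 / c * Nf k z) 𝓤 (𝓝 (1 / c * 0)) := hten.const_mul _
      rw [mul_zero] at h3
      refine squeeze_zero' (Eventually.of_forall fun k => norm_nonneg _) ?_ h3
      filter_upwards [hpa] with k hk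
      exact hupper k hk z hzV p
    have h3 := tendsto_nhds_unique h2 ((hH p).pointwise hzV).norm
    exact norm_eq_zero.1 h3.symm

end Pool.Agent.H918.SD
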