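import Pool.Agent.H918.C.Liftv
import Pool.Graph.R_pool_sql_team_seeded_63374d34.N154.TT.Per
import Pool.Graph.R_pool_sql_team_seeded_63374d34.N155.B.Fin

/-! The big Picard theorem, for curves in compact sets of projection matrices. (After the files
`N154/TT/Per.lean` and `N154/TT/Pic.lean` of an earlier team.) -/

set_option autoImplicit false

open Filter Topology Metric Set

namespace Pool.Agent.H918.SD

open Pool.Agent.Y190.OP Pool.Agent.N155
open Pool.Agent.N155.BB (GW RG BCw)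
open Pool.Agent.N154.TT (cv cv_nonneg ball_sub_l strip_max diff_it_HP)
open Pool.Agent.N154.GG (holP_comp_l HP tpi tpi_re tpi_im isOpen_HP per_int exists_rep convex_HP
  ball_sub_HP add_tpi_mem kwack weight_zero holP_dich_on dich_on qk)

section Scale

variable {m k : ℕ} {ψ : ℂ → Fin m → ℂ}

theorem iter_per (hper : ∀ z ∈ HP, ψ (z + tpi) = ψ z) {z : ℂ}
    (hz : z ∈ HP) (q : ℕ) : iteratedDeriv q ψ (z + tpi) = iteratedDeriv q ψ z := by
  have h1 : (fun w => ψ (w + tpi)) =ᶠ[𝓝 z] ψ := by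
    filter_upwards [isOpen_HP.mem_nhds hz] with w hw
    exact hper w hw
  have h2 : iteratedDeriv q (fun w => ψ (w + tpi)) z = iteratedDeriv q ψ (z + tpi) := by
    have := iteratedDeriv_comp_add_const q ψ tpi
    exact congrFun this z
  rw [← h2]
  exact h1.iteratedDeriv_eq q

theorem sk_per (hper : ∀ z ∈ HP, ψ (z + tpi) = ψ z) {z : ℂ} (hz : z ∈ HP) :
    sk k ψ (z + tpi) = sk k ψ z := by
  unfold sk cv
  congr 1
  funext q
  rw [iter_per hper hz q]

/-- a bound on a vertical line -/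
theorem sk_line (hk : 0 < k) (hd : DifferentiableOn ℂ ψ HP) (hper : ∀ z ∈ HP, ψ (z + tpi) = ψ z)
    {z0 : ℂ} (hz0 : z0 ∈ HP) {s : ℝ} (hs : 0 < s)
    (hs1 : 4 * Real.pi * s ≤ 1) (hR : 1 ≤ -z0.re * s) (hsg : sk k ψ z0 ≤ s) {z : ℂ}
    (hz : z.re = z0.re) : sk k ψ z ≤ 4 * s := by
  have hpi := Real.pi_pos
  set n : ℤ := ⌊(z.im - z0.im) / (2 * Real.pi) + 1 / 2⌋ with hn
  set w : ℂ := z + ((-n : ℤ) : ℂ) * tpi with hw
  have hzHP : z ∈ HP := by
    change z.re < 0
    rw [hz]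
    exact hz0
  have e1 : sk k ψ w = sk k ψ z := per_int (F := sk k ψ) (fun z hz => sk_per hper hz) hzHP (-n)
  rw [← e1]
  apply sk_harnack_l hk (hd.mono ball_sub_HP) hs hsg hR
  have e2 : w - z0 = ((z.im - z0.im - n * (2 * Real.pi) : ℝ) : ℂ) * Complex.I := by
    rw [hw]
    apply Complex.ext
    · simp [tpi, hz]
    · simp [tpi]
      ring
  rw [e2, norm_mul, Complex.norm_I, mul_one, Complex.norm_real, Real.norm_eq_abs]
  have e3 : |z.im - z0.im - n * (2 * Real.pi)| ≤ Real.pi := by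
    have h1 := Int.floor_le ((z.im - z0.im) / (2 * Real.pi) + 1 / 2)
    have h2 := (Int.lt_floor_add_one ((z.im - z0.im) / (2 * Real.pi) + 1 / 2)).le
    rw [← hn] at h1 h2
    have h3 : (n : ℝ) * (2 * Real.pi) ≤ z.im - z0.im + Real.pi := by
      have := mul_le_mul_of_nonneg_right h1 (show 0 ≤ 2 * Real.pi by positivity)
      rw [add_mul, div_mul_cancel₀ _ (by positivity)] at this
      linarith
    have h4 : z.im - z0.im + Real.pi ≤ (n + 1 : ℝ) * (2 * Real.pi) := by
      have := mul_le_mul_of_nonneg_right h2 (show 0 ≤ 2 * Real.pi by positivity)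
      rw [add_mul, div_mul_cancel₀ _ (by positivity)] at this
      linarith
    rw [abs_le]
    constructor <;> linarith
  calc 4 * |z.im - z0.im - n * (2 * Real.pi)| * s ≤ 4 * Real.pi * s := by gcongr
    _ ≤ 1 := hs1

/-- **Dichotomy** for the scale -/
theorem sk_dich (hk : 0 < k) (hd : DifferentiableOn ℂ ψ HP)
    (hper : ∀ z ∈ HP, ψ (z + tpi) = ψ z) :
    (∃ c : ℝ, 0 < c ∧ ∃ A : ℝ, 0 < A ∧ ∀ z : ℂ, z.re ≤ -A → c ≤ sk k ψ z) ∨
      ∀ ε : ℝ, 0 < ε → ∃ A : ℝ, 0 < A ∧ ∀ z : ℂ, z.re ≤ -A → sk k ψ z ≤ ε := by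
  by_contra hcon
  push Not at hcon
  obtain ⟨h1, ε, hε, h2⟩ := hcon
  have hpi := Real.pi_pos
  set s : ℝ := min (ε / 4) (1 / (4 * Real.pi)) with hs
  have hs0 : 0 < s := lt_min (by positivity) (by positivity)
  have hs1 : 4 * Real.pi * s ≤ 1 := by
    have := min_le_right (ε / 4) (1 / (4 * Real.pi))
    rw [le_div_iff₀ (by positivity)] at this
    linarith
  have hs2 : 4 * s ≤ ε := by
    have := min_le_left (ε / 4) (1 / (4 * Real.pi))
    linarith
  have hlines : ∀ A : ℝ, 1 / s ≤ A → ∃ x : ℝ, x ≤ -A ∧ ∀ z : ℂ, z.re = x → sk k ψ z ≤ 4 * s := by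
    intro A hA
    have hA0 : 0 < A := lt_of_lt_of_le (by positivity) hA
    obtain ⟨z0, hz0, hz0'⟩ := h1 s hs0 A hA0
    refine ⟨z0.re, hz0, fun z hz => ?_⟩
    refine sk_line hk hd hper (show z0.re < 0 by linarith) hs0 hs1 ?_ hz0'.le hz
    have e1 : 1 / s ≤ -z0.re := by linarith
    rwa [div_le_iff₀ hs0] at e1
  obtain ⟨x0, hx0, hx0'⟩ := hlines (1 / s) le_rfl
  have hx00 : x0 < 0 := by
    have : 0 < 1 / s := by positivity
    linarith
  obtain ⟨z, hz, hz'⟩ := h2 (-x0) (by linarith)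
  rw [neg_neg] at hz
  obtain ⟨x1, hx1, hx1'⟩ := hlines (max (1 / s) (-z.re + 1)) (le_max_left _ _)
  have hx1z : x1 ≤ z.re - 1 := by
    have := le_max_right (1 / s) (-z.re + 1)
    linarith
  apply absurd hz'
  push Not
  refine (sk_le hk (by positivity) fun q => ?_).trans hs2
  have hdm := diff_it_HP hd q
  have hln : ∀ x : ℝ, x < 0 → (∀ z : ℂ, z.re = x → sk k ψ z ≤ 4 * s) → ∀ z : ℂ, z.re = x →
      ‖iteratedDeriv q ψ z‖ ≤ (4 * s) ^ (q + k) * q.factorial := by
    intro x hx hxs z hz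
    have e1 := (cv_le_sk_l hk (hd.mono (ball_sub_HP (z := z))) (by linarith) q).trans
      (pow_le_pow_left₀ (sk_nn k ψ z) (hxs z hz) (q + k))
    unfold cv at e1
    rwa [div_le_iff₀ (by positivity)] at e1
  have e1 := strip_max hdm (fun z hz => iter_per hper hz q) (show x1 < x0 by linarith) hx00
    (hln x1 (by linarith) hx1') (hln x0 hx00 hx0') (z := z) (by linarith) hz
  unfold cv
  rwa [div_le_iff₀ (by positivity)]

end Scale

variable {N : ℕ} {T Z : Set (Mat N)} {κ : Type}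
  {ω : κ → (Fin N → ℂ) → (Fin N → ℂ) → (Fin N → ℂ) → ℂ} {k m' : ℕ}
  {S : (ℂ → Mat N) → ℂ → Fin m' → ℂ} {C C1 s0 c0 r c1 : ℝ}

/-- the values depend only on the curve near the point -/
theorem SDl.loc (h : SDl T k S) {U : Set ℂ} (hU : IsOpen U) {P Q : ℂ → Mat N} (hP : HolP U P)
    (hPT : ∀ z ∈ U, P z ∈ T) (heq : ∀ z ∈ U, Q z = P z) : ∀ z ∈ U, S Q z = S P z := by
  intro z hz
  have hQ : HolP U Q := by
    intro w hw
    obtain ⟨V, f, hV, hwV, hd, hf⟩ := hP w hw
    refine ⟨V ∩ U, f, hV.inter hU, ⟨hwV, hw⟩, hd.mono inter_subset_left, fun x hx => ?_⟩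
    rw [heq x hx.2]
    exact hf x hx.1
  have h1 := h.lim (hyperfilter ℕ) U (fun _ => Q) P hU
    (Eventually.of_forall fun _ => ⟨hQ, fun w hw => by rw [heq w hw]; exact hPT w hw⟩) hP hPT (by
      intro w hw
      have e1 : ContinuousAt Q w := hQ.continuousAt hw
      have e2 := e1.tendsto
      rw [heq w hw] at e2
      exact e2.comp tendsto_snd) z hz
  exact tendsto_nhds_unique tendsto_const_nhds h1

/-- the values along periodic curves are periodic -/
theorem SDl.per (h : SDl T k S) {P : ℂ → Mat N} (hP : HolP HP P) (hPT : ∀ z ∈ HP, P z ∈ T)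
    (hper : ∀ z ∈ HP, P (z + tpi) = P z) : ∀ z ∈ HP, S P (z + tpi) = S P z := by
  intro z hz
  have h1 := h.aff HP P isOpen_HP hP hPT tpi 1 z (by
    rw [one_mul, add_comm]
    exact add_tpi_mem hz)
  rw [one_pow, one_smul, one_mul, add_comm tpi z] at h1
  rw [← h1]
  apply h.loc isOpen_HP hP hPT _ z hz
  intro w hw
  rw [one_mul, add_comm tpi w]
  exact hper w hw

/-- if the scale does not tend to zero then the curve is contained in the exceptional set -/
theorem Kst.factor (K : Kst T Z ω k S C C1 s0 c0 r c1) {P : ℂ → Mat N} (hP : HolP HP P)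
    (hPT : ∀ z ∈ HP, P z ∈ T) {c A : ℝ} (hc : 0 < c) (hA : 0 < A)
    (hcA : ∀ z : ℂ, z.re ≤ -A → c ≤ sk k (S P) z) : ∀ z ∈ HP, ∃ φ, BCw T c0 φ ∧ P z = φ 0 := by
  classical
  obtain ⟨k1, hk1⟩ := K.contraction
  obtain ⟨k2, hk2⟩ := K.main_estimate
  have h0 := K.h0
  have h1 := K.h1
  set n : ℕ := max (max k1 k2) 1 with hn
  have hkk1 : k1 ≤ n := (le_max_left _ _).trans (le_max_left _ _)
  have hkk2 : k2 ≤ n := (le_max_right _ _).trans (le_max_left _ _)
  have hk11 : 1 ≤ n := le_max_right _ _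
  have hk0 : (0 : ℝ) < n := by exact_mod_cast hk11
  have hcon := hk1 n hkk1
  obtain ⟨B0, hB0, hmain⟩ := hk2 n hkk2
  have hDs : ∀ z : ℂ, Ds T z (-z.re) P := fun z =>
    ⟨hP.mono ball_sub_HP, fun w hw => hPT w (ball_sub_HP hw)⟩
  have hqpos : qk n ≠ 0 := qk_ne n
  have hq0 : 0 < ((qk n : ℕ) : ℝ)⁻¹ := by
    have := Nat.pos_of_ne_zero hqpos
    positivity
  set R : ℝ := n / c with hR
  have hR0 : 0 < R := by positivity
  set B : ℝ := A + (n + 1) / c + R + 1 with hB
  have hBp : 0 < B := by positivity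
  set u : ℂ → ℝ := fun z => sk k (S P) z ^ qk n * Dd T c0 r c1 (P z) with hu
  have hx0 : ∀ z, 0 ≤ Dd T c0 r c1 (P z) := fun z => K.Dd_nn _
  have hu0 : ∀ z, 0 ≤ u z := fun z => mul_nonneg (pow_nonneg (sk_nn _ _ z) _) (hx0 z)
  have huM : ∀ z : ℂ, z.re ≤ -B + R → u z ≤ B0 ^ qk n := by
    intro z hz
    have hz1 : 1 ≤ -z.re := by
      have : 0 < (n + 1 : ℝ) / c := by positivity
      linarith
    have h1 := hmain P z (-z.re) (by linarith) (hDs z)
    have h2 : B0 / -z.re ≤ B0 := div_le_self hB0.le hz1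
    have h3 := pow_le_pow_left₀ (mul_nonneg (sk_nn _ _ z) (Real.rpow_nonneg (hx0 z) _))
      (h1.trans h2) (qk n)
    rw [mul_pow, Real.rpow_inv_natCast_pow (hx0 z) hqpos] at h3
    exact h3
  have hzero := weight_zero (u := u) (A := B) (R := R) (M := B0 ^ qk n) hR0
    (fun z _ => hu0 z) huM (by
      intro b hb z hz
      have hzA : z.re ≤ -A := by
        have : 0 < (n + 1 : ℝ) / c := by positivity
        linarith
      have hs := hcA z hzA
      have hs0 : 0 < sk k (S P) z := hc.trans_le hs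
      obtain ⟨w, hw1, hw2⟩ := hcon P z (-z.re) ((-b : ℝ) : ℂ) (hDs z) (by
        have h2 : ((n : ℝ) + 1) / c ≤ -z.re := by linarith
        calc s0 * ((n : ℝ) + 1) ≤ 1 * ((n : ℝ) + 1) :=
              mul_le_mul_of_nonneg_right h1 (by positivity)
          _ = ((n : ℝ) + 1) / c * c := by field_simp
          _ ≤ -z.re * sk k (S P) z := by
              have : 0 ≤ ((n : ℝ) + 1) / c := by positivity
              have h3 : 0 ≤ -z.re := by linarith
              gcongr)
      refine ⟨w, ?_, ?_⟩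
      · rw [hR, le_div_iff₀ hc]
        calc ‖w - z‖ * c ≤ ‖w - z‖ * sk k (S P) z := by gcongr
          _ ≤ n := hw1
      · have h1 : ‖Complex.exp (((-b : ℝ) : ℂ) * (w - z))‖ = Real.exp (-b * (w.re - z.re)) := by
          rw [Complex.norm_exp, Complex.re_ofReal_mul, Complex.sub_re]
        rw [h1] at hw2
        exact hw2)
  -- every point is in the exceptional set
  have hex : ∀ z : ℂ, z.re < -B → Dd T c0 r c1 (P z) = 0 := by
    intro z hz
    have h1 := hzero z hz
    have hs0 : 0 < sk k (S P) z := hc.trans_le (hcA z (by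
      have : 0 < (n + 1 : ℝ) / c := by positivity
      linarith))
    rcases mul_eq_zero.1 h1 with h2 | h2
    · exact absurd h2 (pow_pos hs0 _).ne'
    · exact h2
  -- the identity theorem
  have hall : ∀ z ∈ HP, Dd T c0 r c1 (P z) = 0 := by
    refine (dich_on (p := fun z => Dd T c0 r c1 (P z) = 0) isOpen_HP convex_HP.isPreconnected
      (fun z hz => ?_)).resolve_right ?_
    · exact (K.cd.pdv_DD (P z)).dich isOpen_HP hP hz
    · intro h2
      set z1 : ℂ := ((-B - 1 : ℝ) : ℂ) with hz1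
      have hz1re : z1.re = -B - 1 := by rw [hz1, Complex.ofReal_re]
      have hz1HP : z1 ∈ HP := by
        change z1.re < 0
        rw [hz1re]
        linarith
      have h3 : ∀ᶠ w in 𝓝[≠] z1, w.re < -B := by
        apply Eventually.filter_mono nhdsWithin_le_nhds
        exact Complex.continuous_re.continuousAt.eventually_lt_const (by rw [hz1re]; linarith)
      obtain ⟨w, hw1, hw2⟩ := ((h2 z1 hz1HP).and h3).exists
      exact hw1 (hex w hw2)
  intro z hz
  by_contra hno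
  push Not at hno
  have h2 := K.cd.DD_pos hno
  have h3 := hall z hz
  unfold Dd at h3
  rw [h3] at h2
  exact lt_irrefl _ h2

/-- **The big Picard theorem** -/
theorem Kst.picard (K : Kst T Z ω k S C C1 s0 c0 r c1) {P : ℂ → Mat N} (hP : HolP HP P)
    (hPT : ∀ z ∈ HP, P z ∈ T) (hper : ∀ z ∈ HP, P (z + tpi) = P z) :
    (∃ M0 ∈ T, ∀ ε : ℝ, 0 < ε → ∃ A : ℝ, 0 < A ∧ ∀ z : ℂ, z.re ≤ -A → ‖P z - M0‖ ≤ ε) ∨
      ∃ b, BCw T c0 b ∧ ∃ s : ℂ → ℂ, DifferentiableOn ℂ s HP ∧ ∀ z ∈ HP, P z = b (s z) := by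
  have hk := K.sdl.kpos
  by_cases hnc : ∃ z ∈ HP, ∃ w ∈ HP, P z ≠ P w
  swap
  · -- constant curves
    push Not at hnc
    left
    have h1 : (-1 : ℂ) ∈ HP := by
      change (-1 : ℂ).re < 0
      simp
    refine ⟨P (-1), hPT _ h1, fun ε hε => ⟨1, one_pos, fun z hz => ?_⟩⟩
    rw [hnc z (show z.re < 0 by linarith) _ h1, sub_self, norm_zero]
    exact hε.le
  rcases sk_dich hk (K.sdl.hol HP P isOpen_HP hP hPT) (K.sdl.per hP hPT hper) with
    ⟨c, hc, A, hA, h1⟩ | h1
  · exact Or.inr (K.cd.lift_HP hP hnc (K.factor hP hPT hc hA h1))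
  · left
    have hC := K.C0
    refine kwack K.sdl.comp K.sdl.sub hP hPT hper fun ε hε => ?_
    obtain ⟨A, hA, hA'⟩ := h1 (ε / C) (by positivity)
    refine ⟨max A (C / ε), lt_max_of_lt_left hA, fun z hz => ?_⟩
    have hzA : z.re ≤ -A := by
      have := le_max_left A (C / ε)
      linarith
    have hzC : C / ε ≤ -z.re := by
      have := le_max_right A (C / ε)
      linarith
    have hz0 : 0 < -z.re := by
      have : 0 < C / ε := by positivity
      linarith
    have h2 := K.ge P z (-z.re) hz0 ⟨hP.mono ball_sub_HP, fun w hw => hPT w (ball_sub_HP hw)⟩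
    refine h2.trans ?_
    have h3 : max (sk k (S P) z) (1 / -z.re) ≤ ε / C := by
      apply max_le (hA' z hzA)
      rw [div_le_iff₀ hz0]
      rw [div_le_iff₀ hε] at hzC
      rw [div_mul_eq_mul_div, le_div_iff₀ hC]
      linarith
    calc C * max (sk k (S P) z) (1 / -z.re) ≤ C * (ε / C) := mul_le_mul_of_nonneg_left h3 hC.le
      _ = ε := by field_simp

end Pool.Agent.H918.SD
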