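import Pool.Agent.H918.C.Spv
import Pool.Agent.H918.A.Prod

/-! The big Picard theorem for manifolds with positive 2-forms and with symmetric differentials
which are products of exact rational differentials and a rational function. -/

set_option autoImplicit false

open Filter Topology Metric Set MvPolynomial LinearAlgebra.Projectivization

namespace Pool.Agent.H918.SD

open Pool.Agent.Y190.OP Pool.Agent.W602.GT Pool.Agent.N155 Pool.Agent.N155.BB
open Pool.Agent.N154.GG (HolMapOn PunctIn Extends PDisc kobayashi projDist log_mem_HP)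

variable {n d k : ℕ} {ι ι' : Type} {F : ι → MvPolynomial (Fin (n + 1)) ℂ}
  {G : ι' → MvPolynomial (Fin (n + 1)) ℂ} {κ : Type}
  {η : κ → (Fin (n + 1) → ℂ) → (Fin (n + 1) → ℂ) → (Fin (n + 1) → ℂ) → ℂ}

/-- **The big Picard theorem for manifolds with positive 2-forms and products** -/
theorem product_picard (hX : ProjManifold F d) (hG : ∀ i, IsForm (G i))
    (hη : PositiveTwoForms (Cone F) (Cone G) d η)
    (hZ : ∀ f, HolIn F f → (∀ z, (f z).rep ∈ Cone G) → ∀ z, f z = f 0) {J : Type} {k : J → ℕ}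
    (hk : ∀ j, 0 < k j) {σ : J → (Fin (n + 1) → ℂ) → (Fin (n + 1) → ℂ) → ℂ}
    (hσ : ∀ j, SymDiff (Cone F) d (k j) (σ j)) {R S : J → MvPolynomial (Fin (n + 1)) ℂ}
    {P Q : ∀ j, Fin (k j) → MvPolynomial (Fin (n + 1)) ℂ}
    (hp : ∀ j, IsProduct (Cone F) (k j) (σ j) (R j) (S j) (P j) (Q j))
    (hv : ∀ f, HolIn F f → (∀ j, Vertical (R j) (P j) (Q j) f) → ∀ z, f z = f 0) :
    ∃ A : Finset (ℂ → ℙ ℂ (Fin (n + 1) → ℂ)), (∀ g ∈ A, HolIn F g ∧ (∃ z, g z ≠ g 0) ∧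
      DoublyPeriodic g) ∧
      (∀ f, PunctIn F f → Extends F f ∨ ∃ g ∈ A, ∃ s : ℂ → ℂ,
        DifferentiableOn ℂ s {z | z.re < 0} ∧ ∀ z : ℂ, z.re < 0 → f (Complex.exp z) = g (s z)) ∧
      (∀ ε : ℝ, 0 < ε → ∃ c : ℝ, 0 < c ∧ ∀ p q : ℙ ℂ (Fin (n + 1) → ℂ), ∀ D : ℝ, 0 ≤ D → D ≤ 1 →
        (∀ g ∈ A, ∀ z, D ≤ projDist p (g z)) →
        ENNReal.ofReal (c * D ^ ε * min D (projDist p q)) ≤ kobayashi (Cone F) p q) ∧
      (2 ≤ d → ∀ x ∈ Cone F, ∃ E : MvPolynomial (Fin (n + 1)) ℂ, IsForm E ∧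
        (∀ f, PunctIn F f → Extends F f ∨ ∀ z ∈ PDisc, val (f z).rep E = 0) ∧
        ∃ᶠ u in 𝓝 x, u ∈ Cone F ∧ val u E ≠ 0) := by
  rcases disc_or_tangent hX hG hη closedSet_univ with h | h | ⟨A, hA, -, hpic, hkob⟩
  · obtain ⟨f, h1, -, h2⟩ := h
    exfalso
    obtain ⟨z, hz⟩ := h1.2.2
    exact hz (hv f h1.1 (fun j => tangent_prod (hp j) hX.form h1.1 (h2 _ (hk j) _ (hσ j))) z)
  · obtain ⟨f, h1, h2, -⟩ := h
    exfalso
    obtain ⟨z, hz⟩ := h1.2.2
    exact hz (hZ f h1.1 h2 z)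
  · have hfac : ∀ f, PunctIn F f → Extends F f ∨ ∃ g ∈ A, ∃ s : ℂ → ℂ,
        DifferentiableOn ℂ s {z | z.re < 0} ∧ ∀ z : ℂ, z.re < 0 → f (Complex.exp z) = g (s z) :=
      fun f hf => hpic f hf fun _ _ => mem_univ _
    refine ⟨A, fun g hg => ⟨(hA g hg).1.1, (hA g hg).1.2.2, (hA g hg).2⟩, hfac, ?_,
      fun hd x hx => ?_⟩
    · rw [CV_univ] at hkob
      exact hkob
    · obtain ⟨E, e, hE, hEg, hEu⟩ := Pool.Agent.N155.QD.exists_form hX hd A
        (fun g hg => ⟨(hA g hg).1.1, (hA g hg).2⟩) hx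
      refine ⟨E, ⟨e, hE⟩, fun f hf => ?_, ?_⟩
      · rcases hfac f hf with h | ⟨g, hg, s, -, hfs⟩
        · exact Or.inl h
        · right
          intro z hz
          obtain ⟨h2, h3⟩ := log_mem_HP hz
          have h4 := hfs (Complex.log z) h2
          rw [h3] at h4
          rw [h4, val, MvPolynomial.aeval_eq_eval]
          exact hEg g hg _
      · refine hEu.mono fun u hu => ⟨hu.1, ?_⟩
        rw [val, MvPolynomial.aeval_eq_eval]
        exact hu.2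

end Pool.Agent.H918.SD
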