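import Pool.Agent.H918.C.LBv
import Pool.Agent.H918.A.Seq

/-! Rescaled sequences of discs. (After the file `N154/TT/Seq.lean` of an earlier team.) -/

set_option autoImplicit false

open Filter Topology Metric Set

namespace Pool.Agent.H918.SD

open Pool.Agent.Y190.OP Pool.Agent.N155
open Pool.Agent.N154.TT (cv cv_nonneg ball_sub_l)
open Pool.Agent.N154.GG (UU uu_ge qk qk_ge pigeon exists_limit_loc_l zero_free_const norm_attained
  hp_cont)

variable {N : ℕ} {T : Set (Mat N)} {k m' : ℕ} {S : (ℂ → Mat N) → ℂ → Fin m' → ℂ}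
  {D : Mat N → ℝ} {C s0 : ℝ} {nn : ℕ → ℕ} {b : ℕ → ℂ} {h : ℕ → ℂ → Mat N}

/-- a rescaled sequence of discs -/
structure SQd (T : Set (Mat N)) (k : ℕ) (S : (ℂ → Mat N) → ℂ → Fin m' → ℂ)
    (D : Mat N → ℝ) (s0 : ℝ) (nn : ℕ → ℕ) (b : ℕ → ℂ) (h : ℕ → ℂ → Mat N) : Prop where
  nge : ∀ n, n ≤ nn n
  dsc : ∀ n : ℕ, Ds T 0 ((n : ℝ) + 1) (h n)
  sc : ∀ n, sk k (S (h n)) 0 = s0
  d0 : ∀ n, 0 < D (h n 0)
  bd : ∀ (n : ℕ) (t : ℂ), ‖t‖ ≤ n → (sk k (S (h n)) t / s0) ^ (qk (nn n)) *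
    (D (h n t) * ‖Complex.exp (b n * t)‖) ≤ 2 * D (h n 0)

/-- the local distance functions -/
structure DFv (T : Set (Mat N)) (D : Mat N → ℝ) : Prop where
  pd : ∀ M ∈ T, PDv D M
  nn : ∀ M, 0 ≤ D M
  le : ∀ M, D M ≤ 1

theorem SQd.dscL (hs : SQd T k S D s0 nn b h) (L : ℝ) :
    ∀ᶠ n in (UU : Filter ℕ), Ds T 0 L (h n) := by
  filter_upwards [uu_ge L] with n hn
  exact (hs.dsc n).mono (ball_subset_ball (by linarith))

theorem SQd.difL (hS : SDl T k S) (hs : SQd T k S D s0 nn b h) (L : ℝ) :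
    ∀ᶠ n in (UU : Filter ℕ), DifferentiableOn ℂ (S (h n)) (ball 0 L) :=
  (hs.dscL L).mono fun _ h => hS.dif h

/-- **The local bound** -/
theorem SQd.LB (hS : SDl T k S) (hD : DFv T D) (hs : SQd T k S D s0 nn b h) (hC0 : 0 < C)
    (hC : GEl T k S C) (h0 : 0 < s0) (h1 : s0 ≤ 1) (r0 : ℝ) :
    ∃ K : ℝ, ∀ᶠ n in (UU : Filter ℕ), ∀ t : ℂ, ‖t‖ ≤ r0 → sk k (S (h n)) t ≤ K := by
  by_contra hcon
  push Not at hcon
  have hk := hS.kpos
  obtain ⟨Sm, R, n0, hSm, hR, hmR, hmain⟩ := LB_core_v (N := N) (C := C * s0)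
    (m0 := max r0 0 + 3) hS.comp hS.sub hD.pd hD.nn hD.le (by positivity)
    (by linarith [le_max_right r0 0])
  have e1 := hcon (Sm * s0)
  obtain ⟨n, ⟨t, ht, hst⟩, hkR, hkn⟩ := (e1.and ((uu_ge (R + 4 * (R + 1) / s0)).and
    (uu_ge (n0 : ℝ)))).exists
  have hm0 : 0 ≤ max r0 0 := le_max_right _ _
  have hmr : r0 ≤ max r0 0 := le_max_left _ _
  have h4R : R + 1 ≤ 4 * (R + 1) / s0 := by
    rw [le_div_iff₀ h0]
    nlinarith
  have hk1 : R + 4 * (R + 1) / s0 < (n : ℝ) + 1 := by linarith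
  have hdif := hS.dif (hs.dsc n)
  obtain ⟨t1, ht1, hs1⟩ := sk_max_l hk hdif (by positivity) hst
    (show ‖t‖ < max r0 0 + 3 - 2 by linarith) (by linarith)
  obtain ⟨t2, ht2, hs2⟩ := sk_max_l hk hdif (by positivity) hst
    (show ‖t‖ < max r0 0 + 3 by linarith) (by linarith)
  refine hmain (nn n + 1).factorial ?_ (b n) (h n) (fun t => sk k (S (h n)) t / s0) t1 t2
    ((hs.dsc n).mono (ball_subset_ball (by linarith)))
    (fun z => div_nonneg (sk_nn _ _ _) h0.le) (fun z w hz _ hzw => ?_) (fun z hz => ?_) ?_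
    (hs.d0 n) ?_ ht1 ht2 ?_ ?_
  · have h2 : n0 ≤ n := by exact_mod_cast hkn
    exact (h2.trans (hs.nge n)).trans ((Nat.le_succ _).trans (Nat.self_le_factorial _))
  · have e2 : 4 * ‖w - z‖ * sk k (S (h n)) z ≤ 1 := by
      have e3 : 4 * ‖w - z‖ * sk k (S (h n)) z = 4 * ‖w - z‖ * (sk k (S (h n)) z / s0) * s0 := by
        field_simp
      rw [e3]
      calc _ ≤ 1 * s0 := mul_le_mul_of_nonneg_right hzw h0.le
        _ ≤ 1 := by rw [one_mul]; exact h1
    have e4 := harnack_midk hk hdif h0 h1 (hs.sc n) hR.le hk1 hz e2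
    rw [← mul_div_assoc]
    exact div_le_div_of_nonneg_right e4 h0.le
  · have e2 := hC.mid hS (hs.dsc n) h0 h1 (hs.sc n) hR.le hk1 hz
    have e3 : C * s0 * (sk k (S (h n)) z / s0) = C * sk k (S (h n)) z := by
      field_simp
    rw [e3]
    exact e2
  · rw [hs.sc, div_self h0.ne']
  · intro t ht
    have e2 := hs.bd n t (by linarith)
    rw [mul_zero, Complex.exp_zero, norm_one, mul_one]
    exact e2
  · rwa [lt_div_iff₀ h0]
  · rwa [lt_div_iff₀ h0]

/-- **The limit** -/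
theorem SQd.lim (hS : SDl T k S) (hD : DFv T D) (hs : SQd T k S D s0 nn b h) (hC0 : 0 < C)
    (hC : GEl T k S C) (h0 : 0 < s0) (h1 : s0 ≤ 1) :
    ∃ H : ℂ → Mat N, HolP univ H ∧ (∀ z, H z ∈ T) ∧ CConv (UU : Filter ℕ) univ h H ∧
      CConv (UU : Filter ℕ) univ (fun n => S (h n)) (S H) := by
  have hk := hS.kpos
  obtain ⟨H, hH, hHT, hHc, -⟩ := exists_limit_loc_l hS.comp hS.sub (𝓤 := UU) (h := h)
    (fun L => (hs.dscL L).mono fun _ h => h.hol) (fun L => (hs.dscL L).mono fun _ h => h.mem) (by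
      intro L
      obtain ⟨K, hK⟩ := hs.LB hS hD hC0 hC h0 h1 (max L 0)
      refine ⟨C * K, ?_⟩
      filter_upwards [hK, uu_ge (max L 0 + 4 * (max L 0 + 1) / s0)] with n hn hnL z hz
      have hz' : ‖z‖ ≤ max L 0 := (mem_ball_zero_iff.1 hz).le.trans (le_max_left _ _)
      exact (hC.mid hS (hs.dsc n) h0 h1 (hs.sc n) (le_max_right L 0) (by linarith) hz').trans
        (mul_le_mul_of_nonneg_left (hn z hz') hC0.le))
  refine ⟨H, hH, hHT, hHc, ?_⟩
  have hpt : ∀ z, Tendsto (fun n => S (h n) z) UU (𝓝 (S H z)) := by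
    intro z
    exact hS.lim UU (ball 0 (‖z‖ + 1)) h H isOpen_ball
      ((hs.dscL (‖z‖ + 1)).mono fun _ h => ⟨h.hol, h.mem⟩) (hH.mono (subset_univ _))
      (fun w _ => hHT w) (fun w _ => hHc w (mem_univ w)) z
      (mem_ball_zero_iff.2 (by linarith))
  have hcomp : ∀ j : Fin m', CConv (UU : Filter ℕ) univ (fun n z => S (h n) z j)
      (fun z => S H z j) := by
    intro j
    obtain ⟨G, hG⟩ := ultra_montel (𝓤 := UU) (U := univ) (h := fun n z => S (h n) z j) (by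
      intro z _
      obtain ⟨K, hK⟩ := hs.LB hS hD hC0 hC h0 h1 (‖z‖ + 1)
      refine ⟨ball z 1, ball_mem_nhds z one_pos, K ^ k, ?_⟩
      filter_upwards [hK, hs.difL hS (‖z‖ + 2)] with n hn hdif
      have hin : ∀ w ∈ ball z 1, ‖w‖ < ‖z‖ + 1 := by
        intro w hw
        rw [mem_ball, dist_eq_norm] at hw
        have := norm_add_le (w - z) z
        rw [sub_add_cancel] at this
        linarith
      refine ⟨fun w hw => ((differentiableAt_pi.1 (hdif.differentiableAt (isOpen_ball.mem_nhds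
        (mem_ball_zero_iff.2 (by linarith [hin w hw]))))) j).differentiableWithinAt,
        fun w hw => ?_⟩
      have e1 := hin w hw
      exact (norm_le_pi_norm (S (h n) w) j).trans ((val_le_sk_l hk
        (hdif.mono (ball_sub_l (w := w))) (by linarith)).trans
        (pow_le_pow_left₀ (sk_nn _ _ _) (hn w e1.le) k)))
    have e1 : G = fun z => S H z j := by
      funext z
      exact tendsto_nhds_unique (hG.pointwise (mem_univ z)) ((tendsto_pi_nhds.1 (hpt z)) j)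
    rwa [e1] at hG
  intro z hz
  rw [tendsto_pi_nhds]
  intro j
  exact hcomp j z hz

/-- the limits of the derivatives -/
theorem it_limv_l {E : Type*} [NormedAddCommGroup E] [NormedSpace ℂ E] [CompleteSpace E]
    {φ : ℕ → ℂ → E} {Φ : ℂ → E}
    (hd : ∀ L : ℝ, ∀ᶠ k in (UU : Filter ℕ), DifferentiableOn ℂ (φ k) (ball 0 L))
    (hc : CConv (UU : Filter ℕ) univ φ Φ) (m : ℕ) (z : ℂ) :
    Tendsto (fun k => iteratedDeriv m (φ k) z) UU (𝓝 (iteratedDeriv m Φ z)) := by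
  have h1 : ∀ m, TendstoLocallyUniformlyOn (fun k => iteratedDeriv m (φ k)) (iteratedDeriv m Φ)
      (UU : Filter ℕ) (ball 0 (‖z‖ + 1)) := by
    intro m
    induction m with
    | zero =>
      simp only [iteratedDeriv_zero]
      exact (hc.locUnif isOpen_univ).mono (subset_univ _)
    | succ m ih =>
      simp only [iteratedDeriv_succ]
      exact ih.deriv ((hd (‖z‖ + 1)).mono fun k hk => diff_itk_l hk m) isOpen_ball
  exact (h1 m).tendsto_at (mem_ball_zero_iff.2 (by linarith))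

/-- the dominating coefficient -/
theorem SQd.coef (hS : SDl T k S) (hD : DFv T D) (hs : SQd T k S D s0 nn b h) (hC0 : 0 < C)
    (hC : GEl T k S C) (h0 : 0 < s0) (h1 : s0 ≤ 1) :
    ∃ (m : ℕ) (j : Fin m'), ∀ᶠ n in (UU : Filter ℕ), ∀ p : ℕ, p * (m + k) = qk (nn n) →
      s0 ^ (qk (nn n)) / 2 ≤ cj (S (h n)) m j 0 ^ p := by
  have hk := hS.kpos
  set s : ℕ → ℝ := fun n => s0 * (1 / 2 : ℝ) ^ (((qk (nn n) : ℕ) : ℝ)⁻¹) with hsdef
  have hq1 : ∀ n, (1 : ℝ) ≤ (qk (nn n) : ℝ) := fun n => by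
    exact_mod_cast Nat.one_le_iff_ne_zero.2 (qk_ne _)
  have hs0 : ∀ n, 0 ≤ s n := fun n => by positivity
  have hspow : ∀ n, s n ^ (qk (nn n)) = s0 ^ (qk (nn n)) / 2 := fun n => by
    rw [hsdef]
    simp only
    rw [mul_pow, Real.rpow_inv_natCast_pow (by norm_num) (qk_ne _)]
    ring
  have hs1 : ∀ n, s n < s0 := fun n => by
    have := Real.rpow_lt_one (x := 1 / 2) (z := ((qk (nn n) : ℕ) : ℝ)⁻¹) (by norm_num)
      (by norm_num) (inv_pos.2 (by linarith [hq1 n]))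
    exact mul_lt_of_lt_one_right h0 this
  have hs2 : ∀ n, s0 / 2 ≤ s n := by
    intro n
    have h1 := Real.rpow_le_rpow_of_exponent_ge (x := 1 / 2) (y := 1)
      (z := ((qk (nn n) : ℕ) : ℝ)⁻¹)
      (by norm_num) (by norm_num) (inv_le_one_of_one_le₀ (hq1 n))
    rw [Real.rpow_one] at h1
    rw [hsdef]
    simp only
    nlinarith
  choose m hm using fun n => exists_cv (φ := S (h n)) (z := 0) hk (hs0 n) (by
    rw [hs.sc n]
    exact hs1 n)
  -- the component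
  have hne : ∀ n, ∃ j : Fin m', s n ^ (m n + k) < cj (S (h n)) (m n) j 0 := by
    intro n
    have hn := hm n
    rcases isEmpty_or_nonempty (Fin m') with hE | hE
    · exfalso
      unfold cv at hn
      rw [Subsingleton.elim (iteratedDeriv (m n) (S (h n)) 0) 0, norm_zero, zero_div] at hn
      have := pow_nonneg (hs0 n) (m n + k)
      linarith
    · obtain ⟨j, hj⟩ := norm_attained (iteratedDeriv (m n) (S (h n)) 0)
      refine ⟨j, ?_⟩
      unfold cv at hn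
      unfold cj
      rwa [hj] at hn
  choose j hj using hne
  obtain ⟨K, hK⟩ := hs.LB hS hD hC0 hC h0 h1 (4 / s0)
  have hbound : ∀ᶠ n in (UU : Filter ℕ), ∃ l < ⌈K ^ k * (2 / s0) ^ k⌉₊, m n = l := by
    filter_upwards [hK, hs.difL hS (4 / s0 + 1)] with n hn hdif
    refine ⟨m n, ?_, rfl⟩
    have hR : 0 < 4 / s0 := by positivity
    have h2 := cvk_le_l (z := 0) hdif hR (C := K ^ k) (by linarith) (by
      intro w hw
      rw [mem_sphere_zero_iff_norm] at hw
      exact (val_le_sk_l hk (hdif.mono (ball_sub_l (w := w))) (by linarith)).trans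
        (pow_le_pow_left₀ (sk_nn _ _ _) (hn w hw.le) k)) (m n)
    have h3 : (s0 / 2) ^ (m n + k) ≤ s n ^ (m n + k) :=
      pow_le_pow_left₀ (by positivity) (hs2 n) _
    have h4 : (s0 / 2) ^ (m n + k) < K ^ k / (4 / s0) ^ (m n) := (h3.trans_lt (hm n)).trans_le h2
    rw [lt_div_iff₀ (by positivity)] at h4
    have h5 : (s0 / 2) ^ (m n + k) * (4 / s0) ^ m n = 2 ^ m n * (s0 / 2) ^ k := by
      rw [pow_add, mul_right_comm, ← mul_pow]
      congr 2
      field_simp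
      norm_num
    rw [h5] at h4
    have h6 : (2 : ℝ) ^ m n < K ^ k * (2 / s0) ^ k := by
      have h7 : (2 : ℝ) ^ m n = 2 ^ m n * (s0 / 2) ^ k * (2 / s0) ^ k := by
        rw [mul_assoc, ← mul_pow]
        have : s0 / 2 * (2 / s0) = 1 := by field_simp
        rw [this, one_pow, mul_one]
      rw [h7]
      exact mul_lt_mul_of_pos_right h4 (by positivity)
    have h8 : (m n : ℝ) < 2 ^ m n := by exact_mod_cast Nat.lt_two_pow_self (n := m n)
    have h9 := (h8.trans h6).trans_le (Nat.le_ceil _)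
    exact_mod_cast h9
  obtain ⟨l, hl⟩ := pigeon hbound
  have hbound2 : ∀ᶠ n in (UU : Filter ℕ), ∃ i < m', (j n : ℕ) = i :=
    Eventually.of_forall fun n => ⟨j n, (j n).2, rfl⟩
  obtain ⟨i, hi⟩ := pigeon hbound2
  have him : i < m' := by
    obtain ⟨n, hn⟩ := hi.exists
    rw [← hn]
    exact (j n).2
  refine ⟨l, ⟨i, him⟩, ?_⟩
  filter_upwards [hl, hi] with n e1 e2 p hp
  have e3 : j n = ⟨i, him⟩ := Fin.ext e2
  have h1 := hj n
  rw [e1, e3] at h1
  calc s0 ^ (qk (nn n)) / 2 = s n ^ (qk (nn n)) := (hspow n).symm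
    _ = (s n ^ (l + k)) ^ p := by rw [← pow_mul, ← hp, mul_comm]
    _ ≤ _ := pow_le_pow_left₀ (pow_nonneg (hs0 n) _) h1.le p

end Pool.Agent.H918.SD
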