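import Pool.Agent.H918.A.Sk

/-! The scale of a vector valued holomorphic function on a disc, of weight `k`. (After the file
`N154/TT/Sig.lean` of an earlier team.) -/

set_option autoImplicit false

open Filter Topology Metric Set

namespace Pool.Agent.H918.SD

open Pool.Agent.N154.TT (cv cv_nonneg iteratedDeriv_aff ball_sub_l)

variable {E : Type*} [NormedAddCommGroup E] [NormedSpace ℂ E] [CompleteSpace E]
variable {φ ψ : ℂ → E} {z : ℂ} {R : ℝ} {k : ℕ}

omit [CompleteSpace E] in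
theorem cv_congr (h : φ =ᶠ[𝓝 z] ψ) (m : ℕ) : cv φ m z = cv ψ m z := by
  unfold cv
  rw [h.iteratedDeriv_eq m]

omit [CompleteSpace E] in
theorem sk_congr (h : φ =ᶠ[𝓝 z] ψ) : sk k φ z = sk k ψ z := by
  unfold sk
  congr 1
  funext m
  rw [cv_congr h]

theorem cvk_le_l (hφ : DifferentiableOn ℂ φ (ball z R)) {ρ C : ℝ} (hρ : 0 < ρ) (hρR : ρ < R)
    (h : ∀ w ∈ sphere z ρ, ‖φ w‖ ≤ C) (m : ℕ) : cv φ m z ≤ C / ρ ^ m := by
  have hd : DiffContOnCl ℂ φ (ball z ρ) := hφ.diffContOnCl_ball (closedBall_subset_ball hρR)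
  have h2 := Complex.norm_iteratedDeriv_le_of_forall_mem_sphere_norm_le m hρ hd h
  unfold cv
  rw [div_le_iff₀ (by positivity)]
  refine h2.trans (le_of_eq ?_)
  ring

theorem bddAbove_sk_l (hk : 0 < k) (hφ : DifferentiableOn ℂ φ (ball z R)) (hR : 0 < R) :
    BddAbove (range fun m : ℕ => (cv φ m z) ^ (((m + k : ℕ) : ℝ)⁻¹)) := by
  have hρ : 0 < R / 2 := by positivity
  have hρR : R / 2 < R := by linarith
  have hc : ContinuousOn (fun w => ‖φ w‖) (sphere z (R / 2)) :=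
    (hφ.continuousOn.mono (sphere_subset_closedBall.trans (closedBall_subset_ball hρR))).norm
  obtain ⟨C, hC⟩ := (isCompact_sphere z (R / 2)).bddAbove_image hc
  have hC' : ∀ w ∈ sphere z (R / 2), ‖φ w‖ ≤ max C 1 := fun w hw =>
    (hC ⟨w, hw, rfl⟩).trans (le_max_left _ _)
  set a : ℝ := max 1 (1 / (R / 2)) with ha
  refine ⟨max C 1 * a, ?_⟩
  rintro _ ⟨m, rfl⟩
  refine root_le' hk (cv_nonneg _ _ _) (by positivity) ?_
  have h1 := cvk_le_l hφ hρ hρR hC' m
  have h2 : max C 1 / (R / 2) ^ m ≤ max C 1 * a ^ m := by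
    rw [div_eq_mul_inv, ← inv_pow]
    apply mul_le_mul_of_nonneg_left _ (by positivity)
    apply pow_le_pow_left₀ (by positivity)
    rw [inv_eq_one_div]
    exact le_max_right _ _
  refine (h1.trans h2).trans ?_
  rw [mul_pow]
  have h3 : max C 1 ≤ max C 1 ^ (m + k) := le_self_pow₀ (le_max_right _ _) (by omega)
  have h4 : a ^ m ≤ a ^ (m + k) := pow_le_pow_right₀ (le_max_left _ _) (by omega)
  exact mul_le_mul h3 h4 (by positivity) (by positivity)

theorem cv_le_sk_l (hk : 0 < k) (hφ : DifferentiableOn ℂ φ (ball z R)) (hR : 0 < R) (m : ℕ) :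
    cv φ m z ≤ sk k φ z ^ (m + k) := by
  have h1 : (cv φ m z) ^ (((m + k : ℕ) : ℝ)⁻¹) ≤ sk k φ z :=
    le_ciSup (bddAbove_sk_l hk hφ hR) m
  have h2 := pow_le_pow_left₀ (Real.rpow_nonneg (cv_nonneg φ m z) _) h1 (m + k)
  rwa [Real.rpow_inv_natCast_pow (cv_nonneg _ _ _) (by omega)] at h2

theorem val_le_sk_l (hk : 0 < k) (hφ : DifferentiableOn ℂ φ (ball z R)) (hR : 0 < R) :
    ‖φ z‖ ≤ sk k φ z ^ k := by
  have := cv_le_sk_l hk hφ hR 0
  unfold cv at this
  rw [zero_add, iteratedDeriv_zero, Nat.factorial_zero, Nat.cast_one, div_one] at this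
  exact this

theorem sk_le_of_bound_l (hk : 0 < k) (hφ : DifferentiableOn ℂ φ (ball z R)) {s : ℝ} (hs : 0 < s)
    (hR : 1 / s < R) (h : ∀ w ∈ sphere z (1 / s), ‖φ w‖ ≤ s ^ k) : sk k φ z ≤ s := by
  apply sk_le hk hs.le
  intro m
  refine (cvk_le_l hφ (by positivity) hR h m).trans (le_of_eq ?_)
  rw [pow_add, div_pow, one_pow]
  field_simp

/-- Taylor's formula -/
theorem taylork_l (hk : 0 < k) (hφ : DifferentiableOn ℂ φ (ball z R)) {w : ℂ}
    (hw : w ∈ ball z R) (h : ‖w - z‖ * sk k φ z ≤ 1 / 2) : ‖φ w‖ ≤ 2 * sk k φ z ^ k := by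
  have hR : 0 < R := pos_of_mem_ball hw
  have h1 := Complex.hasSum_taylorSeries_on_ball hφ hw
  have hs := sk_nn k φ z
  have hg : HasSum (fun m : ℕ => sk k φ z ^ k * (1 / 2) ^ m) (sk k φ z ^ k * 2) :=
    (hasSum_geometric_two).mul_left _
  rw [mul_comm 2]
  refine HasSum.norm_le_of_bounded h1 hg fun m => ?_
  rw [norm_smul, norm_smul, norm_inv, norm_pow, Complex.norm_natCast]
  have h4 : (m.factorial : ℝ)⁻¹ * (‖w - z‖ ^ m * ‖iteratedDeriv m φ z‖) =
      ‖w - z‖ ^ m * cv φ m z := by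
    unfold cv
    field_simp
  rw [h4]
  calc ‖w - z‖ ^ m * cv φ m z ≤ ‖w - z‖ ^ m * sk k φ z ^ (m + k) :=
        mul_le_mul_of_nonneg_left (cv_le_sk_l hk hφ hR m) (by positivity)
    _ = sk k φ z ^ k * (‖w - z‖ * sk k φ z) ^ m := by
        rw [mul_pow, pow_add]
        ring
    _ ≤ sk k φ z ^ k * (1 / 2) ^ m := by
        gcongr

/-- a Harnack inequality for the scale -/
theorem sk_harnack_l (hk : 0 < k) (hφ : DifferentiableOn ℂ φ (ball z R)) {w : ℂ} {s : ℝ}
    (hs : 0 < s) (hsg : sk k φ z ≤ s) (hR : 1 ≤ R * s) (h : 4 * ‖w - z‖ * s ≤ 1) :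
    sk k φ w ≤ 4 * s := by
  have hR0 : 0 < R := by
    by_contra hcon
    push Not at hcon
    nlinarith
  have h4 : 0 < 1 / (4 * s) := by positivity
  have e1 : ‖w - z‖ ≤ 1 / (4 * s) := by
    rw [le_div_iff₀ (by positivity)]
    linarith
  have e2 : 1 / (4 * s) ≤ R / 4 := by
    rw [div_le_div_iff₀ (by positivity) (by norm_num)]
    linarith
  have e3 : 1 / (2 * s) = 1 / (4 * s) + 1 / (4 * s) := by
    field_simp
    norm_num
  have hsub : ball w (1 / (2 * s)) ⊆ ball z R := by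
    apply ball_subset_ball'
    rw [dist_eq_norm]
    linarith
  apply sk_le_of_bound_l hk (hφ.mono hsub) (by positivity) (by linarith)
  intro x hx
  rw [mem_sphere, dist_eq_norm] at hx
  have h2 : ‖x - z‖ ≤ ‖x - w‖ + ‖w - z‖ := by
    have := norm_add_le (x - w) (w - z)
    rwa [sub_add_sub_cancel] at this
  have h5 := taylork_l (z := z) (w := x) hk hφ (by
    rw [mem_ball, dist_eq_norm]
    linarith) (by
    calc ‖x - z‖ * sk k φ z ≤ (1 / (4 * s) + 1 / (4 * s)) * s := by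
          have := sk_nn k φ z
          gcongr
          linarith
      _ = 1 / 2 := by
          field_simp
          norm_num)
  refine h5.trans ?_
  rw [mul_pow]
  have h6 : (2 : ℝ) ≤ 4 ^ k := by
    calc (2 : ℝ) ≤ 4 ^ 1 := by norm_num
      _ ≤ 4 ^ k := pow_le_pow_right₀ (by norm_num) hk
  have := sk_nn k φ z
  gcongr

theorem zero_of_sk_zero_l (hk : 0 < k) (hφ : DifferentiableOn ℂ φ (ball z R))
    (h : sk k φ z = 0) {x : ℂ} (hx : x ∈ ball z R) : φ x = 0 := by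
  have h1 := taylork_l (z := z) (w := x) hk hφ hx (by
    rw [h, mul_zero]
    norm_num)
  rw [h, zero_pow hk.ne', mul_zero] at h1
  exact norm_le_zero_iff.1 h1

theorem diff_itk_l {L : ℝ} {f : ℂ → E} (hf : DifferentiableOn ℂ f (ball 0 L)) (m : ℕ) :
    DifferentiableOn ℂ (iteratedDeriv m f) (ball 0 L) :=
  Pool.Agent.N154.TT.diff_it_l hf m

/-- the maximum principle -/
theorem sk_max_l {L : ℝ} (hk : 0 < k) (hφ : DifferentiableOn ℂ φ (ball 0 L)) {s r : ℝ}
    (hs : 0 ≤ s) (h : s < sk k φ z) (hz : ‖z‖ < r) (hr : r < L) :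
    ∃ w : ℂ, ‖w‖ = r ∧ s < sk k φ w := by
  obtain ⟨m, hm⟩ := exists_cv hk hs h
  by_contra hcon
  push Not at hcon
  have hdiff := diff_itk_l hφ m
  have hr0 : 0 < r := (norm_nonneg z).trans_lt hz
  have h1 := Complex.norm_le_of_forall_mem_frontier_norm_le (f := iteratedDeriv m φ)
    (U := ball 0 r) (C := s ^ (m + k) * m.factorial) isBounded_ball
    (hdiff.diffContOnCl_ball (closedBall_subset_ball hr)) (by
      intro w hw
      rw [frontier_ball (0 : ℂ) hr0.ne', mem_sphere_zero_iff_norm] at hw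
      have h2 := (cv_le_sk_l (z := w) (R := L - ‖w‖) hk (hφ.mono ball_sub_l) (by linarith) m).trans
        (pow_le_pow_left₀ (sk_nn k φ w) (hcon w hw) (m + k))
      unfold cv at h2
      rwa [div_le_iff₀ (by positivity)] at h2)
    (subset_closure (mem_ball_zero_iff.2 hz))
  apply absurd hm
  push Not
  unfold cv
  rwa [div_le_iff₀ (by positivity)]

/-- the lower bound of the scale -/
theorem sk_low {ψ : ℂ → E} {ρ R s0 : ℝ} (hk : 0 < k) (hd : DifferentiableOn ℂ ψ (ball 0 ρ))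
    (h00 : 0 < s0) (h01 : s0 ≤ 1) (h0 : sk k ψ 0 = s0) (hR : 0 ≤ R)
    (hρ : R + 4 * (R + 1) / s0 < ρ) {z : ℂ}
    (hz : ‖z‖ ≤ R) : s0 / (4 * (R + 1)) ≤ sk k ψ z := by
  set Rz : ℝ := ρ - ‖z‖ with hRz
  have hRz0 : 4 * (R + 1) / s0 < Rz := by linarith
  have hRzp : 0 < Rz := lt_of_le_of_lt (by positivity) hRz0
  set s : ℝ := max (sk k ψ z) (1 / Rz) with hs
  have hsp : 0 < s := lt_of_lt_of_le (by positivity) (le_max_right _ _)
  have hRs : 1 ≤ Rz * s := by
    have h1 : 1 / Rz ≤ s := le_max_right _ _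
    have h2 := mul_le_mul_of_nonneg_left h1 hRzp.le
    rwa [mul_one_div, div_self hRzp.ne'] at h2
  have hlow : s0 / (4 * (R + 1)) ≤ s := by
    rcases lt_or_ge 1 (4 * ‖(0 : ℂ) - z‖ * s) with h1 | h1
    · rw [zero_sub, norm_neg] at h1
      rw [div_le_iff₀ (by positivity)]
      nlinarith
    · have h2 := sk_harnack_l hk (hd.mono ball_sub_l) hsp (le_max_left _ _) hRs h1
      rw [h0] at h2
      rw [div_le_iff₀ (by positivity)]
      nlinarith
  rcases le_total (sk k ψ z) (1 / Rz) with h1 | h1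
  · exfalso
    have h2 : s = 1 / Rz := max_eq_right h1
    rw [h2] at hlow
    have h3 := one_div_lt_one_div_of_lt (by positivity : (0 : ℝ) < 4 * (R + 1) / s0) hRz0
    rw [one_div_div] at h3
    linarith
  · have h2 : s = sk k ψ z := max_eq_left h1
    rwa [h2] at hlow

end Pool.Agent.H918.SD
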