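import Pool.Agent.H918.C.Geov

/-! Special sets given by punctured discs. -/

set_option autoImplicit false

open Filter Topology Metric Set LinearAlgebra.Projectivization

namespace Pool.Agent.H918.SD

open Pool.Agent.Y190.OP Pool.Agent.W602.GT Pool.Agent.N155 Pool.Agent.N155.BB
open Pool.Agent.N154.GG (HolMapOn PunctIn Extends PDisc kobayashi projDist holP_of_on log_mem_HP)

variable {n d : ℕ} {ι ι' : Type}

/-- `f` is a holomorphic map from the punctured unit disc to the projective set `X = {F = 0}`, with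
values in the subset `V`, which has an essential singularity at the origin: it does not extend to a
holomorphic map from the unit disc to `X`. -/
def EssentialIn (F : ι → MvPolynomial (Fin (n + 1)) ℂ) (V : Set (ℙ ℂ (Fin (n + 1) → ℂ)))
    (f : ℂ → ℙ ℂ (Fin (n + 1) → ℂ)) : Prop :=
  PunctIn F f ∧ (∀ z ∈ PDisc, f z ∈ V) ∧ ¬ Extends F f

/-- The special set `Sp_p(V)` (as a cone): the Zariski closure, in the projective set
`X = {F = 0}`, of the union of the images of the holomorphic maps from the punctured disc to `X`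
with values in `V` and with an essential singularity at the origin. -/
def SpPunctured (F : ι → MvPolynomial (Fin (n + 1)) ℂ) (V : Set (ℙ ℂ (Fin (n + 1) → ℂ))) :
    Set (Fin (n + 1) → ℂ) :=
  {x | x ∈ Cone F ∧ ∀ P : MvPolynomial (Fin (n + 1)) ℂ, IsForm P →
    (∀ f, EssentialIn F V f → ∀ z ∈ PDisc, val (f z).rep P = 0) → val x P = 0}

variable {F : ι → MvPolynomial (Fin (n + 1)) ℂ} {G : ι' → MvPolynomial (Fin (n + 1)) ℂ}
  {κ : Type} {η : κ → (Fin (n + 1) → ℂ) → (Fin (n + 1) → ℂ) → (Fin (n + 1) → ℂ) → ℂ}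
  {V : Set (ℙ ℂ (Fin (n + 1) → ℂ))}

/-- every point of the plane is congruent to points far away -/
theorem exists_far (L : PeriodPair) (z : ℂ) (R : ℝ) : ∃ l ∈ L.lattice, R < ‖z + l‖ := by
  have h0 : L.ω₁ ≠ 0 := L.indep.ne_zero 0
  have h1 : 0 < ‖L.ω₁‖ := norm_pos_iff.2 h0
  obtain ⟨m, hm⟩ := exists_nat_gt ((R + ‖z‖) / ‖L.ω₁‖)
  refine ⟨(m : ℂ) * L.ω₁, ?_, ?_⟩
  · have := L.lattice.smul_mem (m : ℤ) L.ω₁_mem_lattice
    simpa using this
  · rw [div_lt_iff₀ h1] at hm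
    have h2 := norm_sub_le (z + (m : ℂ) * L.ω₁) z
    rw [add_sub_cancel_left, norm_mul, Complex.norm_natCast] at h2
    linarith

/-- doubly periodic curves have an essential singularity at infinity -/
theorem essential_of {g : ℂ → ℙ ℂ (Fin (n + 1) → ℂ)} (hg : EntireIn F V g)
    (hp : DoublyPeriodic g) : EssentialIn F V (fun z => g z⁻¹) := by
  obtain ⟨L, hL⟩ := hp
  refine ⟨⟨fun z hz => ?_, fun z _ => hg.1.2 _⟩, fun z _ => hg.2.1 _, ?_⟩
  · obtain ⟨W, u, hW, hzW, hu, hgu⟩ := hg.1.1 z⁻¹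
    have hz0 : z ≠ 0 := hz.2
    have hci : ContinuousAt (fun w : ℂ => w⁻¹) z := continuousAt_inv₀ hz0
    obtain ⟨W', hW'1, hW'2, hzW'⟩ := _root_.mem_nhds_iff.1
      ((hci.eventually (hW.mem_nhds hzW)).and (isOpen_ne.mem_nhds hz0))
    refine ⟨W', fun w => u w⁻¹, hW'2, hzW', fun w hw => ?_, fun w hw => hgu _ (hW'1 hw).1⟩
    have h1 : DifferentiableAt ℂ u w⁻¹ := hu.differentiableAt (hW.mem_nhds (hW'1 hw).1)
    have h2 : DifferentiableAt ℂ (fun w : ℂ => w⁻¹) w := differentiableAt_inv (hW'1 hw).2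
    exact (DifferentiableAt.comp (f := fun w : ℂ => w⁻¹) w h1 h2).differentiableWithinAt
  · rintro ⟨h, hh, -, hheq⟩
    set Q : ℂ → Mat (n + 1) := fun z => Phi (h z).rep with hQ
    have hQc : ContinuousAt Q 0 := (holP_of_on hh).continuousAt (mem_ball_self one_pos)
    have hkey : ∀ z : ℂ, Phi (g z).rep = Q 0 := by
      intro z
      by_contra hne
      have h1 : 0 < ‖Phi (g z).rep - Q 0‖ := norm_pos_iff.2 (sub_ne_zero.2 hne)
      obtain ⟨δ, hδ, hδ2⟩ := Metric.continuousAt_iff.1 hQc _ h1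
      obtain ⟨l, hl, hfar⟩ := exists_far L z (max (1 / δ) 1)
      have h2 : 0 < ‖z + l‖ := by
        have := le_max_right (1 / δ) (1 : ℝ)
        linarith
      have h3 : ‖(z + l)⁻¹‖ < δ := by
        rw [norm_inv, inv_lt_comm₀ h2 hδ, inv_eq_one_div]
        exact (le_max_left _ _).trans_lt hfar
      have h4 : ‖(z + l)⁻¹‖ < 1 := by
        rw [norm_inv, inv_lt_comm₀ h2 one_pos, inv_one]
        exact (le_max_right _ _).trans_lt hfar
      have h5 : (z + l)⁻¹ ∈ PDisc :=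
        ⟨mem_ball_zero_iff.2 h4, inv_ne_zero (norm_pos_iff.1 h2)⟩
      have h6 := hδ2 (x := (z + l)⁻¹) (by rwa [dist_zero_right])
      have h7 : h (z + l)⁻¹ = g z := by
        have h8 := hheq _ h5
        simp only at h8
        rw [h8, inv_inv, hL l hl]
      rw [hQ] at h6
      simp only at h6
      rw [h7, dist_eq_norm] at h6
      exact lt_irrefl _ h6
    obtain ⟨z, hz⟩ := hg.2.2
    exact hz (proj_ext ((hkey z).trans (hkey 0).symm))

/-- the values of doubly periodic curves near infinity -/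
theorem val_of_punct {g : ℂ → ℙ ℂ (Fin (n + 1) → ℂ)} (hp : DoublyPeriodic g)
    {P : MvPolynomial (Fin (n + 1)) ℂ} (h : ∀ z ∈ PDisc, val (g z⁻¹).rep P = 0) (z : ℂ) :
    val (g z).rep P = 0 := by
  obtain ⟨L, hL⟩ := hp
  obtain ⟨l, hl, hfar⟩ := exists_far L z 1
  have h2 : 0 < ‖z + l‖ := by linarith
  have h5 : (z + l)⁻¹ ∈ PDisc := ⟨mem_ball_zero_iff.2 (by
    rw [norm_inv, inv_lt_comm₀ h2 one_pos, inv_one]
    exact hfar), inv_ne_zero (norm_pos_iff.1 h2)⟩
  have h6 := h _ h5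
  rwa [inv_inv, hL l hl] at h6

/-- **The special sets** -/
theorem special_sets_p (hX : ProjManifold F d) (hG : ∀ i, IsForm (G i))
    (hη : PositiveTwoForms (Cone F) (Cone G) d η) (hV : ClosedSet V) :
    (∃ f : ℂ → ℙ ℂ (Fin (n + 1) → ℂ), EntireIn F V f ∧ (∃ C, DerBetween 0 C f) ∧
      ∀ k, 0 < k → ∀ σ, SymDiff (Cone F) d k σ → TangentTo σ f) ∨
    (∃ f : ℂ → ℙ ℂ (Fin (n + 1) → ℂ), EntireIn F V f ∧ (∀ z, (f z).rep ∈ Cone G) ∧
      ∃ c C, 0 < c ∧ DerBetween c C f) ∨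
    ((∃ S : Finset (ℂ → ℙ ℂ (Fin (n + 1) → ℂ)), (∀ g ∈ S, EntireIn F V g ∧ DoublyPeriodic g) ∧
      ∀ f, EssentialIn F V f → ∃ g ∈ S, ∃ s : ℂ → ℂ, DifferentiableOn ℂ s {z | z.re < 0} ∧
          ∀ z : ℂ, z.re < 0 → f (Complex.exp z) = g (s z)) ∧
      SpPunctured F V = SpEntire F V ∧ SpElliptic F V = SpEntire F V ∧
      (2 ≤ d → ∀ x ∈ Cone F, ∃ᶠ u in 𝓝 x, u ∈ Cone F ∧ u ∉ SpPunctured F V)) := by
  rcases disc_or_tangent hX hG hη hV with h | h | ⟨S, hS, hfac, hpic, -⟩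
  · exact Or.inl h
  · exact Or.inr (Or.inl h)
  · right
    right
    have hess : ∀ f, EssentialIn F V f → ∃ g ∈ S, ∃ s : ℂ → ℂ,
        DifferentiableOn ℂ s {z | z.re < 0} ∧
          ∀ z : ℂ, z.re < 0 → f (Complex.exp z) = g (s z) := fun f hf =>
      (hpic f hf.1 hf.2.1).resolve_left hf.2.2
    have hessv : ∀ P : MvPolynomial (Fin (n + 1)) ℂ, (∀ g ∈ S, ∀ z, val (g z).rep P = 0) →
        ∀ f, EssentialIn F V f → ∀ z ∈ PDisc, val (f z).rep P = 0 := by
      intro P hP f hf z hz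
      obtain ⟨g, hg, s, -, hfs⟩ := hess f hf
      obtain ⟨h2, h3⟩ := log_mem_HP hz
      have h4 := hfs (Complex.log z) h2
      rw [h3] at h4
      rw [h4]
      exact hP g hg _
    have hell : SpElliptic F V = SpEntire F V := by
      ext x
      constructor
      · rintro ⟨hx, h⟩
        exact ⟨hx, fun P hP hv => h P hP fun f hf _ => hv f hf⟩
      · rintro ⟨hx, h⟩
        refine ⟨hx, fun P hP hv => h P hP fun f hf z => ?_⟩
        obtain ⟨g, hg, s, -, hfs⟩ := hfac f hf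
        rw [hfs z]
        exact hv g (hS g hg).1 (hS g hg).2 _
    have hpun : SpPunctured F V = SpEntire F V := by
      rw [← hell]
      ext x
      constructor
      · rintro ⟨hx, h⟩
        refine ⟨hx, fun P hP hv => h P hP ?_⟩
        exact hessv P fun g hg => hv g (hS g hg).1 (hS g hg).2
      · rintro ⟨hx, h⟩
        refine ⟨hx, fun P hP hv => h P hP fun f hf hfp => ?_⟩
        exact val_of_punct hfp (hv _ (essential_of hf hfp))
    refine ⟨⟨S, hS, hess⟩, hpun, hell, fun hd x hx => ?_⟩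
    obtain ⟨P, e, hP, hPg, hPu⟩ := Pool.Agent.N155.QD.exists_form hX hd S
      (fun g hg => ⟨(hS g hg).1.1, (hS g hg).2⟩) hx
    refine hPu.mono fun u hu => ⟨hu.1, fun hcon => hu.2 ?_⟩
    have h1 := hcon.2 P ⟨e, hP⟩ (hessv P fun g hg z => by
      rw [val, MvPolynomial.aeval_eq_eval]
      exact hPg g hg z)
    rwa [val, MvPolynomial.aeval_eq_eval] at h1

end Pool.Agent.H918.SD
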